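import Pool.Agent.Helper4.PQ0.St

/-!
# Project PQS (MP_2b6189_al), part 2: the second case for `a = 2` does not occur for ghosts (any parity)

`X : PD I p 2` with `M1 X` and no twist of order `p` in the block.  Notation: `x = y o`, `g = p - x`, `2 x = p + 1`, so `p = 2 g + 1`;
`K0 = {k | y k ≠ 0, t k = 1}`, `K' = K0` without `o`, `E = {j | y j ≠ 0, t j ≠ 1}` (then `t j ^ p ≠ 1`), `r k = |Orb X k|`.
Each module proves `theorem hXXX : StXXX`.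
-/

set_option autoImplicit false

namespace Pool.Agent.Helper4.PQ0

open Matrix ComplexConjugate Pool.Agent.Helper94.YF Pool.Agent.Helper94.YG
open Pool.Agent.Helper89.OS hiding PD Cx Blk B0 Orb StXA StXB StXC StXE StCGR StISO StBLK StAMG StHEC StSTL StMZZ StDRE StTSU
open Pool.Agent.Helper89.OC hiding Ks gX OB Lk StORB StTS2 StLKD StTAN

open Classical in
/-- `K'` -/
noncomputable def Kp {I : Type} [Fintype I] [DecidableEq I] {p a : ℕ} (X : PD I p a) : Finset I :=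
  Finset.univ.filter fun k => X.y k ≠ 0 ∧ X.t k = 1 ∧ k ≠ X.o

/-- `g = p - x` -/
def gp {I : Type} [Fintype I] [DecidableEq I] {p a : ℕ} (X : PD I p a) : ℤ := (p : ℤ) - X.y X.o

open Classical in
/-- the facts of module TIY (helper4): the fixed vectors in the second case -/
structure Fct {I : Type} [Fintype I] [DecidableEq I] {p : ℕ} (X : PD I p 2) : Prop where
  x : 2 * X.y X.o = p + 1
  g1 : 1 ≤ gp X
  t1 : ∀ k, X.y k ≠ 0 → X.t k ^ p = 1 → X.t k = 1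
  dim : ∑ k ∈ Kp X, X.y k * (X.d k : ℤ) = gp X
  sq : ∑ k ∈ Kp X, X.y k ^ 2 = gp X * (gp X + 1)
  dvd : ∀ k ∈ Kp X, gp X ∣ ((Orb X k).card : ℤ) * X.y k
  y0 : ∀ j, ∑ l, X.s j l * (if X.y l ≠ 0 ∧ X.t l = 1 then (X.y l : ℂ) else 0) =
    (p : ℂ) * (if X.y j ≠ 0 ∧ X.t j = 1 then (X.y j : ℂ) else 0)
  fix : ∀ k ∈ Kp X, ∀ j, ∑ l, X.s j l * ((gp X : ℂ) * (if l ∈ Orb X k then 1 else 0) +
      ((Orb X k).card : ℂ) * X.y k * (if l = X.o then 1 else 0)) =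
    (p : ℂ) * ((gp X : ℂ) * (if j ∈ Orb X k then 1 else 0) +
      ((Orb X k).card : ℂ) * X.y k * (if j = X.o then 1 else 0))
  chi : ∀ k ∈ Kp X, ∀ j, X.t j ≠ 1 →
    (gp X : ℂ) * ∑ i ∈ Orb X k, X.chi j i = -(((Orb X k).card : ℂ) * X.y k)

open Classical in
/-- **PQS MODULE A2S.**  `s k l`, `k ∈ K'`, `l ∈ K0`, depends only on the orbits.
PROOF.  `r = r k`, `G l = g * [l ∈ Orb k] + r * y k * [l = o]`, `Y0 l = [l ∈ K0] y l`, `v l := -(y k / g) * Y0 l + (p / (r g)) * G l` for `l ∈ K0` (real).  (Fields `x`: `p = 2 g + 1`, `x = g + 1`.)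
(1) `S := ∑_{l ∈ K0} |s k l|^2 = (p / r) * (p - r y_k^2 / g)`.  Proof: `|s k l|^2 = s k l * conj (s k l) = s k l * s l (pi (-1) k)` (`conj_s`, `pi_s`, `s_symm`).  Put `j = pi (-1) k ∈ K0`.  Sum `weil` for `(w, k, j)` over all units `w` of `ZMod (p^2)`: for `y l ≠ 0`, `∑_w t l ^ w.val` is `p^2 - p` for `t l = 1` and `0` for
`t l ≠ 1` (field `t1`; `TWA_T`, as in `TIX_one`, file `Pool/Agent/Helper10/PQ0/M_TIX.lean`), and `s k l = 0` for `y l = 0` (`Blk.sup`); the right side is `p ∑_w s k (pi w⁻¹ j)` (`t k = t j = 1`).  So `(p^2 - p) S = p ∑_w s k (pi w k)` (reindex: `pi w⁻¹ (pi (-1) k) = pi (-w⁻¹) k`).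
`r * ∑_w s k (pi w k) = (p^2 - p) * ∑_{i ∈ Orb k} s k i`: for every `i ∈ Orb k`, `i = pi c k`, `∑_w s k (pi w i) = ∑_w s k (pi w k)` (reindex `w c`), so the left side is `∑_{i ∈ Orb k} ∑_w s k (pi w i) = ∑_w ∑_{i ∈ Orb k} s k (pi w i)`, and `pi w` is a bijection of `Orb k`; number of units: `p^2 - p`.
`fix k` at `j = k`: `g * ∑_{i ∈ Orb k} s k i + r y_k * y_k = p g`.  Together (1).
(2) `∑_{l ∈ K0} s k l * v l = -(y k / g) * p * y k + (p / (r g)) * p * g = S` (`y0`, `fix`; `G l = 0` for `l ∉ K0`).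
(3) `∑_{l ∈ K0} (v l)^2 = (y_k^2 / g^2) * p x - 2 (y_k / g) (p / (r g)) * (r y_k p) + (p / (r g))^2 * (g^2 r + r^2 y_k^2) = S`: `∑_{K0} y^2 = x^2 + g (g + 1) = p x` (`sq`, `x`), `∑ y l * G l = g r y_k + r y_k x = r y_k p` (`y = y k` on the orbit), `∑ (G l)^2 = g^2 r + r^2 y_k^2` (`o ∉ Orb k`).
(4) `∑_{l ∈ K0} |s k l - v l|^2 = S - 2 S + S = 0` (the conjugate of (2) is the same, `S` is real), so `s k l = v l`; multiply by `g r`. -/
def StA2S : Prop := ∀ (I : Type) [Fintype I] [DecidableEq I] (p : ℕ) (X : PD I p 2)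
  (Q : ℂ → Prop), Blk X Q → M1 X → Fct X → ∀ k ∈ Kp X, ∀ l, X.y l ≠ 0 → X.t l = 1 →
  (gp X : ℂ) * ((Orb X k).card : ℂ) * X.s k l = -(((Orb X k).card : ℂ) * X.y k * X.y l) +
    (p : ℂ) * ((gp X : ℂ) * (if l ∈ Orb X k then 1 else 0) +
      ((Orb X k).card : ℂ) * X.y k * (if l = X.o then 1 else 0))

open Classical in
/-- **PQS MODULE A2U.**  Sums over `E`.
PROOF.  Everything about `main_b`, `ga`, `E`, `Aw`, `Cw`, `Nw`, `neg_one_fix` is in `Pool/Agent/Helper78/PQ0/M_THF.lean` (namespace `Pool.Agent.Helper78.PQ0`), import it.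
(1) Let `F : I → ℂ` with `F (pi (ga r) j) = F j` for all `r`, `j`, and `m : ℤ` not divisible by `p`.  Then `∑_{j ∈ E} F j * t j ^ m = 0`: `E` is stable under `pi (ga r)`, `t (pi (ga r) j) = t j ^ (1 + p r)^2 = t j * (t j ^ p)^(2 r)` (`(1 + p r)^2 = 1 + 2 p r` in `ZMod (p^2)`), so for every `r`:
`∑_{j ∈ E} F j t j ^ m = ∑_{j ∈ E} F j t j ^ m (t j ^ p)^(2 r m)`; sum over `r = 0, ..., p - 1`: `∑_r ((t j ^ p)^(2 m))^r = 0`, because `(t j ^ p)^(2 m)` is a `p`-th root of unity different from `1` (`t j ^ p` is a primitive `p`-th root of unity, `p` odd).  `F = 1`, `m = 1`: second claim.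
(2) `main_b` for `k = o` (`Fx X X.o` as in `hTHF`) and `j ∈ E`: `Cw X j = p * Nw p * ((t j ^ 2)⁻¹ + t j ^ 2)`.  `Nw p = p` (the units which are `1` mod `p` are the `ga r`, `r = 0, ..., p - 1`).  In `Cw X j` the `l` with `y l ≠ 0`, `t l ^ p = t j ^ p` are in `E`, and `Aw X j l` is `p^2 - p` for `l = j` and `-p` for `l ≠ j`
(`TWA_T`; `t l ≠ t j` for `l ≠ j` by `uni`; `(t l / t j)^p = 1`).  So `p^2 s j j - p R j = p^2 ((t j ^ 2)⁻¹ + t j ^ 2)`, `R j = ∑_{l : y l ≠ 0, t l ^ p = t j ^ p} s l j`; `R (pi (ga r) j) = R j` (`t (pi (ga r) j) ^ p = t j ^ p`, `pi_s`, and `pi (ga r)` permutes these `l`).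
(3) `∑_{j ∈ E} (t j ^ 2)⁻¹ s j j = (1/p) ∑ t^(-2) R + ∑_{j ∈ E} t^(-4) + |E| = |E|` by (1).  `|E| = ∑_{j ∈ E} y_j^2 = p^2 - x^2 - g (g + 1) = p g` (`M1.sq`; `s_uni` for `i = j = o`: `∑ y^2 = p^2`; `sq`, `x`). -/
def StA2U : Prop := ∀ (I : Type) [Fintype I] [DecidableEq I] (p : ℕ) (X : PD I p 2)
  (Q : ℂ → Prop), Blk X Q → M1 X → Fct X →
  (∑ j, if X.y j ≠ 0 ∧ X.t j ≠ 1 then (X.t j ^ 2)⁻¹ * X.s j j else 0) = (p : ℂ) * gp X ∧
  (∑ j, if X.y j ≠ 0 ∧ X.t j ≠ 1 then X.t j else 0) = 0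

open Classical in
/-- **PQS MODULE A2T.**  The trace of `weil` for `w = 1`.
PROOF.  (1) `pi (-1) k = k` for all `k` with `y k ≠ 0`.  `t k ≠ 1`: `t (pi (-1) k) = t k` and `M1.uni` (`neg_one_fix` in `Pool/Agent/Helper78/PQ0/M_THF.lean`).  `t k = 1`, `k ≠ o`: for all `j`: `s j (pi (-1) k) = conj (s j k)` (`conj_s`); it is `s j k`: for `j ∈ K0`, `s j k` is real by A2S
(`j ≠ o`: formula; `j = o`: `y k`); for `j ∈ E`: `conj (s j k) = conj (s k j) = s k (pi (-1) j) = s k j` as `pi (-1) j = j`; for `y j = 0` both are `0` (`sup`, `pi_y`).  So the columns `k` and `pi (-1) k` of `s` are equal; `s_uni` (via `s_symm`) gives `k = pi (-1) k` (`p^2 ≠ 0`).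
(2) `weil` for `w = 1`, `i = j`, `y i ≠ 0`: `∑ l, t l * (s i l * s l i) = p * (t i ^ 2)⁻¹ * s i i` (`t i ^ (-1).val = (t i)⁻¹`, `pi 1 i = i`).  Sum over `i` with `y i ≠ 0`: the left side is `∑_{l : y l ≠ 0} t l * ∑_i s l i * s i l` (`sup`: `s i l = 0` if exactly one of `y i`, `y l` is `0`), and
`∑_i s l i * s i l = p^2` by `weil0` and (1).  So `p^2 (|K0| + ∑_E t) = p (∑_{i ∈ K0} s i i + ∑_{j ∈ E} (t j ^ 2)⁻¹ s j j)`, and by A2U `p^2 |K0| = p ∑_{K0} s i i + p * p g`.  `s o o = x`, `s k k = p / r k - y_k^2 / g` for `k ∈ K'` (A2S for `l = k`), so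
`∑_{K0} s i i = x + p ∑_{K'} 1 / r k - (g + 1) = p ∑_{K'} 1 / r k` (`sq`; `x = g + 1`).  `|K0| = |K'| + 1`. -/
def StA2T : Prop := StA2S → StA2U → ∀ (I : Type) [Fintype I] [DecidableEq I] (p : ℕ) (X : PD I p 2)
  (Q : ℂ → Prop), Blk X Q → M1 X → Fct X →
  ((Kp X).card : ℚ) + 1 = (∑ k ∈ Kp X, 1 / ((Orb X k).card : ℚ)) + gp X

/-- combinatorial data of the second case for `a = 2` -/
structure CA (I : Type) [DecidableEq I] (p : ℕ) where
  K : Finset I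
  y : I → ℤ
  d : I → ℕ
  O : I → Finset I
  g : ℤ
  u : I → ℤ
  prime : p.Prime
  g1 : 1 ≤ g
  pg : (p : ℤ) = 2 * g + 1
  y_ne : ∀ k ∈ K, y k ≠ 0
  sq : ∑ k ∈ K, y k ^ 2 = g * (g + 1)
  dim : ∑ k ∈ K, y k * (d k : ℤ) = g
  O_K : ∀ k ∈ K, O k ⊆ K
  O_self : ∀ k ∈ K, k ∈ O k
  O_y : ∀ k ∈ K, ∀ j ∈ O k, y j = y k ∧ d j = d k
  O_eq : ∀ k ∈ K, ∀ j ∈ O k, O j = O k
  O_g : ∀ k ∈ K, g ∣ ((O k).card : ℤ) * y k
  O_p : ∀ k ∈ K, (O k).card ∣ p * (p - 1)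
  diag : ∀ k ∈ K, g * ((O k).card : ℤ) * u k = p * g - ((O k).card : ℤ) * y k ^ 2
  off : ∀ k ∈ K, ∀ l ∈ K, l ∉ O k → g ∣ y k * y l
  cnt : (K.card : ℚ) + 1 = (∑ k ∈ K, 1 / ((O k).card : ℚ)) + g

/-- **PQS MODULE A2C.**  The combinatorics of the second case (pure).
PROOF.  `r k = |O k| ≥ 1`, `O k` are the classes of an equivalence relation on `K` (`O_self`, `O_eq`); all numbers below are integers.
(1) `M k := p - r k * u k`, so `g * M k = r k * y_k^2` (`diag`), `M k ≥ 1`.  `∑_{j ∈ O k} y_j^2 = r k y_k^2 ≤ g (g + 1)` so `M k ≤ g + 1 < p`.  `p ∤ r k`: otherwise `p ∣ M k`.  So `r k ∣ p - 1 = 2 g` (`O_p`), `M k = p - r k u k = 1 mod r k`, `gcd (M k) (r k) = 1`, and `r k ∣ g M k` gives `r k ∣ g`.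
(2) Let `l ∈ K`, `l ∉ O k`.  `g^2 M k M l = r k r l (y k y l)^2` and `g ∣ y k y l`, so `r k r l ∣ M k M l`, `r k ∣ M l` and `r l ∣ M k`, so `gcd (r k) (r l) = 1`.
(3) `cnt`: `∑_{k ∈ K} (1 - 1 / r k) = g - 1`; the sum over one class `O k` is `r k - 1`.  Suppose `k1, ..., kn` are representatives of the classes with `r ≥ 2`, `n ≥ 2`: their sizes are pairwise coprime divisors of `g`, so the product divides `g`, and `∑ (r - 1) < ∏ r - 1 ≤ g - 1`: false.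
It is enough to do the following: if `r k ≥ 2`, `l ∉ O k`, `r l ≥ 2`, then there is a contradiction.  (One way: prove by induction over unions `U` of classes, `U ⊆ K`: there is an integer `P ≥ 1` with `P ∣ g`, `∑_{k ∈ U} (1 - 1/r k) ≤ P - 1`, with strict inequality if two classes in `U` have size `≥ 2`, and `gcd P (r l) = 1` for `l ∈ K \ U`; step:
`P' = P * r`, `(P - 1) + (r - 1) ≤ P r - 1`, strict if `P ≥ 2`, `r ≥ 2`.)  If all `r k = 1` then `g = 1`.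
(4) Case `g = 1`: all `r k = 1` (divisors of `g`): `O k = {k}`, `∑ y^2 = 2`, so `K = {V, W}` with `|y V| = |y W| = 1` (`y ≠ 0`; one element would have `y^2 = 2`), and `dim`: `y V d V + y W d W = 1`: `gcd (d V) (d W) = 1`.  Case `g ≥ 2`: there is exactly one class `O W` with `r W ≥ 2`, and by `cnt` `r W - 1 = g - 1`, `r W = g`.  All other `V ∈ K` have `O V = {V}`,
`y V = g w V` (`O_g`).  `sq`: `g y_W^2 + g^2 ∑_V w_V^2 = g (g + 1)`, i.e. `y_W^2 + g ∑_V w_V^2 = g + 1`, `y_W^2 ≥ 1`: either there is exactly one `V`, `w_V^2 = 1`, `y_W^2 = 1`, and `dim`: `g y_W d_W + g w_V d_V = g`: `y_W d_W + w_V d_V = 1`, so `gcd (d V) (d W) = 1`; or there is no `V`, `K = O W`, `dim`: `y_W d_W = 1`, `d W = 1`. -/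
def StA2C : Prop := ∀ (I : Type) [DecidableEq I] (p : ℕ) (C : CA I p),
  (∃ k ∈ C.K, C.d k = 1) ∨
    ∃ V ∈ C.K, C.O V = {V} ∧ ∃ W ∈ C.K, W ≠ V ∧ Nat.Coprime (C.d V) (C.d W)

end Pool.Agent.Helper4.PQ0
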