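import Pool.Agent.Helper10.PQ0.M_TIX
import Pool.Agent.Helper4.PQ0.St2

/-!
# Project PQS (MP_2b6189_al), module TIY: the facts of the second case (the proof is that of TIX)
-/

set_option autoImplicit false

namespace Pool.Agent.Helper4.PQ0

open Matrix ComplexConjugate Pool.Agent.Helper94.YF Pool.Agent.Helper94.YG
open Pool.Agent.Helper89.OS hiding PD Cx Blk B0 Orb StXA StXB StXC StXE StCGR StISO StBLK StAMG StHEC StSTL StMZZ StDRE StTSU
open Pool.Agent.Helper89.OC hiding Ks gX OB Lk StORB StTS2 StLKD StTAN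
open Pool.Agent.Helper10.PQ0

theorem tiy (hRAT : StRAT) (I : Type) [Fintype I] [DecidableEq I] (p : ℕ) (X : PD I p 2)
    (Q : ℂ → Prop) (hB : Blk X Q) (hM : M1 X) (hH : ∀ k, X.y k ≠ 0 → X.t k ^ p = 1 → X.t k = 1) :
    Fct X := by
  classical
  obtain ⟨hdim, -, hdvd⟩ := hTIX hRAT I p X Q hB hM hH
  have hp : p.Prime := X.prime
  have hp0 : (p : ℂ) ≠ 0 := by exact_mod_cast hp.ne_zero
  have hp3 : 3 ≤ p := by
    have h2 := hp.two_le
    rcases h2.lt_or_eq with h | h
    · exact h
    · exfalso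
      have := X.p_odd
      rw [← h] at this
      exact absurd this (by decide)
  have hyo : X.y X.o ≠ 0 := by
    intro h
    apply hB.x_nd
    rw [h]
    exact dvd_zero _
  -- the value of `x`
  have hx : 2 * X.y X.o = (p : ℤ) + 1 := by
    obtain ⟨u, hu1, -, hu3⟩ := hM.u
    obtain ⟨η, hη⟩ : ∃ η : ℂ, IsPrimitiveRoot η p :=
      ⟨_, Complex.isPrimitiveRoot_exp p hp.ne_zero⟩
    have hη1 : η ≠ 1 := hη.ne_one hp.one_lt
    have h1 := hu1 η hη.pow_eq_one hη1
    have h2 : (∑ i, if X.t i = η then X.y i ^ 2 else 0) = 0 := by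
      apply Finset.sum_eq_zero
      intro i _
      split_ifs with h
      · have h3 : X.y i = 0 := by
          by_contra hy
          have := hH i hy (by rw [h]; exact hη.pow_eq_one)
          rw [h] at this
          exact hη1 this
        rw [h3]
        norm_num
      · rfl
    rw [h2] at h1
    rw [← h1] at hu3
    linarith
  have hg1 : 1 ≤ (p : ℤ) - X.y X.o := by
    have : (3 : ℤ) ≤ p := by exact_mod_cast hp3
    omega
  have hgC : (p : ℂ) - X.y X.o ≠ 0 := by
    have : (p : ℤ) - X.y X.o ≠ 0 := by omega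
    exact_mod_cast this
  have hK : ∀ k, k ∈ Kp X ↔ X.y k ≠ 0 ∧ X.t k = 1 ∧ k ≠ X.o := fun k => by simp [Kp]
  -- the masses
  have hsq1 : (∑ i, if X.t i = 1 then X.y i ^ 2 else 0) = p * X.y X.o := by
    obtain ⟨u, hu1, hu2, hu3⟩ := hM.u
    have : u = 0 := by linarith
    rw [hu2, this, zero_add]
  have hsq2 : ∑ k ∈ Kp X, X.y k ^ 2 = gp X * (gp X + 1) := by
    have h1 : ∀ i, (if X.t i = 1 then X.y i ^ 2 else 0) =
        (if i ∈ Kp X then X.y i ^ 2 else 0) + (if i = X.o then X.y X.o ^ 2 else 0) := by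
      intro i
      by_cases hi : i = X.o
      · rw [if_pos hi, if_neg (fun h => ((hK i).1 h).2.2 hi), hi, if_pos X.t_o, zero_add]
      · rw [if_neg hi, add_zero]
        by_cases ht : X.t i = 1
        · rw [if_pos ht]
          by_cases hy : X.y i = 0
          · rw [if_neg (fun h => ((hK i).1 h).1 hy), hy]; ring
          · rw [if_pos ((hK i).2 ⟨hy, ht, hi⟩)]
        · rw [if_neg ht, if_neg (fun h => ht ((hK i).1 h).2.1)]
    rw [Finset.sum_congr rfl fun i _ => h1 i, Finset.sum_add_distrib, Finset.sum_ite_mem,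
      Finset.univ_inter, Finset.sum_ite_eq' Finset.univ X.o (fun _ => X.y X.o ^ 2),
      if_pos (Finset.mem_univ _)] at hsq1
    have e1 : gp X = (p : ℤ) - X.y X.o := rfl
    have e2 : (p : ℤ) = 2 * X.y X.o - 1 := by linarith
    rw [e1, e2]
    rw [e2] at hsq1
    linear_combination hsq1
  have hdim2 : ∑ k ∈ Kp X, X.y k * (X.d k : ℤ) = gp X := by
    rw [← Finset.univ_inter (Kp X), ← Finset.sum_ite_mem]
    rw [show gp X = (p : ℤ) - X.y X.o from rfl, ← hdim]
    refine Finset.sum_congr rfl fun k _ => ?_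
    simp only [hK]
  -- the fixed vectors
  have hmainF : ∀ k0, X.y k0 ≠ 0 → X.t k0 = 1 → k0 ≠ X.o →
      (∀ j, ∑ l, X.s j l * (((p : ℂ) - X.y X.o) * (if l ∈ Orb X k0 then 1 else 0) +
        (((Orb X k0).card : ℂ) * X.y k0) * (if l = X.o then 1 else 0)) =
        (p : ℂ) * (((p : ℂ) - X.y X.o) * (if j ∈ Orb X k0 then 1 else 0) +
        (((Orb X k0).card : ℂ) * X.y k0) * (if j = X.o then 1 else 0))) ∧
      (∀ j, X.t j ≠ 1 → ((p : ℂ) - X.y X.o) * (∑ i ∈ Orb X k0, X.chi j i) =
        -(((Orb X k0).card : ℂ) * X.y k0)) := by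
    intro k0 hyk htk hko
    -- the element of `E`
    obtain ⟨j0, hj0, hj0t'⟩ := X.ex
    have hj0p : X.t j0 ^ p ≠ 1 := by
      intro h
      apply hj0t'
      rw [show p ^ (2 - 1) = p by rw [show 2 - 1 = 1 from rfl, pow_one]]
      exact h
    have hj0t : X.t j0 ≠ 1 := by
      intro h
      apply hj0p
      rw [h, one_pow]
    have hEp : ∀ k, X.y k ≠ 0 → X.t k ≠ 1 → X.t k ^ p ≠ 1 := fun k h1 h2 h3 => h2 (hH k h1 h3)
    have hEorb : ∀ k, X.y k ≠ 0 → X.t k ≠ 1 → ∃ c, X.pi c j0 = k :=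
      fun k h1 h2 => hM.orb j0 k hj0 hj0p h1 (hEp k h1 h2)
    -- the function `e` and its transform
    obtain ⟨e, he⟩ : ∃ e : I → ℂ, ∀ i, e i = if i = X.o then 1 else 0 := ⟨_, fun i => rfl⟩
    obtain ⟨T, hT⟩ : ∃ T : I → ℂ, ∀ i, T i = if i ∈ Orb X k0 then 1 else 0 := ⟨_, fun i => rfl⟩
    have hpio : ∀ c i, X.pi c i = X.o ↔ i = X.o := by
      intro c i
      constructor
      · intro h
        have h1 := congrArg (X.pi c⁻¹) h
        rwa [← X.pi_mul, inv_mul_cancel, X.pi_one, X.pi_o] at h1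
      · intro h
        rw [h, X.pi_o]
    have heinv : ∀ c i, e (X.pi c i) = e i := by
      intro c i
      rw [he, he]
      simp only [hpio]
    have hTinv : ∀ c i, T (X.pi c i) = T i := by
      intro c i
      rw [hT, hT]
      simp only [TIX_orbInv]
    have het : ∀ i, e i ≠ 0 → X.t i = 1 := by
      intro i hi
      rw [he] at hi
      have : i = X.o := by
        by_contra h
        rw [if_neg h] at hi
        exact hi rfl
      rw [this, X.t_o]
    have hTmem : ∀ i, T i ≠ 0 → i ∈ Orb X k0 := by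
      intro i hi
      rw [hT] at hi
      by_contra h
      rw [if_neg h] at hi
      exact hi rfl
    have hTt : ∀ i, T i ≠ 0 → X.t i = 1 := by
      intro i hi
      obtain ⟨c, hc⟩ := TIX_orbEx X k0 i (hTmem i hi)
      rw [← hc, X.pi_t, htk, one_pow]
    have hTy : ∀ i ∈ Orb X k0, X.y i = X.y k0 := by
      intro i hi
      obtain ⟨c, hc⟩ := TIX_orbEx X k0 i hi
      rw [← hc, X.pi_y]
    have hoT : X.o ∉ Orb X k0 := by
      intro h
      obtain ⟨c, hc⟩ := TIX_orbEx X k0 _ h
      exact hko ((hpio c k0).1 hc)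
    have hFe : ∀ i, ∑ k, X.s i k * e k = X.y i := by
      intro i
      have h1 : ∀ k ∈ (Finset.univ : Finset I), X.s i k * e k =
          if k = X.o then X.s i k else 0 := by
        intro k _
        rw [he]
        split_ifs <;> ring
      rw [Finset.sum_congr rfl h1, Finset.sum_ite_eq' Finset.univ X.o (fun k => X.s i k),
        if_pos (Finset.mem_univ _), X.s_o]
    obtain ⟨F, hF⟩ : ∃ F : I → ℂ, ∀ i, F i = ∑ k, X.s i k * T k := ⟨_, fun i => rfl⟩
    have hFT : ∀ i, F i = ∑ k ∈ Orb X k0, X.s i k := by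
      intro i
      rw [hF]
      have h1 : ∀ k ∈ (Finset.univ : Finset I), X.s i k * T k =
          if k ∈ Orb X k0 then X.s i k else 0 := by
        intro k _
        rw [hT]
        split_ifs <;> ring
      rw [Finset.sum_congr rfl h1, Finset.sum_ite_mem, Finset.univ_inter]
    have hFinv : ∀ c i, F (X.pi c i) = F i := by
      intro c i
      rw [hF, hF]
      exact TIX_inv X T hTinv c i
    have hF0 : ∀ i, X.y i = 0 → F i = 0 := by
      intro i hi
      rw [hFT]
      apply Finset.sum_eq_zero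
      intro k hk
      rw [X.s_symm]
      apply hB.sup k i _ hi
      rw [hTy k hk]
      exact hyk
    have hFo : F X.o = ((Orb X k0).card : ℂ) * X.y k0 := by
      rw [hFT]
      have h1 : ∀ k ∈ Orb X k0, X.s X.o k = (X.y k0 : ℂ) := by
        intro k hk
        rw [X.s_symm, X.s_o, hTy k hk]
      rw [Finset.sum_congr rfl h1, Finset.sum_const, nsmul_eq_mul]
    -- truncations
    obtain ⟨Y0, hY0⟩ : ∃ Y0 : I → ℂ, ∀ k, Y0 k =
        if X.y k ≠ 0 ∧ X.t k = 1 then (X.y k : ℂ) else 0 := ⟨_, fun i => rfl⟩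
    obtain ⟨F0, hF0'⟩ : ∃ F0 : I → ℂ, ∀ k, F0 k =
        if X.y k ≠ 0 ∧ X.t k = 1 then F k else 0 := ⟨_, fun i => rfl⟩
    have hSY : ∀ i, ∑ k, X.s i k * Y0 k = (p : ℂ) * Y0 i := by
      intro i
      have h1 := TIX_one X hB hH e heinv het i
      simp only [hFe] at h1
      simp only [hY0]
      exact h1
    have hSF : ∀ i, ∑ k, X.s i k * F0 k = (p : ℂ) * F0 i := by
      intro i
      have h1 := TIX_one X hB hH T hTinv hTt i
      simp only [← hF] at h1
      simp only [hF0']
      exact h1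
    -- the constants
    obtain ⟨W, hW⟩ : ∃ W : I → ℂ, ∀ i, W i =
        ∑ k, X.s i k * (if X.y k ≠ 0 ∧ X.t k ≠ 1 then 1 else 0) := ⟨_, fun i => rfl⟩
    have hyE : ∀ k, (X.y k : ℂ) = Y0 k +
        (X.y j0 : ℂ) * (if X.y k ≠ 0 ∧ X.t k ≠ 1 then 1 else 0) := by
      intro k
      rw [hY0]
      by_cases h1 : X.y k = 0
      · rw [if_neg (fun h => h.1 h1), if_neg (fun h => h.1 h1), h1]
        simp
      · by_cases h2 : X.t k = 1
        · rw [if_pos ⟨h1, h2⟩, if_neg (fun h => h.2 h2)]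
          ring
        · rw [if_neg (fun h => h2 h.2), if_pos ⟨h1, h2⟩]
          obtain ⟨c, hc⟩ := hEorb k h1 h2
          rw [← hc, X.pi_y]
          ring
    have hFE : ∀ k, F k = F0 k +
        F j0 * (if X.y k ≠ 0 ∧ X.t k ≠ 1 then 1 else 0) := by
      intro k
      rw [hF0']
      by_cases h1 : X.y k = 0
      · rw [if_neg (fun h => h.1 h1), if_neg (fun h => h.1 h1), hF0 k h1]
        simp
      · by_cases h2 : X.t k = 1
        · rw [if_pos ⟨h1, h2⟩, if_neg (fun h => h.2 h2)]
          ring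
        · rw [if_neg (fun h => h2 h.2), if_pos ⟨h1, h2⟩]
          obtain ⟨c, hc⟩ := hEorb k h1 h2
          rw [← hc, hFinv]
          ring
    have hsqe : ∀ i, (p : ℂ) * Y0 i + (X.y j0 : ℂ) * W i = (p : ℂ) ^ 2 * e i := by
      intro i
      have h1 := TIX_sq X e heinv i
      simp only [hFe] at h1
      rw [← h1, ← hSY, hW, Finset.mul_sum, ← Finset.sum_add_distrib]
      refine Finset.sum_congr rfl fun k _ => ?_
      rw [hyE k]
      ring
    have hsqT : ∀ i, (p : ℂ) * F0 i + F j0 * W i = (p : ℂ) ^ 2 * T i := by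
      intro i
      have h1 := TIX_sq X T hTinv i
      simp only [← hF] at h1
      rw [← h1, ← hSF, hW, Finset.mul_sum, ← Finset.sum_add_distrib]
      refine Finset.sum_congr rfl fun k _ => ?_
      rw [hFE k]
      ring
    have hε : (X.y j0 : ℂ) ^ 2 = 1 := by
      have := hM.sq j0 hj0 hj0p
      exact_mod_cast this
    have hmain : ∀ i, (X.y j0 : ℂ) * ((p : ℂ) * F0 i) + F j0 * ((p : ℂ) ^ 2 * e i -
        (p : ℂ) * Y0 i) = (X.y j0 : ℂ) * ((p : ℂ) ^ 2 * T i) := by
      intro i
      have h1 := hsqe i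
      have h2 := hsqT i
      linear_combination (X.y j0 : ℂ) * h2 - F j0 * h1
    -- the value at `o`
    have hφ : F j0 * ((p : ℂ) - X.y X.o) = -((X.y j0 : ℂ) * (((Orb X k0).card : ℂ) * X.y k0)) := by
      have h1 := hmain X.o
      rw [he, if_pos rfl, hT, if_neg hoT, hF0', if_pos ⟨hyo, X.t_o⟩, hFo, hY0,
        if_pos ⟨hyo, X.t_o⟩] at h1
      apply mul_left_cancel₀ hp0
      linear_combination h1
    -- the vector `G`
    obtain ⟨G, hG⟩ : ∃ G : I → ℂ, ∀ i, G i = ((p : ℂ) - X.y X.o) * T i +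
        (((Orb X k0).card : ℂ) * X.y k0) * e i := ⟨_, fun i => rfl⟩
    have hpG : ∀ i, (p : ℂ) * G i = ((p : ℂ) - X.y X.o) * F0 i +
        (((Orb X k0).card : ℂ) * X.y k0) * Y0 i := by
      intro i
      have h1 := hmain i
      apply mul_left_cancel₀ hp0
      rw [hG]
      linear_combination (-(X.y j0 : ℂ) * ((p : ℂ) - X.y X.o)) * h1 +
        ((X.y j0 : ℂ) * ((p : ℂ) ^ 2 * e i - (p : ℂ) * Y0 i)) * hφ +
        (-((p : ℂ) ^ 2 * T i) * ((p : ℂ) - X.y X.o) +
          ((p : ℂ) * F0 i) * ((p : ℂ) - X.y X.o) -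
          (((Orb X k0).card : ℂ) * X.y k0) * ((p : ℂ) ^ 2 * e i - (p : ℂ) * Y0 i)) * hε
    have hSG : ∀ i, ∑ k, X.s i k * G k = (p : ℂ) * G i := by
      intro i
      apply mul_left_cancel₀ hp0
      have h1 : (p : ℂ) * ∑ k, X.s i k * G k = ((p : ℂ) - X.y X.o) * ∑ k, X.s i k * F0 k +
          (((Orb X k0).card : ℂ) * X.y k0) * ∑ k, X.s i k * Y0 k := by
        rw [Finset.mul_sum, Finset.mul_sum, Finset.mul_sum, ← Finset.sum_add_distrib]
        refine Finset.sum_congr rfl fun k _ => ?_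
        linear_combination X.s i k * hpG k
      rw [h1, hSF, hSY, hpG]
      ring
    have hGt : ∀ k, G k ≠ 0 → X.t k = 1 := by
      intro k hk
      by_cases h1 : e k = 0
      · by_cases h2 : T k = 0
        · exfalso
          apply hk
          rw [hG, h1, h2]
          ring
        · exact hTt k h2
      · exact het k h1
    have hchi : ∀ j, ∑ k, G k * X.chi j k = ((p : ℂ) - X.y X.o) *
        (∑ i ∈ Orb X k0, X.chi j i) + ((Orb X k0).card : ℂ) * X.y k0 := by
      intro j
      have h1 : ∀ k ∈ (Finset.univ : Finset I), G k * X.chi j k =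
          ((p : ℂ) - X.y X.o) * (if k ∈ Orb X k0 then X.chi j k else 0) +
          (if k = X.o then X.chi j k * (((Orb X k0).card : ℂ) * X.y k0) else 0) := by
        intro k _
        rw [hG, he, hT]
        split_ifs <;> ring
      rw [Finset.sum_congr rfl h1, Finset.sum_add_distrib, ← Finset.mul_sum,
        Finset.sum_ite_eq' Finset.univ X.o
          (fun k => X.chi j k * (((Orb X k0).card : ℂ) * X.y k0)),
        if_pos (Finset.mem_univ _), X.chi_o, one_mul, Finset.sum_ite_mem, Finset.univ_inter]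
    refine ⟨?_, ?_⟩
    · intro j
      have h1 := hSG j
      simp only [hG, he, hT] at h1
      exact h1
    · intro j hj
      have h1 := X.tor G hSG hGt j hj
      rw [hchi] at h1
      linear_combination h1
  have hgc : (gp X : ℂ) = (p : ℂ) - X.y X.o := by
    rw [show gp X = (p : ℤ) - X.y X.o from rfl]; push_cast; rfl
  refine ⟨hx, hg1, hH, hdim2, hsq2, ?_, ?_, ?_, ?_⟩
  · intro k hk
    obtain ⟨h1, h2, h3⟩ := (hK k).1 hk
    exact hdvd k h1 h2 h3
  · intro j
    have heinv : ∀ (c : (ZMod (p ^ 2))ˣ) (i : I),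
        (if X.pi c i = X.o then (1 : ℂ) else 0) = if i = X.o then 1 else 0 := by
      intro c i
      have : X.pi c i = X.o ↔ i = X.o := by
        constructor
        · intro h
          have h1 := congrArg (X.pi c⁻¹) h
          rwa [← X.pi_mul, inv_mul_cancel, X.pi_one, X.pi_o] at h1
        · intro h
          rw [h, X.pi_o]
      simp only [this]
    have h1 := TIX_one X hB hH (fun i => if i = X.o then (1 : ℂ) else 0) heinv
      (fun i hi => by
        by_cases h : i = X.o
        · rw [h, X.t_o]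
        · exact absurd (if_neg h) hi) j
    have hFe : ∀ i, (∑ k, X.s i k * (if k = X.o then (1 : ℂ) else 0)) = X.y i := by
      intro i
      have h1 : ∀ k ∈ (Finset.univ : Finset I), X.s i k * (if k = X.o then (1 : ℂ) else 0) =
          if k = X.o then X.s i k else 0 := by
        intro k _
        split_ifs <;> ring
      rw [Finset.sum_congr rfl h1, Finset.sum_ite_eq' Finset.univ X.o (fun k => X.s i k),
        if_pos (Finset.mem_univ _), X.s_o]
    simp only [hFe] at h1
    exact h1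
  · intro k hk j
    obtain ⟨h1, h2, h3⟩ := (hK k).1 hk
    rw [hgc]
    exact (hmainF k h1 h2 h3).1 j
  · intro k hk j hj
    obtain ⟨h1, h2, h3⟩ := (hK k).1 hk
    rw [hgc]
    exact (hmainF k h1 h2 h3).2 j hj

end Pool.Agent.Helper4.PQ0
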