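import Pool.Agent.Helper4.PQ0.All
import Pool.Agent.Helper4.PQ0.M_TIY
import Pool.Agent.Helper89.MG.Cop

/-! # MP_2b6189_al, any parity: `p ^ 2 ∣ L` is impossible for ghosts -/

set_option autoImplicit false

namespace Pool.Agent.Helper4.PQ0

open Matrix ComplexConjugate Pool.Agent.Helper94.YF Pool.Agent.Helper94.YG
open Pool.Agent.Helper89.OS hiding PD Cx Blk B0 Orb StXA StXB StXC StXE StCGR StISO StBLK StAMG StHEC StSTL StMZZ StDRE StTSU
open Pool.Agent.Helper89.OC hiding Ks gX OB Lk StORB StTS2 StLKD StTAN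

section

variable {I : Type} [Fintype I] [DecidableEq I]

theorem card_Orb_dvd {p a : ℕ} [NeZero (p ^ a)] (X : PD I p a) (k : I) :
    (Orb X k).card ∣ Fintype.card (ZMod (p ^ a))ˣ := by
  classical
  letI : MulAction (ZMod (p ^ a))ˣ I :=
    { smul := fun c i => X.pi c i
      one_smul := X.pi_one
      mul_smul := fun c c' i => X.pi_mul c c' i }
  have h1 := MulAction.card_orbit_mul_card_stabilizer_eq_card_group (ZMod (p ^ a))ˣ k
  have h2 : Fintype.card (MulAction.orbit (ZMod (p ^ a))ˣ k) = (Orb X k).card := by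
    rw [← Set.toFinset_card]
    congr 1
    ext j
    rw [Set.mem_toFinset, mem_Orb]
    rfl
  rw [← h1, h2]
  exact Dvd.intro _ rfl

/-- The objects of the principal block with trivial twist have trivial `p`-part; no ghost has an invertible one. -/
theorem d_ne_one {p a : ℕ} (Z : CentreData I) (b : ZMod Z.L) (X : PD I p a)
    (hno : ¬ ∃ D : I → Prop, TanSet Z D) (ho : X.o = Z.o) (hd : X.d = Z.d) (hth : X.th = Z.th)
    {k : I} (hk : k ∈ Kp X) : X.d k ≠ 1 := by
  classical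
  have hK : k ∈ Kp X ↔ X.y k ≠ 0 ∧ X.t k = 1 ∧ k ≠ X.o := by simp [Kp]
  obtain ⟨h1, h2, h3⟩ := hK.1 hk
  intro h
  exact hno (Pool.Agent.Helper89.MG.boson Z k (by rwa [← ho]) (by rw [← hd]; exact h)
    (by rw [← hth]; exact X.th_of k h1 h2))

/-- A torus-fixed object with a fixed vector and a second object of the principal block: `p < 2 gcd`. -/
theorem pr2 {p a m : ℕ} (Z : CentreData I) (b : ZMod Z.L) (X : PD I p a) (Q : ℂ → Prop)
    (hno : ¬ ∃ D : I → Prop, TanSet Z D) (hn : Z.n = p * m) (hI : Idp Z.L p a b)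
    (ho : X.o = Z.o) (hd : X.d = Z.d) (ht : X.t = Z.tw b)
    (hs : X.s = fun i k => (p : ℂ) * Z.rho (s2 b) i k)
    (hz : ∀ i, (X.z i : ℂ) = (m : ℂ) * Z.rho (s2 (1 - b)) i Z.o) (hB : Blk X Q)
    {V W : I} (hV : V ∈ Kp X) (hW : W ∈ Kp X) (hWV : W ≠ V) (w : ℤ)
    (hw : X.y V = gp X * w) (hg : gp X ≠ 0)
    (hfix : ∀ j, (gp X : ℂ) * X.s j V + (X.y V : ℂ) * X.y j =
      (p : ℂ) * ((gp X : ℂ) * (if j = V then 1 else 0) +
        (X.y V : ℂ) * (if j = X.o then 1 else 0))) :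
    p < 2 * Nat.gcd (X.d V) (X.d W) := by
  classical
  have hKm : ∀ k, k ∈ Kp X ↔ X.y k ≠ 0 ∧ X.t k = 1 ∧ k ≠ X.o := fun k => by simp [Kp]
  have hp := X.prime
  have hp0 : (p : ℂ) ≠ 0 := by exact_mod_cast hp.ne_zero
  have hgC : (gp X : ℂ) ≠ 0 := by exact_mod_cast hg
  obtain ⟨v1, v2, v3⟩ := (hKm V).1 hV
  obtain ⟨w1, w2, w3⟩ := (hKm W).1 hW
  have hyo : X.y X.o ≠ 0 := by
    intro h
    apply hB.x_nd
    rw [h]
    exact dvd_zero _
  have hy : ∀ i, (X.y i : ℂ) = (p : ℂ) * Z.rho (s2 b) i Z.o := by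
    intro i
    rw [← X.s_o, hs, ho]
  have hrho : ∀ i, X.y i ≠ 0 → Z.rho (s2 b) i Z.o ≠ 0 := by
    intro i hi h
    apply hi
    have h1 := hy i
    rw [h, mul_zero] at h1
    exact_mod_cast h1
  have hF : Pool.Agent.Helper89.MG.Fix Z b V w := by
    intro i
    have h1 := hfix i
    rw [hw] at h1
    push_cast at h1
    rw [hs, hy, ho] at h1
    apply mul_left_cancel₀ (mul_ne_zero hgC hp0)
    linear_combination h1
  have hw0 : w ≠ 0 := by
    rintro rfl
    rw [mul_zero] at hw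
    exact v1 hw
  by_contra hcon
  have hle : 2 * Nat.gcd (Z.d V) (Z.d W) < p := by
    rw [hd] at hcon
    have h1 : 2 * Nat.gcd (Z.d V) (Z.d W) ≤ p := not_lt.1 hcon
    rcases h1.lt_or_eq with h2 | h2
    · exact h2
    · exfalso
      obtain ⟨k, hk⟩ := X.p_odd
      omega
  have hcen := Pool.Agent.Helper89.MG.gcd_cen Z b hI.idem p m hp hn X.z hz V w hF W
    (by rw [← hd]; exact hB.d_nd V v1) (by rw [← hd]; exact hB.d_nd W w1) hle
  exact Pool.Agent.Helper89.MG.fix_end Z p a b hI X.p_odd hno V W w hw0 hF (by rwa [← ho])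
    (by rwa [← ho]) hWV (by rw [← ht]; exact v2) (by rw [← ht]; exact w2)
    (by rw [← ho] at hrho ⊢; exact hrho _ hyo) (hrho V v1) (hrho W w1) hcen

open Classical in
/-- the combinatorial data of the second case -/
theorem exCA (hA2S : StA2S) (hA2U : StA2U) (hA2T : StA2T) {p : ℕ} (X : PD I p 2) (Q : ℂ → Prop)
    (hB : Blk X Q) (hM : M1 X) (hF : Fct X) :
    ∃ C : CA I p, C.K = Kp X ∧ C.y = X.y ∧ C.d = X.d ∧ C.O = Orb X ∧ C.g = gp X := by
  have hKm : ∀ k, k ∈ Kp X ↔ X.y k ≠ 0 ∧ X.t k = 1 ∧ k ≠ X.o := fun k => by simp [Kp]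
  have hp := X.prime
  have hrb := hRAT'.2
  have hg0 : gp X ≠ 0 := by have := hF.g1; omega
  have hgQ : (gp X : ℚ) ≠ 0 := by exact_mod_cast hg0
  have hgC : (gp X : ℂ) ≠ 0 := by exact_mod_cast hg0
  have hcard : ∀ k, ((Orb X k).card : ℂ) ≠ 0 := by
    intro k
    have : (Orb X k).card ≠ 0 := (Finset.card_pos.2 ⟨k, Orb_self X k⟩).ne'
    exact_mod_cast this
  have hS := hA2S I p X Q hB hM hF
  have hdiag : ∀ k, ∃ u : ℤ, k ∈ Kp X → gp X * ((Orb X k).card : ℤ) * u =
      p * gp X - ((Orb X k).card : ℤ) * X.y k ^ 2 := by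
    intro k
    by_cases hk : k ∈ Kp X
    · obtain ⟨k1, k2, k3⟩ := (hKm k).1 hk
      have h1 := hS k hk k k1 k2
      rw [if_pos (Orb_self X k), if_neg k3] at h1
      have hq : ((((p : ℚ) * gp X - (Orb X k).card * X.y k ^ 2) / (gp X * (Orb X k).card) : ℚ)
          : ℂ) = X.s k k := by
        push_cast
        rw [div_eq_iff (mul_ne_zero hgC (hcard k))]
        linear_combination -h1
      obtain ⟨u, hu⟩ := hrb _ (hq ▸ X.s_int k k)
      refine ⟨u, fun _ => ?_⟩
      have hc' : ((Orb X k).card : ℚ) ≠ 0 := by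
        have : (Orb X k).card ≠ 0 := (Finset.card_pos.2 ⟨k, Orb_self X k⟩).ne'
        exact_mod_cast this
      rw [eq_div_iff (mul_ne_zero hgQ hc')] at hu
      have h3 : ((gp X * ((Orb X k).card : ℤ) * u : ℤ) : ℚ) =
          ((p * gp X - ((Orb X k).card : ℤ) * X.y k ^ 2 : ℤ) : ℚ) := by
        push_cast
        linear_combination hu
      exact_mod_cast h3
    · exact ⟨0, fun h => absurd h hk⟩
  choose u hu using hdiag
  have hoff : ∀ k ∈ Kp X, ∀ l ∈ Kp X, l ∉ Orb X k → gp X ∣ X.y k * X.y l := by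
    intro k hk l hl hkl
    obtain ⟨l1, l2, l3⟩ := (hKm l).1 hl
    have h1 := hS k hk l l1 l2
    rw [if_neg hkl, if_neg l3] at h1
    have hq : (((-((X.y k : ℚ) * X.y l)) / gp X : ℚ) : ℂ) = X.s k l := by
      push_cast
      rw [div_eq_iff hgC]
      apply mul_left_cancel₀ (hcard k)
      linear_combination -h1
    obtain ⟨v, hv⟩ := hrb _ (hq ▸ X.s_int k l)
    rw [eq_div_iff hgQ] at hv
    refine ⟨-v, ?_⟩
    have h3 : ((X.y k * X.y l : ℤ) : ℚ) = ((gp X * -v : ℤ) : ℚ) := by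
      push_cast
      linear_combination hv
    exact_mod_cast h3
  have : NeZero (p ^ 2) := ⟨pow_ne_zero _ hp.ne_zero⟩
  have hu2 : Fintype.card (ZMod (p ^ 2))ˣ = p * (p - 1) := by
    rw [ZMod.card_units_eq_totient, Nat.totient_prime_pow hp (by norm_num)]
    norm_num
  refine ⟨⟨Kp X, X.y, X.d, Orb X, gp X, u, hp, hF.g1, ?_, fun k hk => ((hKm k).1 hk).1, hF.sq,
    hF.dim, ?_, fun k _ => Orb_self X k, fun k _ j hj => Orb_y X hj, fun k _ j hj => Orb_eq X hj,
    hF.dvd, fun k _ => hu2 ▸ card_Orb_dvd X k, fun k hk => hu k hk, hoff,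
    hA2T hA2S hA2U I p X Q hB hM hF⟩, rfl, rfl, rfl, rfl, rfl⟩
  · have h1 := hF.x
    unfold gp
    linarith
  · intro k hk j hj
    obtain ⟨k1, k2, k3⟩ := (hKm k).1 hk
    exact (hKm j).2 ⟨by rw [(Orb_y X hj).1]; exact k1, Orb_t X hj k2, Orb_o X hj k3⟩

/-- **`a = 1` for ghosts.** -/
theorem a_one (hA2S : StA2S) (hA2U : StA2U) (hA2T : StA2T) (hA2C : StA2C) (Z : CentreData I)
    {p a m : ℕ} (b : ZMod Z.L) (X : PD I p a) (Q : ℂ → Prop)
    (hno : ¬ ∃ D : I → Prop, TanSet Z D) (hn : Z.n = p * m) (hI : Idp Z.L p a b)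
    (ho : X.o = Z.o) (hd : X.d = Z.d) (hth : X.th = Z.th) (ht : X.t = Z.tw b)
    (hs : X.s = fun i k => (p : ℂ) * Z.rho (s2 b) i k)
    (hz : ∀ i, (X.z i : ℂ) = (m : ℂ) * Z.rho (s2 (1 - b)) i Z.o) (hx : ¬ (p : ℤ) ∣ X.y X.o)
    (hB : Blk X Q) : a = 1 := by
  classical
  by_contra ha1
  have ha : 2 ≤ a := by
    have := X.a_pos
    omega
  obtain rfl := Helper36.PQ0.hTWC I p a X ha
  rcases Helper25.PQ0.hTWD I p X hx with ⟨h1, h2, h3, h4⟩ | hM
  · obtain ⟨k, h5, h6, h7, h8⟩ := TWE.hTWE AMG.hAMG hRAT' I p X Q hB h1 h2 h3 h4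
    exact hno (Pool.Agent.Helper89.MG.boson Z k (by rwa [← ho]) (by rw [← hd]; exact h7)
      (by rw [← hth]; exact h8))
  · have hF := tiy hRAT' I p X Q hB hM (Helper78.PQ0.hTHF I p X Q hB hM)
    obtain ⟨C, c1, c2, c3, c4, c5⟩ := exCA hA2S hA2U hA2T X Q hB hM hF
    rcases hA2C I p C with ⟨k, hk, hk1⟩ | ⟨V, hV, hOV, W, hW, hWV, hco⟩
    · rw [c1] at hk
      rw [c3] at hk1
      exact d_ne_one Z b X hno ho hd hth hk hk1
    · rw [c1] at hV hW
      rw [c3] at hco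
      rw [c4] at hOV
      have hg0 : gp X ≠ 0 := by have := hF.g1; omega
      obtain ⟨w, hw⟩ := hF.dvd V hV
      rw [hOV, Finset.card_singleton, Nat.cast_one, one_mul] at hw
      have h1 := pr2 Z b X Q hno hn hI ho hd ht hs hz hB hV hW hWV w hw hg0 (by
        intro j
        have h2 := hF.fix V hV j
        rw [hOV, Finset.card_singleton, Nat.cast_one, one_mul] at h2
        have h3 : ∑ l, X.s j l * ((gp X : ℂ) * (if l ∈ ({V} : Finset I) then 1 else 0) +
            (X.y V : ℂ) * (if l = X.o then 1 else 0)) =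
            (gp X : ℂ) * X.s j V + (X.y V : ℂ) * X.y j := by
          have e1 : ∀ l, X.s j l * ((gp X : ℂ) * (if l ∈ ({V} : Finset I) then 1 else 0) +
              (X.y V : ℂ) * (if l = X.o then 1 else 0)) =
              (if l = V then (gp X : ℂ) * X.s j l else 0) +
              (if l = X.o then (X.y V : ℂ) * X.s j l else 0) := by
            intro l
            simp only [Finset.mem_singleton]
            split_ifs <;> ring
          rw [Finset.sum_congr rfl fun l _ => e1 l, Finset.sum_add_distrib,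
            Finset.sum_ite_eq' Finset.univ V, Finset.sum_ite_eq' Finset.univ X.o,
            if_pos (Finset.mem_univ _), if_pos (Finset.mem_univ _), X.s_o]
        rw [h3] at h2
        rw [h2]
        simp only [Finset.mem_singleton])
      rw [hco.gcd_eq_one] at h1
      have h2 := X.prime.two_le
      obtain ⟨k, hk⟩ := X.p_odd
      omega

end

end Pool.Agent.Helper4.PQ0
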