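import Pool.Agent.Helper4.PQ0.Asm1
import Pool.Agent.Helper47.PQ0.M_X0
import Pool.Agent.Helper45.PQ0.M_END
import Pool.Agent.Helper7.PQ0.M_CDO
import Pool.Agent.Helper36.PQ0.M_TWC
import Pool.Agent.Helper25.PQ0.M_TWD
import Pool.Agent.Helper78.PQ0.M_THF
import Pool.Agent.Helper10.PQ0.M_TIX
import Pool.Agent.Helper94.AL.Even

/-! # Project PQS (MP_2b6189_al): the theorem

If a prime `p` divides `n` exactly once and `n / p` has at most two prime divisors then there is a nontrivial Tannakian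
subset (any parity of `n`). -/

set_option autoImplicit false

namespace Pool.Agent.Helper4.PQ0

open Pool.Agent.Helper94.YF Pool.Agent.Helper94.YG Pool.Agent.Helper89.OC

theorem pqs (I : Type) [Fintype I] [DecidableEq I] (Z : CentreData I) (p m : ℕ) (hp : p.Prime)
    (hn : Z.n = p * m) (hpm : ¬ p ∣ m) (q s : ℕ)
    (hm : ∀ l : ℕ, l.Prime → l ∣ m → l = q ∨ l = s) : ∃ D : I → Prop, TanSet Z D := by
  by_cases hp2 : p = 2
  · subst hp2
    exact Pool.Agent.Helper94.AL.even_tan I Z m hn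
      (Nat.odd_iff.2 (by omega))
  · exact oddPrime Helper47.PQ0.hX0 Helper45.PQ0.hEND Helper7.PQ0.hCDO Helper36.PQ0.hTWC
      Helper25.PQ0.hTWD Helper78.PQ0.hTHF Helper10.PQ0.hTIX I Z p m hp hp2 hn hpm q s hm

end Pool.Agent.Helper4.PQ0

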