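import Pool.Agent.Helper4.PQ0.Defs

/-! # Project OS (MP_2b6189_al): module XC, the torus -/

set_option autoImplicit false

namespace Pool.Agent.Helper4.PQ0.XC

open Pool.Agent.Helper4.PQ0
open Pool.Agent.Helper89.OS hiding PD Cx Blk B0 Orb StXA StXB StXC StXE StCGR StISO StBLK StAMG StHEC StSTL StMZZ StDRE StTSU
open Pool.Agent.Helper89.OC hiding Ks gX OB Lk StORB StTS2 StLKD StTAN

open Matrix ComplexConjugate Pool.Agent.Helper94.YF Pool.Agent.Helper94.YG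

private lemma mulL {I : Type} [Fintype I] [DecidableEq I] (Z : CentreData I)
    (Pi : (ZMod Z.L)ˣ → I → I)
    (prm : ∀ c i k, Z.rho (Dg c) i k = if k = Pi c i then 1 else 0)
    (c : (ZMod Z.L)ˣ) (M : Matrix I I ℂ) (i k : I) :
    (Z.rho (Dg c) * M) i k = M (Pi c i) k := by
  rw [Matrix.mul_apply]
  rw [Finset.sum_eq_single (Pi c i)]
  · rw [prm, if_pos rfl, one_mul]
  · intro l _ hl
    rw [prm, if_neg hl, zero_mul]
  · intro h; exact absurd (Finset.mem_univ _) h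

private lemma piMul {I : Type} [Fintype I] [DecidableEq I] (Z : CentreData I)
    (Pi : (ZMod Z.L)ˣ → I → I)
    (prm : ∀ c i k, Z.rho (Dg c) i k = if k = Pi c i then 1 else 0)
    (g12 : ∀ c c' : (ZMod Z.L)ˣ, (Dg (c * c') : SL Z.L) = Dg c * Dg c')
    (c c' : (ZMod Z.L)ˣ) (i : I) : Pi (c * c') i = Pi c' (Pi c i) := by
  have h : Z.rho (Dg (c * c')) i (Pi (c * c') i) = (Z.rho (Dg c) * Z.rho (Dg c')) i (Pi (c * c') i) := by
    rw [g12, map_mul]
  rw [mulL Z Pi prm, prm, if_pos rfl, prm] at h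
  by_contra hne
  rw [if_neg hne] at h
  exact one_ne_zero h

private lemma piOne {I : Type} [Fintype I] [DecidableEq I] (Z : CentreData I)
    (Pi : (ZMod Z.L)ˣ → I → I)
    (prm : ∀ c i k, Z.rho (Dg c) i k = if k = Pi c i then 1 else 0)
    (g13 : (Dg (1 : (ZMod Z.L)ˣ) : SL Z.L) = 1) (i : I) : Pi 1 i = i := by
  have h : Z.rho (Dg 1) i i = (1 : Matrix I I ℂ) i i := by
    rw [g13, map_one]
  rw [prm, Matrix.one_apply_eq] at h
  by_contra hne
  rw [if_neg (fun h' => hne h'.symm)] at h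
  exact zero_ne_one h

private lemma mulR {I : Type} [Fintype I] [DecidableEq I] (Z : CentreData I)
    (Pi : (ZMod Z.L)ˣ → I → I)
    (prm : ∀ c i k, Z.rho (Dg c) i k = if k = Pi c i then 1 else 0)
    (c c' : (ZMod Z.L)ˣ) (h1 : ∀ i, Pi c (Pi c' i) = i) (h2 : ∀ i, Pi c' (Pi c i) = i)
    (M : Matrix I I ℂ) (i k : I) :
    (M * Z.rho (Dg c)) i k = M i (Pi c' k) := by
  rw [Matrix.mul_apply]
  rw [Finset.sum_eq_single (Pi c' k)]
  · rw [prm, h1, if_pos rfl, mul_one]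
  · intro l _ hl
    rw [prm, if_neg, mul_zero]
    intro h
    apply hl
    rw [h, h2]
  · intro h; exact absurd (Finset.mem_univ _) h

private lemma rhoInv {I : Type} [Fintype I] [DecidableEq I] (Z : CentreData I) (g : SL Z.L) (i k : I) :
    conj (Z.rho g i k) = Z.rho g⁻¹ k i := by
  have h1 := Z.unitary g
  have h2 : Z.rho g⁻¹ * Z.rho g = 1 := by
    rw [← map_mul, inv_mul_cancel, map_one]
  have h3 : Z.rho g * Z.rho g⁻¹ = 1 := by
    rw [← map_mul, mul_inv_cancel, map_one]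
  have h4 : (Z.rho g)ᴴ = Z.rho g⁻¹ := by
    calc (Z.rho g)ᴴ = (Z.rho g)ᴴ * (Z.rho g * Z.rho g⁻¹) := by rw [h3, mul_one]
      _ = ((Z.rho g)ᴴ * Z.rho g) * Z.rho g⁻¹ := by rw [mul_assoc]
      _ = Z.rho g⁻¹ := by rw [h1, one_mul]
  rw [← h4, Matrix.conjTranspose_apply]
  rfl

private lemma valMod {L P : ℕ} (b : ZMod L) (hP : (P : ZMod L) * b = 0) (k : ℕ) :
    ((k % P : ℕ) : ZMod L) * b = (k : ZMod L) * b := by
  conv_rhs => rw [← Nat.div_add_mod k P]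
  push_cast
  linear_combination (-((k / P : ℕ) : ZMod L)) * hP

private lemma s2ent {L : ℕ} (b : ZMod L) (hb : b * b = b) :
    (s2 b : SL L) 0 0 = 1 - b ∧ (s2 b : SL L) 0 1 = -b ∧ (s2 b : SL L) 1 0 = b ∧
      (s2 b : SL L) 1 1 = 1 - b := by
  refine ⟨?_, ?_, ?_, ?_⟩
  · simp [s2, U, Lo]
    linear_combination (-1 : ZMod L) * hb
  · simp [s2, U, Lo]
    linear_combination (-b - 1 : ZMod L) * hb
  · simp [s2, U, Lo]
  · simp [s2, U, Lo]
    linear_combination (-1 : ZMod L) * hb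

theorem hXC : StXC := by
  intro hFUS hDUA hAUT hGRP hENT I _ _ Z p a m b j tu Pi y z hC
  obtain ⟨hU, hthL, htwadd, htw0, htw1, htwo, htwc, -, -, -, -⟩ := hFUS hDUA I Z.toCentreRep
  obtain ⟨g1, g2, g3, g4, g5, g6, g7, g8, g9, g10, g11, g12, g13⟩ :=
    hGRP Z.L (p ^ a) b j tu hC.idp.idem hC.jh hC.tu_val hC.tu_mul
  obtain ⟨hsym, -⟩ := hENT hFUS hDUA I Z.toCentreRep b
  have hb := hC.idp.idem
  have prm := hC.prm
  have jh := hC.jh
  -- the map tu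
  have tu1 : tu 1 = 1 := by
    apply Units.ext
    rw [hC.tu_val]
    have : ((1 : (ZMod (p ^ a))ˣ) : ZMod (p ^ a)) = 1 := rfl
    rw [this, jh.one]
    simp
  have pmul := piMul Z Pi prm g12
  have pone := piOne Z Pi prm g13
  have c1 : ∀ i, Pi (tu 1) i = i := by
    intro i; rw [tu1]; exact pone i
  have c2 : ∀ (c c' : (ZMod (p ^ a))ˣ) (i : I), Pi (tu (c * c')) i = Pi (tu c) (Pi (tu c') i) := by
    intro c c' i
    rw [mul_comm c c', hC.tu_mul, pmul]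
  have inv1 : ∀ (w : (ZMod (p ^ a))ˣ) (i : I), Pi (tu w) (Pi (tu w⁻¹) i) = i := by
    intro w i
    rw [← c2, mul_inv_cancel, c1]
  have inv2 : ∀ (w : (ZMod (p ^ a))ˣ) (i : I), Pi (tu w⁻¹) (Pi (tu w) i) = i := by
    intro w i
    rw [← c2, inv_mul_cancel, c1]
  have mL : ∀ (w : (ZMod (p ^ a))ˣ) (M : Matrix I I ℂ) (i k : I),
      (Z.rho (Dg (tu w)) * M) i k = M (Pi (tu w) i) k := fun w M i k => mulL Z Pi prm (tu w) M i k
  have mR : ∀ (w : (ZMod (p ^ a))ˣ) (M : Matrix I I ℂ) (i k : I),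
      (M * Z.rho (Dg (tu w))) i k = M i (Pi (tu w⁻¹) k) := fun w M i k =>
    mulR Z Pi prm (tu w) (tu w⁻¹) (inv1 w) (inv2 w) M i k
  have mO : ∀ (w : (ZMod Z.L)ˣ) (M : Matrix I I ℂ) (i : I),
      (M * Z.rho (Dg w)) i Z.o = M i Z.o := by
    intro w M i
    rw [Matrix.mul_apply, Finset.sum_eq_single Z.o]
    · rw [Z.borel, if_pos rfl, mul_one]
    · intro l _ hl
      rw [Z.borel, if_neg hl, mul_zero]
    · intro h; exact absurd (Finset.mem_univ _) h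
  have c3 : ∀ c, Pi (tu c) Z.o = Z.o := by
    intro c
    have h1 := Z.borel (tu c) Z.o
    rw [if_pos rfl, prm] at h1
    by_contra hne
    rw [if_neg (fun h' => hne h'.symm)] at h1
    exact zero_ne_one h1
  have hn : (Z.n : ℂ) ≠ 0 := by
    have := Z.n_pos
    exact_mod_cast this.ne'
  have c4 : ∀ c i, Z.d (Pi (tu c) i) = Z.d i := by
    intro c i
    obtain ⟨σ, hσ⟩ := hAUT I Z.toCentreRep (tu c)
    have h1 := hσ Sm (Dg (tu c) * Sm) (by simp [Dg, Sm]) (by simp [Dg, Sm])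
      (by simp [Dg, Sm]) (by simp [Dg, Sm]) i Z.o
    rw [map_mul, mL, Z.s_symm, Z.s_o, Z.s_symm, Z.s_o] at h1
    rw [map_div₀, map_natCast, map_natCast] at h1
    have h2 : (Z.d (Pi (tu c) i) : ℂ) = Z.d i := by
      field_simp at h1
      exact h1
    exact_mod_cast h2
  have hp : (p : ℂ) ≠ 0 := by
    have := hC.prime.pos
    exact_mod_cast this.ne'
  have c5 : ∀ c i, y (Pi (tu c) i) = y i := by
    intro c i
    have h1 : Z.rho (Dg (tu c) * s2 b) i Z.o = Z.rho (s2 b * Dg (tu c⁻¹)) i Z.o := by rw [g8]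
    rw [map_mul, map_mul, mL, mO] at h1
    have h2 : (y (Pi (tu c) i) : ℂ) = y i := by
      rw [hC.yy, hC.yy, h1]
    exact_mod_cast h2
  have c6 : ∀ c i, z (Pi (tu c) i) = z i := by
    intro c i
    have h1 : Z.rho (Dg (tu c) * s2 (1 - b)) i Z.o = Z.rho (s2 (1 - b) * Dg (tu c)) i Z.o := by rw [g9]
    rw [map_mul, map_mul, mL, mO] at h1
    have h2 : (z (Pi (tu c) i) : ℂ) = z i := by
      rw [hC.zz, hC.zz, h1]
    exact_mod_cast h2
  -- the twists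
  have twk : ∀ (k : ℕ) (i : I), Z.tw ((k : ZMod Z.L) * b) i = Z.tw b i ^ k := by
    intro k i
    induction k with
    | zero => simp [htw0]
    | succ k ih =>
      have : ((k + 1 : ℕ) : ZMod Z.L) * b = (k : ZMod Z.L) * b + b := by push_cast; ring
      rw [this, htwadd, ih, pow_succ]
  have twj : ∀ (x : ZMod (p ^ a)) (i : I), Z.tw (j x) i = Z.tw b i ^ x.val := by
    intro x i
    rw [jh.val, twk]
  have bj : ∀ x, b * j x = j x := by
    intro x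
    rw [← jh.one, ← jh.mul, one_mul]
  have hU' : ∀ x, Z.rho (U x) = Matrix.diagonal (Z.tw x) := hU
  have c7 : ∀ (c : (ZMod (p ^ a))ˣ) (i : I),
      Z.tw b (Pi (tu c) i) = Z.tw b i ^ ((c : ZMod (p ^ a)) ^ 2).val := by
    intro c i
    have h1 : Z.rho (Dg (tu c) * U b) i (Pi (tu c) i) =
        Z.rho (U (((tu c : (ZMod Z.L)ˣ) : ZMod Z.L) ^ 2 * b) * Dg (tu c)) i (Pi (tu c) i) := by rw [g10]
    rw [map_mul, map_mul, mL, mR, inv2, hU', hU', Matrix.diagonal_apply_eq,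
      Matrix.diagonal_apply_eq] at h1
    have h2 : ((tu c : (ZMod Z.L)ˣ) : ZMod Z.L) ^ 2 * b = j ((c : ZMod (p ^ a)) ^ 2) := by
      rw [hC.tu_val, pow_two (c : ZMod (p ^ a)), jh.mul]
      linear_combination (-1 + b - 2 * j c : ZMod Z.L) * hb + (j c) * bj c
    rw [h1, h2, twj]
  have c8 : ∀ c i k, Z.rho (s2 b) (Pi (tu c) i) k = Z.rho (s2 b) i (Pi (tu c) k) := by
    intro c i k
    have h1 : Z.rho (Dg (tu c) * s2 b) i k = Z.rho (s2 b * Dg (tu c⁻¹)) i k := by rw [g8]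
    rw [map_mul, map_mul, mL, mR, inv_inv] at h1
    exact h1
  have c9 : ∀ i k, conj (Z.rho (s2 b) i k) = Z.rho (s2 b) i (Pi (tu (-1)) k) := by
    intro i k
    have hm : ((-1 : (ZMod (p ^ a))ˣ))⁻¹ = -1 := by simp
    rw [rhoInv, g4, map_mul, mR, hm, hsym, c8]
  have hLne : NeZero Z.L := ⟨Z.L_pos.ne'⟩
  have hPne : NeZero (p ^ a) := ⟨(pow_pos hC.prime.pos a).ne'⟩
  have hPL : p ^ a ∣ Z.L := by
    obtain ⟨L', h, -, -⟩ := hC.idp.ex
    exact ⟨L', h⟩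
  have c10 : ∀ σ : ℂ ≃+* ℂ, ∃ c, ∀ i k, σ (Z.rho (s2 b) i k) = Z.rho (s2 b) i (Pi (tu c) k) := by
    intro σ
    obtain ⟨c0, hc0⟩ := Z.galois σ
    obtain ⟨v, hv⟩ : ∃ v : (ZMod (p ^ a))ˣ, (v : ZMod (p ^ a)) =
        (((c0 : ZMod Z.L).val : ℕ) : ZMod (p ^ a)) := by
      refine ⟨Units.map (ZMod.castHom hPL (ZMod (p ^ a))).toMonoidHom c0, ?_⟩
      simp only [Units.coe_map]
      show (ZMod.castHom hPL (ZMod (p ^ a))) (c0 : ZMod Z.L) = _
      rw [ZMod.castHom_apply, ZMod.natCast_val]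
    have hjv : j v = (c0 : ZMod Z.L) * b := by
      rw [jh.val, hv, ZMod.val_natCast, valMod b (by exact_mod_cast hC.idp.ann)]
      rw [ZMod.natCast_zmod_val]
    have hjv' : (c0 : ZMod Z.L) * j ((v⁻¹ : (ZMod (p ^ a))ˣ) : ZMod (p ^ a)) = b := by
      have e1 : j (v : ZMod (p ^ a)) * j ((v⁻¹ : (ZMod (p ^ a))ˣ) : ZMod (p ^ a)) = b := by
        rw [← jh.mul, Units.mul_inv, jh.one]
      have e2 := bj ((v⁻¹ : (ZMod (p ^ a))ˣ) : ZMod (p ^ a))
      rw [hjv] at e1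
      linear_combination e1 - (c0 : ZMod Z.L) * e2
    obtain ⟨s00, s01, s10, s11⟩ := s2ent b hb
    have t1 : ((tu v⁻¹ : (ZMod Z.L)ˣ) : ZMod Z.L) =
        (1 - b) + j ((v⁻¹ : (ZMod (p ^ a))ˣ) : ZMod (p ^ a)) := hC.tu_val _
    have t2 : (((tu v⁻¹)⁻¹ : (ZMod Z.L)ˣ) : ZMod Z.L) = (1 - b) + j (v : ZMod (p ^ a)) := by
      have : (tu v⁻¹)⁻¹ = tu v := by
        rw [inv_eq_iff_mul_eq_one, ← hC.tu_mul, inv_mul_cancel, tu1]
      rw [this, hC.tu_val]
    have d00 : (Dg (tu v⁻¹) : SL Z.L) 0 0 = (1 - b) + j ((v⁻¹ : (ZMod (p ^ a))ˣ) : ZMod (p ^ a)) := by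
      rw [← t1]; simp [Dg]
    have d01 : (Dg (tu v⁻¹) : SL Z.L) 0 1 = 0 := by simp [Dg]
    have d10 : (Dg (tu v⁻¹) : SL Z.L) 1 0 = 0 := by simp [Dg]
    have d11 : (Dg (tu v⁻¹) : SL Z.L) 1 1 = (1 - b) + j (v : ZMod (p ^ a)) := by
      rw [← t2]; simp [Dg]
    have e1 := bj ((v⁻¹ : (ZMod (p ^ a))ˣ) : ZMod (p ^ a))
    have e2 := bj (v : ZMod (p ^ a))
    refine ⟨v, fun i k => ?_⟩
    have h1 := hc0 (s2 b) (s2 b * Dg (tu v⁻¹)) (by
      rw [Matrix.SpecialLinearGroup.coe_mul, Matrix.mul_apply, Fin.sum_univ_two, s00, s01, d00, d10]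
      linear_combination hb - e1) (by
      rw [Matrix.SpecialLinearGroup.coe_mul, Matrix.mul_apply, Fin.sum_univ_two, s00, s01, d01, d11]
      linear_combination hb - e2 - hjv) (by
      rw [Matrix.SpecialLinearGroup.coe_mul, Matrix.mul_apply, Fin.sum_univ_two, s10, s11, d00, d10]
      linear_combination (-(c0 : ZMod Z.L)) * hb + (c0 : ZMod Z.L) * e1 + hjv') (by
      rw [Matrix.SpecialLinearGroup.coe_mul, Matrix.mul_apply, Fin.sum_univ_two, s10, s11, d01, d11]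
      linear_combination hb - e2) i k
    rw [← h1, map_mul, mR, inv_inv]
  have c11 : ∀ i k, ∑ l, Z.rho (s2 b) i l * Z.rho (s2 b) l k =
      if i = Pi (tu (-1)) k then 1 else 0 := by
    intro i k
    rw [← Matrix.mul_apply, ← map_mul, g3, prm]
    have hm : ∀ i, Pi (tu (-1)) (Pi (tu (-1)) i) = i := by
      intro i
      rw [← c2]
      have : (-1 : (ZMod (p ^ a))ˣ) * (-1) = 1 := by simp
      rw [this, c1]
    by_cases h : k = Pi (tu (-1)) i
    · rw [if_pos h, if_pos]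
      rw [h, hm]
    · rw [if_neg h, if_neg]
      intro h'
      apply h
      rw [h', hm]
  have jneg : ∀ x, -(j x) = j (-x) := by
    intro x
    have h1 := jh.add x (-x)
    rw [add_neg_cancel, jh.zero] at h1
    linear_combination (-1 : ZMod Z.L) * (-h1)
  have c12 : ∀ (w : (ZMod (p ^ a))ˣ) (i k : I),
      ∑ l, Z.tw b l ^ (w : ZMod (p ^ a)).val * (Z.rho (s2 b) i l * Z.rho (s2 b) l k) =
      (Z.tw b i ^ (-((w⁻¹ : (ZMod (p ^ a))ˣ) : ZMod (p ^ a))).val *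
        Z.tw b k ^ (-((w⁻¹ : (ZMod (p ^ a))ˣ) : ZMod (p ^ a))).val) *
        Z.rho (s2 b) i (Pi (tu w⁻¹) k) := by
    intro w i k
    have h1 : Z.rho (s2 b * U (j w) * s2 b) i k =
        Z.rho (U (-(j ((w⁻¹ : (ZMod (p ^ a))ˣ) : ZMod (p ^ a)))) * s2 b *
    Dg (tu w) * U (-(j ((w⁻¹ : (ZMod (p ^ a))ˣ) : ZMod (p ^ a))))) i k := by rw [g7]
    rw [map_mul, map_mul, map_mul, map_mul, map_mul, hU', hU', Matrix.mul_diagonal, mR,
      Matrix.diagonal_mul, Matrix.mul_apply, jneg, twj, twj] at h1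
    have h2 : ∑ l, Z.tw b l ^ (w : ZMod (p ^ a)).val * (Z.rho (s2 b) i l * Z.rho (s2 b) l k) =
        ∑ l, (Z.rho (s2 b) * Matrix.diagonal (Z.tw (j w))) i l * Z.rho (s2 b) l k := by
      apply Finset.sum_congr rfl
      intro l _
      rw [Matrix.mul_diagonal, twj]
      ring
    rw [h2, h1]
    ring
  exact ⟨c1, c2, c3, c4, c5, c6, c7, c8, c9, c10, c11, c12⟩

end Pool.Agent.Helper4.PQ0.XC
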