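import Pool.Agent.Helper4.PQ0.Defs
import Pool.Agent.Helper4.PQ0.M_XA
import Pool.Agent.Helper4.PQ0.M_XB
import Pool.Agent.Helper4.PQ0.M_XC
import Pool.Agent.Helper4.PQ0.M_XE
import Pool.Agent.Helper45.AL.M_FCA

/-! # Project PQS (MP_2b6189_al): from the centre to the parity-free local data -/

set_option autoImplicit false

namespace Pool.Agent.Helper4.PQ0

open Matrix ComplexConjugate Pool.Agent.Helper94.YG
open Pool.Agent.Helper94.YF hiding StORB
open Pool.Agent.Helper89.OS hiding PD Cx Blk B0 Orb StXA StXB StXC StXE StCGR StISO StBLK StAMG StHEC StSTL StMZZ StDRE StTSU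
open Pool.Agent.Helper89.OC hiding Ks gX OB Lk StORB StTS2 StLKD StTAN
open Pool.Agent.Helper79.AL (StFCA)

/-- Every odd prime `p` dividing `n = p m` exactly once gives `p`-local data. -/
theorem toPD0 (hIDP : StIDP) (hJTU : StJTU) (hAUT : StAUT) (hPRM : StPRM) (hXD : StXD)
    (hYYZ : StYYZ) (hGRP : StGRP) (hENT : StENT) (hXA : StXA)
    (hXB : StXB) (hXC : StXC) (hXE : StXE)
    (hDUA : StDUA) (hFUS : StFUS) (hINT : StINT) (hNRM : StNRM) (hRAT : StRAT) (hFCA : StFCA)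
    (I : Type) [Fintype I] [DecidableEq I] (Z : CentreData I) (p m : ℕ) (hp : p.Prime)
    (hp2 : p ≠ 2) (hn : Z.n = p * m) (hpm : ¬ p ∣ m) :
    ∃ (a : ℕ) (b : ZMod Z.L) (X : PD I p a), Idp Z.L p a b ∧ (p ^ 2 ∣ Z.L → 2 ≤ a) ∧
      X.o = Z.o ∧ X.st = Z.st ∧ X.d = Z.d ∧ X.m = m ∧ X.kap = Z.kap ∧ X.th = Z.th ∧
      X.t = Z.tw b ∧ (X.s = fun i k => (p : ℂ) * Z.rho (s2 b) i k) ∧ X.chi = Cchi Z ∧
      X.N = Z.N ∧ (∀ i, (X.z i : ℂ) = (m : ℂ) * Z.rho (s2 (1 - b)) i Z.o) := by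
  obtain ⟨a, b, hI, ha1, ha2⟩ := hIDP Z.L p Z.L_pos hp
  have hpL : p ∣ Z.L := Z.cauchy p hp (by rw [hn]; exact dvd_mul_right p m)
  have ha : 1 ≤ a := ha1 hpL
  obtain ⟨y, z, hy, hz⟩ := hYYZ hFUS hDUA hINT hRAT I Z p a m b hp ha hI hn hpm
  obtain ⟨j, tu, hj, htu, htum⟩ := hJTU Z.L p a b hp hI
  choose Pi hPi using hPRM hAUT hDUA hFUS I Z.toCentreRep
  have hpo : Odd p := hp.odd_of_ne_two hp2
  have hC : Cx Z p a m b j tu Pi y z := ⟨hp, hpo, ha, hpm, hn, hI, hj, htu, htum, hPi, hy, hz⟩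
  have hPiS : ∀ c i k, Z.rho Sm (Pi c i) k = Z.rho Sm i (Pi c k) := by
    intro c
    obtain ⟨π, -, h1, -, -, h2, -⟩ := (hFCA I Z).perm c
    have h3 : ∀ i, Pi c i = π i := by
      intro i
      have h4 := hPi c i (π i)
      rw [h1 i (π i), if_pos rfl] at h4
      by_contra hne
      rw [if_neg (Ne.symm hne)] at h4
      exact one_ne_zero h4
    intro i k
    rw [h3, h3]
    exact h2 i k
  obtain ⟨a1, a2, a3, a4, a5, a6, a7, a8, a9, a10⟩ :=
    hXA hFUS hDUA hNRM hRAT hGRP hENT I Z p a m b j tu Pi y z hC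
  obtain ⟨b1, b2, b3, b4, b5⟩ := hXB hFUS hDUA hGRP hENT I Z p a m b j tu Pi y z hC
  obtain ⟨c1, c2, c3, c4, c5, c6, c7, c8, c9, c10, c11, c12⟩ :=
    hXC hFUS hDUA hAUT hGRP hENT I Z p a m b j tu Pi y z hC
  obtain ⟨e1, e2, e3, e4, e5, e6, e7⟩ := hXE hFUS hDUA hGRP hENT I Z p a m b j tu Pi y z hC
  obtain ⟨d1, d2, d3, -⟩ := hDUA I Z.toCentreRep
  have hp0 : (p : ℂ) ≠ 0 := by exact_mod_cast hp.ne_zero
  let X : PD I p a :=
    { o := Z.o, st := Z.st, d := Z.d, m := m, kap := Z.kap, th := Z.th, t := Z.tw b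
      s := fun i k => (p : ℂ) * Z.rho (s2 b) i k, y := y, z := z, chi := Cchi Z, N := Z.N
      pi := fun c => Pi (tu c)
      prime := hp, p_odd := hpo, a_pos := ha, cop := hpm
      st_st := d1, st_o := d2
      d_st := d3, t_st := a2, y_st := a1, d_pos := Z.d_pos, d_o := Z.d_o, d_dvd := a8
      t_pow := a3, t_o := a4, th_of := a5, kap_o := Z.kap_o, kap_t := a6, kap_y := a7
      s_symm := b1, s_o := fun i => (hy i).symm, s_int := b2, s_uni := b3, sd := b4, sz := b5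
      z_t := a10, z_dvd := a9
      pi_one := c1, pi_mul := c2, pi_o := c3, pi_d := c4, pi_y := c5, pi_z := c6, pi_t := c7
      pi_chi := fun c j k => by
        have h1 : Z.rho Sm Z.o (Pi (tu c) j) = Z.rho Sm Z.o j := by
          rw [← hPiS, c3]
        show Z.rho Sm k (Pi (tu c) j) / Z.rho Sm Z.o (Pi (tu c) j) =
          Z.rho Sm (Pi (tu c) k) j / Z.rho Sm Z.o j
        rw [h1, hPiS]
      pi_s := fun c i k => by simp only [c8 c i k]
      conj_s := fun i k => by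
        simp only [map_mul, c9 i k, Complex.conj_natCast]
      gal := fun σ => by
        obtain ⟨c, hc⟩ := c10 σ
        exact ⟨c, fun i k => by simp only [map_mul, map_natCast, hc i k]⟩
      weil0 := fun i k => by
        have h1 : ∑ l, (p : ℂ) * Z.rho (s2 b) i l * ((p : ℂ) * Z.rho (s2 b) l k) =
            (p : ℂ) ^ 2 * ∑ l, Z.rho (s2 b) i l * Z.rho (s2 b) l k := by
          rw [Finset.mul_sum]
          exact Finset.sum_congr rfl fun l _ => by ring
        rw [h1, c11 i k]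
        split_ifs <;> ring
      weil := fun w i k => by
        have h1 : ∑ l, Z.tw b l ^ (w : ZMod (p ^ a)).val * ((p : ℂ) * Z.rho (s2 b) i l *
            ((p : ℂ) * Z.rho (s2 b) l k)) = (p : ℂ) ^ 2 * ∑ l,
            Z.tw b l ^ (w : ZMod (p ^ a)).val * (Z.rho (s2 b) i l * Z.rho (s2 b) l k) := by
          rw [Finset.mul_sum]
          exact Finset.sum_congr rfl fun l _ => by ring
        rw [h1, c12 w i k]
        ring
      ex := by
        obtain ⟨k, hk1, hk2⟩ := hXD hFUS hDUA I Z.toCentreRep p a b hp ha hI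
        refine ⟨k, ?_, hk2⟩
        intro h0
        apply hk1
        have := hy k
        rw [h0] at this
        push_cast at this
        rcases mul_eq_zero.1 this.symm with h | h
        · exact absurd h hp0
        · exact h
      chi_int := e1, chi_o := e2, o_chi := e3, chi_mul := e4, con := e5, nhat := e6, tor := e7 }
  exact ⟨a, b, X, hI, ha2, rfl, rfl, rfl, rfl, rfl, rfl, rfl, rfl, rfl, rfl, hz⟩


/-- Every odd prime `p` dividing `n = p m` exactly once gives `p`-local data. -/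
theorem toPD' (I : Type) [Fintype I] [DecidableEq I] (Z : CentreData I) (p m : ℕ) (hp : p.Prime)
    (hp2 : p ≠ 2) (hn : Z.n = p * m) (hpm : ¬ p ∣ m) :
    ∃ (a : ℕ) (b : ZMod Z.L) (X : PD I p a), Idp Z.L p a b ∧ (p ^ 2 ∣ Z.L → 2 ≤ a) ∧
      X.o = Z.o ∧ X.st = Z.st ∧ X.d = Z.d ∧ X.m = m ∧ X.kap = Z.kap ∧ X.th = Z.th ∧
      X.t = Z.tw b ∧ (X.s = fun i k => (p : ℂ) * Z.rho (s2 b) i k) ∧ X.chi = Cchi Z ∧
      X.N = Z.N ∧ (∀ i, (X.z i : ℂ) = (m : ℂ) * Z.rho (s2 (1 - b)) i Z.o) :=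
  toPD0 Helper58.OS.hIDP Helper24.OS.hJTU Helper90.OS.hAUT Helper36.OS.hPRM Helper53.OS.hXD
    Helper75.OS.hYYZ Helper19.OS.hGRP Helper33.OS.hENT
    XA.hXA XB.hXB XC.hXC XE.hXE
    Helper88.YF.hDUA Helper36.YF.hFUS Helper95.YF.hINT Helper2.YF.hNRM hRAT' Helper45.AL.hFCA
    I Z p m hp hp2 hn hpm

end Pool.Agent.Helper4.PQ0
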