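import Pool.Agent.Helper4.PQ0.St
import Pool.Agent.Helper46.WG.L10

/-! # Project PQS (MP_2b6189_al): the identity `∑ y d = g` and objects of prime power dimension -/

set_option autoImplicit false

namespace Pool.Agent.Helper4.PQ0

open Matrix ComplexConjugate Pool.Agent.Helper94.YF Pool.Agent.Helper94.YG
open Pool.Agent.Helper89.OS hiding PD Cx Blk B0 Orb StXA StXB StXC StXE StCGR StISO StBLK StAMG StHEC StSTL StMZZ StDRE StTSU
open Pool.Agent.Helper89.OC hiding Ks gX OB Lk StORB StTS2 StLKD StTAN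

/-- A sum over a union of orbits of a function divisible by `c` on every orbit. -/
theorem dvd_sum_orbits {I : Type} [DecidableEq I] (S : Finset I) (O : I → Finset I)
    (hO : ∀ k ∈ S, O k ⊆ S) (hs : ∀ k ∈ S, k ∈ O k) (he : ∀ k ∈ S, ∀ j ∈ O k, O j = O k)
    (f : I → ℤ) (c : ℤ) (hf : ∀ k ∈ S, c ∣ ∑ j ∈ O k, f j) : c ∣ ∑ j ∈ S, f j := by
  classical
  rw [← Finset.sum_fiberwise_of_maps_to (s := S) (t := S.image O) (g := O)
    (fun k hk => Finset.mem_image_of_mem O hk) f]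
  refine Finset.dvd_sum fun T hT => ?_
  obtain ⟨k, hk, rfl⟩ := Finset.mem_image.1 hT
  have h1 : S.filter (fun j => O j = O k) = O k := by
    ext j
    rw [Finset.mem_filter]
    constructor
    · rintro ⟨hj, h⟩
      rw [← h]
      exact hs j hj
    · intro hj
      exact ⟨hO k hk hj, he k hk j hj⟩
  rw [h1]
  exact hf k hk

/-- The identity `∑ y d = g` over a union of orbits gives an object of dimension `1` or a prime power, if all the dimensions divide
a number with at most two prime divisors. -/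
theorem exists_pp {I : Type} [DecidableEq I] (S : Finset I) (O : I → Finset I)
    (hO : ∀ k ∈ S, O k ⊆ S) (hs : ∀ k ∈ S, k ∈ O k) (he : ∀ k ∈ S, ∀ j ∈ O k, O j = O k)
    (y : I → ℤ) (d : I → ℕ) (g : ℤ) (hg : g ≠ 0) (hy : ∀ k ∈ S, ∀ j ∈ O k, y j = y k ∧ d j = d k)
    (hd : ∀ k, 0 < d k) (hgO : ∀ k ∈ S, g ∣ ((O k).card : ℤ) * y k)
    (hsum : ∑ k ∈ S, y k * (d k : ℤ) = g) (m q s : ℕ) (hm : ∀ l : ℕ, l.Prime → l ∣ m → l = q ∨ l = s)
    (hdm : ∀ k ∈ S, d k ∣ m) : ∃ k ∈ S, d k = 1 ∨ IsPrimePow (d k) := by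
  classical
  by_contra hcon
  push Not at hcon
  have hS : S.Nonempty := by
    by_contra h
    rw [Finset.not_nonempty_iff_eq_empty] at h
    rw [h, Finset.sum_empty] at hsum
    exact hg hsum.symm
  have key : ∀ k ∈ S, q.Prime ∧ q ∣ d k := by
    intro k hk
    obtain ⟨h1, h2⟩ := hcon k hk
    have h3 := hd k
    obtain ⟨a, b, ha, hb, hab, h4, h5⟩ := Pool.Agent.Helper46.WG.two_primes (by omega) h2
    rcases hm a ha (h4.trans (hdm k hk)) with h6 | h6
    · exact h6 ▸ ⟨ha, h4⟩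
    · rcases hm b hb (h5.trans (hdm k hk)) with h7 | h7
      · exact h7 ▸ ⟨hb, h5⟩
      · exact absurd (h6.trans h7.symm) hab
  obtain ⟨k0, hk0⟩ := hS
  have hq := (key k0 hk0).1
  have h1 : g * q ∣ ∑ k ∈ S, y k * (d k : ℤ) := by
    refine dvd_sum_orbits S O hO hs he _ _ fun k hk => ?_
    have h2 : ∑ j ∈ O k, y j * (d j : ℤ) = ((O k).card : ℤ) * y k * (d k : ℤ) := by
      rw [Finset.sum_congr rfl fun j hj => by rw [(hy k hk j hj).1, (hy k hk j hj).2],
        Finset.sum_const, nsmul_eq_mul]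
      ring
    rw [h2]
    exact mul_dvd_mul (hgO k hk) (by exact_mod_cast (key k hk).2)
  rw [hsum] at h1
  have h2 : g * q ∣ g * 1 := by rwa [mul_one]
  have h3 := (mul_dvd_mul_iff_left hg).1 h2
  have h4 : q ∣ 1 := by exact_mod_cast h3
  exact hq.one_lt.ne' (Nat.dvd_one.1 h4)

/-- An object of the principal block centralises the self-dual invertible objects. -/
theorem inv_cen {I : Type} [Fintype I] [DecidableEq I] (Z : CentreData I) {p a : ℕ} (X : PD I p a)
    (Q : ℂ → Prop) (hB : Blk X Q) (ho : X.o = Z.o) (hst : X.st = Z.st) (hd : X.d = Z.d)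
    (hchi : X.chi = Cchi Z) (k : I) (hk : X.y k ≠ 0) (δ : I) (hδ : Z.d δ = 1) (hδs : Z.st δ = δ) :
    Sf Z k δ = Z.d k := by
  have A := Helper36.OC.hGLA I Z
  have B := Helper1.OC.hGLB I Z
  -- `chi k δ ^ 2 = 1`
  have h1 : ∀ v, v ≠ Z.o → Z.N δ δ v = 0 := by
    intro v hv
    have h2 := B.dim δ δ
    rw [hδ, mul_one, ← Finset.add_sum_erase _ _ (Finset.mem_univ Z.o)] at h2
    have h3 := B.N_o δ δ
    rw [hδs, if_pos rfl] at h3
    rw [h3, Z.d_o] at h2
    have h4 : Z.N δ δ v * Z.d v ≤ ∑ l ∈ Finset.univ.erase Z.o, Z.N δ δ l * Z.d l :=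
      Finset.single_le_sum (f := fun l => Z.N δ δ l * Z.d l) (fun _ _ => Nat.zero_le _)
        (Finset.mem_erase.2 ⟨hv, Finset.mem_univ _⟩)
    have h5 : Z.N δ δ v * Z.d v = 0 := by omega
    rcases Nat.mul_eq_zero.1 h5 with h6 | h6
    · exact h6
    · exact absurd h6 (Z.d_pos v).ne'
  have h2 : Cchi Z k δ * Cchi Z k δ = 1 := by
    rw [A.chi_mul, Finset.sum_eq_single Z.o]
    · have h3 := B.N_o δ δ
      rw [hδs, if_pos rfl] at h3
      rw [h3, A.chi_o]
      simp
    · intro v _ hv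
      rw [h1 v hv]
      simp
    · intro h
      exact absurd (Finset.mem_univ _) h
  have h3 : (Cchi Z k δ - 1) * (Cchi Z k δ + 1) = 0 := by linear_combination h2
  rw [A.Sf_chi]
  rcases mul_eq_zero.1 h3 with h4 | h4
  · rw [sub_eq_zero.1 h4, mul_one]
  · exfalso
    have h5 := hB.mem k hk δ
    rw [hchi, hd, hδ, eq_neg_of_add_eq_zero_left h4] at h5
    have h6 : Q ((-2 : ℤ) : ℂ) := by
      have h7 : ((-2 : ℤ) : ℂ) = -1 - ((1 : ℕ) : ℂ) := by
        push_cast
        ring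
      rw [h7]
      exact h5
    have h7 := (hB.pi.int_iff _).1 h6
    rw [dvd_neg] at h7
    have h8 : p ∣ 2 := by exact_mod_cast h7
    have h9 := (Nat.prime_dvd_prime_iff_eq X.prime Nat.prime_two).1 h8
    have h10 := X.p_odd
    rw [h9] at h10
    exact absurd h10 (by decide)

end Pool.Agent.Helper4.PQ0
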