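import Pool.Agent.Helper4.PQ0.Defs

set_option autoImplicit false

namespace Pool.Agent.Helper4.PQ0.AMG

open Pool.Agent.Helper4.PQ0
open Pool.Agent.Helper89.OS hiding PD Cx Blk B0 Orb StXA StXB StXC StXE StCGR StISO StBLK StAMG StHEC StSTL StMZZ StDRE StTSU
open Pool.Agent.Helper89.OC hiding Ks gX OB Lk StORB StTS2 StLKD StTAN

open Matrix ComplexConjugate Pool.Agent.Helper94.YF Pool.Agent.Helper94.YG

theorem hAMG : StAMG := by
  intro hRAT I _ _ p a X Q hB k S hk hS hst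
  have hne : ∀ j ∈ S, X.s k j ≠ 0 := fun j hj => hB.nz k j hk (hS j hj)
  have hint : IsIntegral ℤ (∏ j ∈ S, X.s k j) := IsIntegral.prod (fun j => X.s k j) fun j _ => X.s_int k j
  have hinj : ∀ c, Function.Injective (X.pi c) := by
    intro c i j hij
    have h1 := congrArg (X.pi c⁻¹) hij
    rwa [← X.pi_mul, ← X.pi_mul, inv_mul_cancel, X.pi_one, X.pi_one] at h1
  have hfix : ∀ σ : ℂ ≃+* ℂ, σ (∏ j ∈ S, X.s k j) = ∏ j ∈ S, X.s k j := by
    intro σ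
    obtain ⟨c, hc⟩ := X.gal σ
    rw [map_prod]
    simp only [hc]
    have himg : S.image (X.pi c) = S := by
      apply Finset.eq_of_subset_of_card_le
      · intro x hx
        obtain ⟨j, hj, rfl⟩ := Finset.mem_image.1 hx
        exact hst c j hj
      · rw [Finset.card_image_of_injective S (hinj c)]
    calc ∏ j ∈ S, X.s k (X.pi c j) = ∏ j ∈ S.image (X.pi c), X.s k j := by
          rw [Finset.prod_image fun x _ y _ h => hinj c h]
      _ = ∏ j ∈ S, X.s k j := by rw [himg]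
  obtain ⟨m, hm⟩ := hRAT.1 _ hint hfix
  have hP0 : (∏ j ∈ S, X.s k j) ≠ 0 := Finset.prod_ne_zero_iff.2 hne
  have hm0 : m ≠ 0 := by
    rintro rfl
    exact hP0 (by rw [← hm]; simp)
  have hnorm : (1 : ℝ) ≤ ‖∏ j ∈ S, X.s k j‖ := by
    rw [← hm]
    have h1 : (1 : ℤ) ≤ |m| := Int.one_le_abs hm0
    have h2 : ‖(m : ℂ)‖ = ((|m| : ℤ) : ℝ) := by
      rw [Complex.norm_intCast, Int.cast_abs]
    rw [h2]
    exact_mod_cast h1
  have hprod : (1 : ℝ) ≤ ∏ j ∈ S, ‖X.s k j‖ ^ 2 := by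
    rw [Finset.prod_pow, ← norm_prod]
    nlinarith
  have hlog : 0 ≤ ∑ j ∈ S, Real.log (‖X.s k j‖ ^ 2) := by
    rw [← Real.log_prod fun j hj => pow_ne_zero 2 (norm_ne_zero_iff.2 (hne j hj))]
    exact Real.log_nonneg hprod
  have hle : ∑ j ∈ S, Real.log (‖X.s k j‖ ^ 2) ≤ ∑ j ∈ S, (‖X.s k j‖ ^ 2 - 1) := by
    apply Finset.sum_le_sum
    intro j hj
    have hp : 0 < ‖X.s k j‖ ^ 2 := pow_pos (norm_pos_iff.2 (hne j hj)) 2
    exact Real.log_le_sub_one_of_pos hp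
  have hsum : ∑ j ∈ S, (‖X.s k j‖ ^ 2 - 1) = ∑ j ∈ S, ‖X.s k j‖ ^ 2 - (S.card : ℝ) := by
    rw [Finset.sum_sub_distrib]
    simp
  linarith

end Pool.Agent.Helper4.PQ0.AMG
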