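import Pool.Agent.Helper4.PQ0.Defs

set_option autoImplicit false

namespace Pool.Agent.Helper4.PQ0.BLK

open Pool.Agent.Helper4.PQ0
open Pool.Agent.Helper89.OS hiding PD Cx Blk B0 Orb StXA StXB StXC StXE StCGR StISO StBLK StAMG StHEC StSTL StMZZ StDRE StTSU
open Pool.Agent.Helper89.OC hiding Ks gX OB Lk StORB StTS2 StLKD StTAN

open Matrix ComplexConjugate Pool.Agent.Helper94.YF Pool.Agent.Helper94.YG

private lemma dvd2 {p : ℕ} {Q : ℂ → Prop} (hQ : PI p Q) (hp : p.Prime) (E : ℤ) (S : ℂ)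
    (hS : IsIntegral ℤ S) (hnS : ¬ Q S) (h : IsIntegral ℤ (S * (E : ℂ) / (p : ℂ) ^ 2)) :
    ((p : ℤ) ^ 2) ∣ E := by
  have hp0 : (p : ℂ) ≠ 0 := by exact_mod_cast hp.ne_zero
  have hpi : IsIntegral ℤ (p : ℂ) := by
    have : IsIntegral ℤ (algebraMap ℤ ℂ (p : ℤ)) := isIntegral_algebraMap
    simpa using this
  have hQp : Q ((p : ℤ) : ℂ) := (hQ.int_iff p).2 (dvd_refl _)
  obtain ⟨T, hT⟩ : ∃ T : ℂ, T = S * (E : ℂ) / (p : ℂ) ^ 2 := ⟨_, rfl⟩
  rw [← hT] at h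
  have hEi : ∀ k : ℤ, IsIntegral ℤ (k : ℂ) := fun k => by
    have : IsIntegral ℤ (algebraMap ℤ ℂ k) := isIntegral_algebraMap
    simpa using this
  have h1 : S * (E : ℂ) = (T * p) * ((p : ℤ) : ℂ) := by
    rw [hT]
    push_cast
    field_simp
  have h2 : Q (S * (E : ℂ)) := by
    rw [h1]
    exact hQ.mul _ _ (h.mul hpi) hQp
  have h3 : (p : ℤ) ∣ E := by
    rcases hQ.prime _ _ hS (hEi E) h2 with h | h
    · exact absurd h hnS
    · exact (hQ.int_iff E).1 h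
  obtain ⟨E', rfl⟩ := h3
  have h4 : S * (E' : ℂ) = T * ((p : ℤ) : ℂ) := by
    rw [hT]
    push_cast
    field_simp
  have h5 : Q (S * (E' : ℂ)) := by
    rw [h4]
    exact hQ.mul _ _ h hQp
  have h6 : (p : ℤ) ∣ E' := by
    rcases hQ.prime _ _ hS (hEi E') h5 with h | h
    · exact absurd h hnS
    · exact (hQ.int_iff E').1 h
  obtain ⟨E'', rfl⟩ := h6
  exact ⟨E'', by ring⟩

private lemma eqp2 (p : ℕ) (m : ℤ) (h0 : 0 < m) (h1 : m ≤ (p : ℤ) ^ 2) (h2 : ((p : ℤ) ^ 2) ∣ m) :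
    m = (p : ℤ) ^ 2 :=
  le_antisymm h1 (Int.le_of_dvd h0 h2)

open Classical in
theorem hBLK : StBLK := by
  intro hRAT hCGR hISO I _ _ p a X Q hQ hx
  have hpp : p.Prime := X.prime
  have hso : ∀ k, X.s X.o k = X.y k := fun k => by rw [X.s_symm, X.s_o]
  have hy0 : X.y X.o ≠ 0 := fun h => hx (h ▸ dvd_zero _)
  have hnorm : ∀ i, ∑ k, ‖X.s k i‖ ^ 2 = (p : ℝ) ^ 2 := by
    intro i
    have h1 := X.s_uni i i
    rw [if_pos rfl] at h1
    have h2 : ∀ k, X.s i k * conj (X.s i k) = ((‖X.s k i‖ ^ 2 : ℝ) : ℂ) := by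
      intro k
      rw [Complex.mul_conj, X.s_symm i k, Complex.normSq_eq_norm_sq]
    rw [Finset.sum_congr rfl (fun k _ => h2 k), ← Complex.ofReal_sum] at h1
    exact_mod_cast h1
  have hysq : ∑ k, X.y k ^ 2 = (p : ℤ) ^ 2 := by
    have h1 := hnorm X.o
    have h2 : ∀ k, ‖X.s k X.o‖ ^ 2 = ((X.y k ^ 2 : ℤ) : ℝ) := by
      intro k
      rw [X.s_o, Complex.norm_intCast, sq_abs]
      push_cast
      ring
    rw [Finset.sum_congr rfl (fun k _ => h2 k)] at h1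
    exact_mod_cast h1
  have hoB : X.o ∈ B0 X Q := by
    unfold B0
    rw [Finset.mem_filter]
    refine ⟨Finset.mem_univ _, fun k => ?_⟩
    rw [X.o_chi, sub_self]
    exact hQ.zero
  have hBcgr : ∀ j ∈ B0 X Q, X.y j ≠ 0 ∧ ¬ p ∣ X.d j ∧ ¬ (p : ℤ) ∣ X.y j ∧
      ∀ i, Q (X.s j i - X.d j * X.y i) := by
    intro j hj
    unfold B0 at hj
    rw [Finset.mem_filter] at hj
    exact hCGR hRAT I p a X Q hQ hx j hj.2
  -- the block is the set of all `j` with `y j ≠ 0`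
  have hB0 : ∀ j, j ∉ B0 X Q → X.y j = 0 := by
    obtain ⟨S, hS, hnS, hI⟩ := hISO I p a X Q hQ X.o X.o
    have h1 : (∑ j ∈ B0 X Q, conj (X.s j X.o) * X.s j X.o) =
        ((∑ j ∈ B0 X Q, X.y j ^ 2 : ℤ) : ℂ) := by
      push_cast
      refine Finset.sum_congr rfl (fun j _ => ?_)
      rw [X.s_o, map_intCast]
      ring
    rw [h1] at hI
    have h2 := dvd2 hQ hpp _ S hS hnS hI
    have h3 : 0 < ∑ j ∈ B0 X Q, X.y j ^ 2 := by
      refine lt_of_lt_of_le (by positivity : 0 < X.y X.o ^ 2) ?_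
      exact Finset.single_le_sum (f := fun j => X.y j ^ 2) (fun _ _ => sq_nonneg _) hoB
    have h4 : ∑ j ∈ B0 X Q, X.y j ^ 2 + ∑ j ∈ (B0 X Q)ᶜ, X.y j ^ 2 = (p : ℤ) ^ 2 := by
      rw [Finset.sum_add_sum_compl, hysq]
    have h5 : 0 ≤ ∑ j ∈ (B0 X Q)ᶜ, X.y j ^ 2 := Finset.sum_nonneg (fun _ _ => sq_nonneg _)
    have h6 := eqp2 p _ h3 (by linarith) h2
    have h7 : ∑ j ∈ (B0 X Q)ᶜ, X.y j ^ 2 = 0 := by linarith
    intro j hj
    have h8 := (Finset.sum_eq_zero_iff_of_nonneg (fun _ _ => sq_nonneg _)).1 h7 j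
      (Finset.mem_compl.2 hj)
    exact pow_eq_zero_iff (two_ne_zero) |>.1 h8
  have hBiff : ∀ j, j ∈ B0 X Q ↔ X.y j ≠ 0 := by
    intro j
    constructor
    · intro hj
      exact (hBcgr j hj).1
    · intro hj
      by_contra hc
      exact hj (hB0 j hc)
  have hsup : ∀ i j, X.y i ≠ 0 → X.y j = 0 → X.s j i = 0 := by
    intro i j hi hj
    obtain ⟨S, hS, hnS, hI⟩ := hISO I p a X Q hQ i i
    obtain ⟨E, hE⟩ : ∃ E : ℂ, E = ∑ j ∈ B0 X Q, conj (X.s j i) * X.s j i := ⟨_, rfl⟩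
    have hci : ∀ u v, IsIntegral ℤ (conj (X.s u v)) := fun u v => by
      rw [X.conj_s]; exact X.s_int _ _
    obtain ⟨m, hm⟩ : ∃ m : ℤ, (m : ℂ) = E := by
      refine hRAT.1 E ?_ ?_
      · rw [hE]
        exact IsIntegral.sum _ (fun j _ => (hci _ _).mul (X.s_int _ _))
      · intro σ
        obtain ⟨c, hc⟩ := X.gal σ
        have hgi : ∀ k, σ (conj (X.s k i) * X.s k i) =
            conj (X.s (X.pi c k) i) * X.s (X.pi c k) i := by
          intro k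
          rw [map_mul, X.s_symm k i, X.conj_s, hc, hc, ← X.pi_mul, mul_comm c, X.pi_mul,
            ← X.conj_s, X.s_symm (X.pi c k) i]
        rw [hE, map_sum, Finset.sum_congr rfl (fun k _ => hgi k)]
        refine Finset.sum_nbij' (X.pi c) (X.pi c⁻¹) ?_ ?_ ?_ ?_ ?_
        · intro k hk
          rw [hBiff] at hk ⊢
          rwa [X.pi_y]
        · intro k hk
          rw [hBiff] at hk ⊢
          rwa [X.pi_y]
        · intro k _
          rw [← X.pi_mul, inv_mul_cancel, X.pi_one]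
        · intro k _
          rw [← X.pi_mul, mul_inv_cancel, X.pi_one]
        · intro k _
          rfl
    have hreal : (m : ℝ) = ∑ j ∈ B0 X Q, ‖X.s j i‖ ^ 2 := by
      have h1 : ∀ k, conj (X.s k i) * X.s k i = ((‖X.s k i‖ ^ 2 : ℝ) : ℂ) := by
        intro k
        rw [mul_comm, Complex.mul_conj, Complex.normSq_eq_norm_sq]
      have h2 : ((m : ℝ) : ℂ) = ((∑ j ∈ B0 X Q, ‖X.s j i‖ ^ 2 : ℝ) : ℂ) := by
        rw [Complex.ofReal_intCast, hm, hE, Finset.sum_congr rfl (fun k _ => h1 k),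
          ← Complex.ofReal_sum]
      exact_mod_cast h2
    rw [← hE, ← hm] at hI
    have h2 := dvd2 hQ hpp _ S hS hnS hI
    have h3 : 0 < m := by
      have h4 : ‖X.s X.o i‖ ^ 2 ≤ ∑ j ∈ B0 X Q, ‖X.s j i‖ ^ 2 :=
        Finset.single_le_sum (f := fun j => ‖X.s j i‖ ^ 2) (fun _ _ => sq_nonneg _) hoB
      have h5 : 0 < ‖X.s X.o i‖ ^ 2 := by
        rw [hso, Complex.norm_intCast]
        have : ((X.y i : ℤ) : ℝ) ≠ 0 := by exact_mod_cast hi
        positivity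
      have h6 : (0 : ℝ) < m := by rw [hreal]; linarith
      exact_mod_cast h6
    have h4 : ∑ j ∈ B0 X Q, ‖X.s j i‖ ^ 2 + ∑ j ∈ (B0 X Q)ᶜ, ‖X.s j i‖ ^ 2 = (p : ℝ) ^ 2 := by
      rw [Finset.sum_add_sum_compl, hnorm]
    have h5 : 0 ≤ ∑ j ∈ (B0 X Q)ᶜ, ‖X.s j i‖ ^ 2 := Finset.sum_nonneg (fun _ _ => sq_nonneg _)
    have h6 : m ≤ (p : ℤ) ^ 2 := by
      have : (m : ℝ) ≤ (p : ℝ) ^ 2 := by rw [hreal]; linarith
      exact_mod_cast this
    have h7 := eqp2 p m h3 h6 h2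
    have h8 : (m : ℝ) = (p : ℝ) ^ 2 := by rw [h7]; push_cast; rfl
    have h9 : ∑ j ∈ (B0 X Q)ᶜ, ‖X.s j i‖ ^ 2 = 0 := by linarith
    have h10 := (Finset.sum_eq_zero_iff_of_nonneg (fun _ _ => sq_nonneg _)).1 h9 j
      (Finset.mem_compl.2 (fun hc => (hBiff j).1 hc hj))
    exact norm_eq_zero.1 (pow_eq_zero_iff (two_ne_zero) |>.1 h10)
  refine ⟨hQ, hx, fun j hj => (hBcgr j ((hBiff j).2 hj)).2.1,
    fun j hj => (hBcgr j ((hBiff j).2 hj)).2.2.1,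
    fun j hj => (hBcgr j ((hBiff j).2 hj)).2.2.2, ?_, ?_, ?_⟩
  · intro j i hj hi
    rw [X.s_symm]
    exact hsup j i hj hi
  · intro j i hj hi h0
    obtain ⟨-, h1, -, h2⟩ := hBcgr j ((hBiff j).2 hj)
    have h3 := h2 i
    rw [h0, zero_sub] at h3
    have h4 : Q ((-((X.d j : ℤ) * X.y i) : ℤ) : ℂ) := by
      push_cast
      exact h3
    have h5 := (hQ.int_iff _).1 h4
    rw [dvd_neg] at h5
    rcases (Nat.prime_iff_prime_int.1 hpp).dvd_or_dvd h5 with h6 | h6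
    · exact h1 (by exact_mod_cast h6)
    · exact (hBcgr i ((hBiff i).2 hi)).2.2.1 h6
  · intro j hj
    have h1 := (hBiff j).2 hj
    unfold B0 at h1
    exact (Finset.mem_filter.1 h1).2

end Pool.Agent.Helper4.PQ0.BLK
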