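import Pool.Agent.Helper4.PQ0.Defs

/-! OS MODULE CGR (project of helper89). -/

set_option autoImplicit false

namespace Pool.Agent.Helper4.PQ0.CGR

open Pool.Agent.Helper4.PQ0
open Pool.Agent.Helper89.OS hiding PD Cx Blk B0 Orb StXA StXB StXC StXE StCGR StISO StBLK StAMG StHEC StSTL StMZZ StDRE StTSU
open Pool.Agent.Helper89.OC hiding Ks gX OB Lk StORB StTS2 StLKD StTAN

open Matrix ComplexConjugate Pool.Agent.Helper94.YF Pool.Agent.Helper94.YG

theorem soi {I : Type} [Fintype I] [DecidableEq I] {p a : ℕ} (X : PD I p a) (i : I) :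
    X.s X.o i = X.y i := by rw [X.s_symm, X.s_o]

theorem sumy {I : Type} [Fintype I] [DecidableEq I] {p a : ℕ} (X : PD I p a) :
    ∑ k, X.y k ^ 2 = (p : ℤ) ^ 2 := by
  have h := X.s_uni X.o X.o
  simp only [if_true, soi] at h
  have h2 : ((∑ k, X.y k ^ 2 : ℤ) : ℂ) = (((p : ℤ) ^ 2 : ℤ) : ℂ) := by
    push_cast
    rw [← h]
    apply Finset.sum_congr rfl
    intro k _
    simp [sq]
  exact_mod_cast h2

theorem hCGR : StCGR := by
  intro hR I _ _ p a X Q hQ hx j hj
  obtain ⟨w, hw1, hw2⟩ := X.con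
  have pp : Prime (p : ℤ) := Nat.prime_iff_prime_int.mp X.prime
  have hm : ¬ (p : ℤ) ∣ (X.m : ℤ) ^ 2 := by
    intro h
    exact X.cop (by exact_mod_cast pp.dvd_of_dvd_pow h)
  have hQm : ¬ Q ((X.m : ℂ) ^ 2) := by
    intro h
    apply hm
    rw [← hQ.int_iff]
    push_cast
    exact h
  have hC' : ∀ i, (X.m : ℂ) ^ 2 * X.y i = ∑ k, w i k * X.d k := by
    intro i
    have h := hw2 i X.o
    rw [soi, X.d_o] at h
    rw [h]
    simp [X.o_chi]
  have hdiff : ∀ i, Q ((∑ k, w i k * X.chi j k) - ∑ k, w i k * X.d k) := by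
    intro i
    rw [← Finset.sum_sub_distrib]
    apply Finset.sum_induction _ Q hQ.add hQ.zero
    intro k _
    rw [← mul_sub]
    exact hQ.mul _ _ (hw1 i k) (hj k)
  have hint : ∀ n : ℤ, IsIntegral ℤ (n : ℂ) := fun n => isIntegral_algebraMap
  have hnat : ∀ n : ℕ, IsIntegral ℤ (n : ℂ) := fun n => by
    have := hint n
    exact_mod_cast this
  have h4 : ∀ i, Q (X.s j i - X.d j * X.y i) := by
    intro i
    have h1 : (X.m : ℂ) ^ 2 * (X.s j i - X.d j * X.y i) =
        (X.d j : ℂ) * ((∑ k, w i k * X.chi j k) - ∑ k, w i k * X.d k) := by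
      rw [mul_sub, mul_sub, ← hw2 i j, ← hC' i]
      ring
    have h2 : Q ((X.m : ℂ) ^ 2 * (X.s j i - X.d j * X.y i)) := by
      rw [h1]
      exact hQ.mul _ _ (hnat _) (hdiff i)
    rcases hQ.prime _ _ ((hnat _).pow 2)
      ((X.s_int j i).sub ((hnat _).mul (hint _))) h2 with h | h
    · exact absurd h hQm
    · exact h
  -- the rational integer c
  have hdj : (X.d j : ℂ) ≠ 0 := by
    have := X.d_pos j
    exact_mod_cast this.ne'
  have hCo := hw2 X.o j
  rw [X.s_o] at hCo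
  have hCint : IsIntegral ℤ (∑ k, w X.o k * X.chi j k) :=
    IsIntegral.sum _ fun k _ => (hw1 _ _).mul (X.chi_int _ _)
  have hCq : (((X.m : ℚ) ^ 2 * X.y j / X.d j : ℚ) : ℂ) = ∑ k, w X.o k * X.chi j k := by
    push_cast
    rw [hCo]
    field_simp
  obtain ⟨c, hc⟩ := hR.2 ((X.m : ℚ) ^ 2 * X.y j / X.d j) (by rw [hCq]; exact hCint)
  have hcC : (c : ℂ) = ∑ k, w X.o k * X.chi j k := by
    rw [← hCq, ← hc]
    simp
  have hpc : ¬ (p : ℤ) ∣ c := by
    intro h
    have h1 := hdiff X.o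
    rw [← hcC, ← hC' X.o] at h1
    have h2 : Q ((c - (X.m : ℤ) ^ 2 * X.y X.o : ℤ) : ℂ) := by
      push_cast
      exact h1
    rw [hQ.int_iff] at h2
    have h3 : (p : ℤ) ∣ (X.m : ℤ) ^ 2 * X.y X.o := by
      have := dvd_sub h h2
      simpa using this
    rcases pp.dvd_or_dvd h3 with h4 | h4
    · exact hm h4
    · exact hx h4
  have hmy : (X.m : ℤ) ^ 2 * X.y j = X.d j * c := by
    have h1 : ((X.m : ℂ) ^ 2 * X.y j) = X.d j * c := by rw [hcC, hCo]
    exact_mod_cast h1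
  have hy0 : X.y j ≠ 0 := by
    intro h
    rw [h, mul_zero] at hmy
    have hd : (X.d j : ℤ) ≠ 0 := by
      have := X.d_pos j
      exact_mod_cast this.ne'
    rcases mul_eq_zero.mp hmy.symm with h1 | h1
    · exact hd h1
    · exact hpc (by rw [h1]; exact dvd_zero _)
  have hpy : ¬ (p : ℤ) ∣ X.y j := by
    intro h
    have hjo : j ≠ X.o := by
      rintro rfl
      exact hx h
    have h1 : (p : ℤ) ^ 2 ≤ X.y j ^ 2 := by
      have := Int.le_of_dvd (by positivity : 0 < X.y j ^ 2) (pow_dvd_pow_of_dvd h 2)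
      exact this
    have h2 : 0 < X.y X.o ^ 2 := by
      have : X.y X.o ≠ 0 := by
        intro h0
        exact hx (by rw [h0]; exact dvd_zero _)
      positivity
    have h3 : X.y j ^ 2 + X.y X.o ^ 2 ≤ ∑ k, X.y k ^ 2 := by
      rw [← Finset.sum_pair hjo (f := fun k => X.y k ^ 2)]
      exact Finset.sum_le_sum_of_subset_of_nonneg (Finset.subset_univ _) fun k _ _ => sq_nonneg _
    rw [sumy] at h3
    linarith
  refine ⟨hy0, ?_, hpy, h4⟩
  intro h
  have h1 : (p : ℤ) ∣ (X.m : ℤ) ^ 2 * X.y j := by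
    rw [hmy]
    exact Dvd.dvd.mul_right (by exact_mod_cast h) _
  rcases pp.dvd_or_dvd h1 with h2 | h2
  · exact hm h2
  · exact hpy h2

end Pool.Agent.Helper4.PQ0.CGR
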