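import Pool.Agent.Helper4.PQ0.Defs

/-! # Project OS (MP_2b6189_al), module DRE: the dimensions in the principal block -/

set_option autoImplicit false

namespace Pool.Agent.Helper4.PQ0.DRE

open Pool.Agent.Helper4.PQ0
open Pool.Agent.Helper89.OS hiding PD Cx Blk B0 Orb StXA StXB StXC StXE StCGR StISO StBLK StAMG StHEC StSTL StMZZ StDRE StTSU
open Pool.Agent.Helper89.OC hiding Ks gX OB Lk StORB StTS2 StLKD StTAN

open Matrix ComplexConjugate Pool.Agent.Helper94.YF Pool.Agent.Helper94.YG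

theorem hDRE : StDRE := by
  intro hSTL hHEC hMZZ I _ _ p X Q hB
  classical
  obtain ⟨-, -, hex, -, hg2, -, -⟩ := hMZZ I p X hB.x_nd
  have hsz : ∀ k, ∑ i, X.s k i * ((X.z i : ℤ) : ℂ) = ((X.d k : ℤ) : ℂ) := by
    intro k
    rw [X.sz k]
    push_cast
    rfl
  obtain ⟨h1, h2⟩ := hSTL hHEC I p X Q hB X.z (fun i => (X.d i : ℤ)) X.pi_z X.z_t
    (fun k _ => (hsz k).symm)
  have hdo : ((X.d X.o : ℕ) : ℤ) = 1 := by rw [X.d_o]; rfl
  have hA : ∀ j, X.y j ≠ 0 → X.t j = 1 → j ≠ X.o → ((p : ℤ) - X.y X.o) * X.d j =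
      (p * X.z X.o - 1) * X.y j + ((p : ℤ) - X.y X.o) * (p * X.z j) := by
    intro j hy ht hj
    have h := h1 j hy ht
    rw [if_neg hj] at h
    simp only [hdo] at h
    linear_combination -h
  have hC : ∀ j, X.y j ≠ 0 → X.t j ≠ 1 →
      ((p : ℤ) - X.y X.o) * X.d j = (p * X.z X.o - 1) * X.y j := by
    intro j hy ht
    have h := h2 j hy ht
    rw [hsz j] at h
    simp only [hdo] at h
    have h' : ((((p : ℤ) - X.y X.o) * X.d j : ℤ) : ℂ) = (((p * X.z X.o - 1) * X.y j : ℤ) : ℂ) := by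
      push_cast
      push_cast at h
      linear_combination h
    exact_mod_cast h'
  refine ⟨hA, hC, ?_, ?_⟩
  · have h := hHEC I p X (fun i => ((X.z i : ℤ) : ℂ)) (fun c i => by simp only [X.pi_z c i])
      (fun i hi => X.z_t i (by exact_mod_cast hi)) X.o
    simp only [hsz] at h
    rw [if_pos X.t_o] at h
    have h3 : ∀ k, X.s X.o k = (X.y k : ℂ) := fun k => by rw [X.s_symm, X.s_o]
    simp only [h3, hdo] at h
    have h4 : (((∑ k, if X.t k = 1 then X.y k * (X.d k : ℤ) else 0) : ℤ) : ℂ) =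
        ((p * X.z X.o + p - 1 : ℤ) : ℂ) := by
      push_cast
      push_cast at h
      rw [h]
      ring
    exact_mod_cast h4
  · intro h0
    obtain ⟨k, hk, htk⟩ := hex
    have h := hC k hk htk
    rw [h0, zero_mul] at h
    have hd : (0 : ℤ) < X.d k := by exact_mod_cast X.d_pos k
    have : (0 : ℤ) < ((p : ℤ) - X.y X.o) * X.d k := mul_pos (by omega) hd
    omega

end Pool.Agent.Helper4.PQ0.DRE
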