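import Pool.Agent.Helper4.PQ0.Defs

/-! # Project OS, module HEC: the Hecke relation -/

set_option autoImplicit false

namespace Pool.Agent.Helper4.PQ0.HEC

open Pool.Agent.Helper4.PQ0
open Pool.Agent.Helper89.OS hiding PD Cx Blk B0 Orb StXA StXB StXC StXE StCGR StISO StBLK StAMG StHEC StSTL StMZZ StDRE StTSU
open Pool.Agent.Helper89.OC hiding Ks gX OB Lk StORB StTS2 StLKD StTAN

open Matrix ComplexConjugate Pool.Agent.Helper94.YF Pool.Agent.Helper94.YG

theorem sum_val (q : ℕ) [NeZero q] (g : ℕ → ℂ) :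
    ∑ w : ZMod q, g w.val = ∑ i ∈ Finset.range q, g i := by
  refine Finset.sum_nbij' (fun w => w.val) (fun n => (n : ZMod q)) ?_ ?_ ?_ ?_ ?_
  · intro w _
    exact Finset.mem_range.2 (ZMod.val_lt w)
  · intro n _
    exact Finset.mem_univ _
  · intro w _
    exact ZMod.natCast_zmod_val w
  · intro n hn
    exact ZMod.val_natCast_of_lt (Finset.mem_range.1 hn)
  · intro w _
    rfl

open Classical in
theorem sum_root (q : ℕ) [NeZero q] (θ : ℂ) (h : θ ^ q = 1) :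
    ∑ w : ZMod q, θ ^ w.val = if θ = 1 then (q : ℂ) else 0 := by
  rw [sum_val q (fun n => θ ^ n)]
  split_ifs with h1
  · simp [h1]
  · have := geom_sum_mul θ q
    rw [h, sub_self] at this
    rcases mul_eq_zero.1 this with h2 | h2
    · exact h2
    · exact absurd (sub_eq_zero.1 h2) h1

theorem sum_split (q : ℕ) [Fact q.Prime] (g : ZMod q → ℂ) :
    ∑ w : ZMod q, g w = g 0 + ∑ u : (ZMod q)ˣ, g (u : ZMod q) := by
  rw [← Finset.add_sum_erase Finset.univ g (Finset.mem_univ (0 : ZMod q))]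
  congr 1
  symm
  refine Finset.sum_bij (fun u _ => (u : ZMod q)) ?_ ?_ ?_ ?_
  · intro u _
    exact Finset.mem_erase.2 ⟨u.ne_zero, Finset.mem_univ _⟩
  · intro u _ v _ h
    exact Units.ext h
  · intro w hw
    exact ⟨Units.mk0 w (Finset.mem_erase.1 hw).1, Finset.mem_univ _, rfl⟩
  · intro u _
    rfl

/-- `pi c` as a permutation -/
def piE {I : Type} [Fintype I] [DecidableEq I] {p a : ℕ} (X : PD I p a) (c : (ZMod (p ^ a))ˣ) :
    I ≃ I where
  toFun := X.pi c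
  invFun := X.pi c⁻¹
  left_inv i := by rw [← X.pi_mul, inv_mul_cancel, X.pi_one]
  right_inv i := by rw [← X.pi_mul, mul_inv_cancel, X.pi_one]

theorem hHEC : StHEC := by
  classical
  intro I _ _ p X f hf hft j
  have hp : p.Prime := X.prime
  have : Fact (p ^ 1).Prime := ⟨by rw [pow_one]; exact hp⟩
  have : NeZero (p ^ 1) := ⟨(Fact.out : (p ^ 1).Prime).ne_zero⟩
  have hp0 : (p : ℂ) ≠ 0 := by exact_mod_cast hp.ne_zero
  set F : I → ℂ := fun k => ∑ i, X.s k i * f i with hF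
  have hroot : ∀ k, ∑ w : ZMod (p ^ 1), X.t k ^ w.val = if X.t k = 1 then (p : ℂ) else 0 := by
    intro k
    rw [sum_root (p ^ 1) (X.t k) (X.t_pow k), pow_one]
  -- the double sum
  have h1 : (p : ℂ) * (∑ k, if X.t k = 1 then X.s j k * F k else 0) =
      ∑ w : ZMod (p ^ 1), ∑ k, X.t k ^ w.val * (X.s j k * F k) := by
    rw [Finset.sum_comm, Finset.mul_sum]
    refine Finset.sum_congr rfl fun k _ => ?_
    rw [← Finset.sum_mul, hroot k]
    split_ifs <;> ring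
  -- the term `w = 0`
  have h0 : ∑ k, X.t k ^ (0 : ZMod (p ^ 1)).val * (X.s j k * F k) = (p : ℂ) ^ 2 * f j := by
    have e1 : ∀ k, X.t k ^ (0 : ZMod (p ^ 1)).val * (X.s j k * F k) =
        ∑ i, f i * (X.s j k * X.s k i) := by
      intro k
      rw [ZMod.val_zero, pow_zero, one_mul, hF, Finset.mul_sum]
      refine Finset.sum_congr rfl fun i _ => ?_
      ring
    rw [Finset.sum_congr rfl fun k _ => e1 k, Finset.sum_comm]
    have e2 : ∀ i, ∑ k, f i * (X.s j k * X.s k i) =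
        (fun i' => if j = i' then (p : ℂ) ^ 2 * f i' else 0) (piE X (-1) i) := by
      intro i
      rw [← Finset.mul_sum, X.weil0 j i]
      change _ = if j = X.pi (-1) i then (p : ℂ) ^ 2 * f (X.pi (-1) i) else 0
      rw [hf]
      split_ifs <;> ring
    rw [Finset.sum_congr rfl fun i _ => e2 i,
      Equiv.sum_comp (piE X (-1)) (fun i' => if j = i' then (p : ℂ) ^ 2 * f i' else 0)]
    simp
  -- the units
  have hu : ∀ w : (ZMod (p ^ 1))ˣ,
      ∑ k, X.t k ^ (w : ZMod (p ^ 1)).val * (X.s j k * F k) =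
      (p : ℂ) * F j * X.t j ^ (-((w⁻¹ : (ZMod (p ^ 1))ˣ) : ZMod (p ^ 1))).val := by
    intro w
    have e1 : ∀ k, X.t k ^ (w : ZMod (p ^ 1)).val * (X.s j k * F k) =
        ∑ i, f i * (X.t k ^ (w : ZMod (p ^ 1)).val * (X.s j k * X.s k i)) := by
      intro k
      rw [hF, Finset.mul_sum, Finset.mul_sum]
      refine Finset.sum_congr rfl fun i _ => ?_
      ring
    rw [Finset.sum_congr rfl fun k _ => e1 k, Finset.sum_comm]
    have e2 : ∀ i, ∑ k, f i * (X.t k ^ (w : ZMod (p ^ 1)).val * (X.s j k * X.s k i)) =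
        (fun i' => (p : ℂ) * X.t j ^ (-((w⁻¹ : (ZMod (p ^ 1))ˣ) : ZMod (p ^ 1))).val *
          (X.s j i' * f i')) (piE X w⁻¹ i) := by
      intro i
      rw [← Finset.mul_sum, X.weil w j i]
      change _ = (p : ℂ) * X.t j ^ (-((w⁻¹ : (ZMod (p ^ 1))ˣ) : ZMod (p ^ 1))).val *
          (X.s j (X.pi w⁻¹ i) * f (X.pi w⁻¹ i))
      rw [hf]
      by_cases h : f i = 0
      · rw [h]
        ring
      · rw [hft i h, one_pow]
        ring
    rw [Finset.sum_congr rfl fun i _ => e2 i,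
      Equiv.sum_comp (piE X w⁻¹) (fun i' => (p : ℂ) *
        X.t j ^ (-((w⁻¹ : (ZMod (p ^ 1))ˣ) : ZMod (p ^ 1))).val * (X.s j i' * f i')),
      ← Finset.mul_sum]
    rw [hF]
    ring
  -- the sum over the units
  have h2 : ∑ w : (ZMod (p ^ 1))ˣ, X.t j ^ (-((w⁻¹ : (ZMod (p ^ 1))ˣ) : ZMod (p ^ 1))).val =
      (if X.t j = 1 then (p : ℂ) else 0) - 1 := by
    have e1 : ∑ w : (ZMod (p ^ 1))ˣ, X.t j ^ (-((w⁻¹ : (ZMod (p ^ 1))ˣ) : ZMod (p ^ 1))).val =
        ∑ w : (ZMod (p ^ 1))ˣ, X.t j ^ (w : ZMod (p ^ 1)).val := by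
      refine Eq.trans ?_ (Equiv.sum_comp
        ((Equiv.inv (ZMod (p ^ 1))ˣ).trans (Equiv.neg (ZMod (p ^ 1))ˣ))
        (fun w : (ZMod (p ^ 1))ˣ => X.t j ^ (w : ZMod (p ^ 1)).val))
      refine Finset.sum_congr rfl fun w _ => ?_
      change _ = X.t j ^ (((-(w⁻¹) : (ZMod (p ^ 1))ˣ)) : ZMod (p ^ 1)).val
      rw [Units.val_neg]
    rw [e1, ← hroot j, sum_split (p ^ 1) (fun w => X.t j ^ w.val), ZMod.val_zero, pow_zero]
    ring
  have h3 : (p : ℂ) * (∑ k, if X.t k = 1 then X.s j k * F k else 0) =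
      (p : ℂ) * ((p : ℂ) * f j + ((if X.t j = 1 then (p : ℂ) else 0) - 1) * F j) := by
    rw [h1, sum_split (p ^ 1) (fun w => ∑ k, X.t k ^ w.val * (X.s j k * F k)), h0,
      Finset.sum_congr rfl fun w _ => hu w, ← Finset.mul_sum, h2]
    ring
  exact mul_left_cancel₀ hp0 h3

end Pool.Agent.Helper4.PQ0.HEC
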