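import Pool.Agent.Helper4.PQ0.Defs

/-!
# Module ISO of project OS: isolating the principal block
-/

set_option autoImplicit false

namespace Pool.Agent.Helper4.PQ0.ISO

open Pool.Agent.Helper4.PQ0
open Pool.Agent.Helper89.OS hiding PD Cx Blk B0 Orb StXA StXB StXC StXE StCGR StISO StBLK StAMG StHEC StSTL StMZZ StDRE StTSU
open Pool.Agent.Helper89.OC hiding Ks gX OB Lk StORB StTS2 StLKD StTAN

open Matrix ComplexConjugate Pool.Agent.Helper94.YF Pool.Agent.Helper94.YG

/-- integral combinations of the characters -/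
private def Good {I : Type} [Fintype I] [DecidableEq I] {p a : ℕ} (X : PD I p a)
    (h : I → ℂ) : Prop :=
  ∃ v : I → ℂ, (∀ k, IsIntegral ℤ (v k)) ∧ ∀ j, h j = ∑ k, v k * X.chi j k

private lemma good_chi {I : Type} [Fintype I] [DecidableEq I] {p a : ℕ} (X : PD I p a) (k : I) :
    Good X (fun j => X.chi j k) := by
  refine ⟨fun l => if l = k then 1 else 0, fun l => ?_, fun j => ?_⟩
  · show IsIntegral ℤ (if l = k then (1 : ℂ) else 0)
    split_ifs
    · exact isIntegral_one
    · exact isIntegral_zero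
  · simp

private lemma good_const {I : Type} [Fintype I] [DecidableEq I] {p a : ℕ} (X : PD I p a) (c : ℂ)
    (hc : IsIntegral ℤ c) : Good X (fun _ => c) := by
  refine ⟨fun l => if l = X.o then c else 0, fun l => ?_, fun j => ?_⟩
  · show IsIntegral ℤ (if l = X.o then c else 0)
    split_ifs
    · exact hc
    · exact isIntegral_zero
  · simp [X.chi_o]

private lemma good_sub {I : Type} [Fintype I] [DecidableEq I] {p a : ℕ} (X : PD I p a)
    {f g : I → ℂ} (hf : Good X f) (hg : Good X g) : Good X (fun j => f j - g j) := by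
  obtain ⟨v, hv, hfv⟩ := hf
  obtain ⟨w, hw, hgw⟩ := hg
  refine ⟨fun k => v k - w k, fun k => (hv k).sub (hw k), fun j => ?_⟩
  show f j - g j = _
  rw [hfv j, hgw j, ← Finset.sum_sub_distrib]
  refine Finset.sum_congr rfl fun k _ => ?_
  ring

private lemma good_mul {I : Type} [Fintype I] [DecidableEq I] {p a : ℕ} (X : PD I p a)
    {f g : I → ℂ} (hf : Good X f) (hg : Good X g) : Good X (fun j => f j * g j) := by
  obtain ⟨v, hv, hfv⟩ := hf
  obtain ⟨w, hw, hgw⟩ := hg
  refine ⟨fun u => ∑ k, ∑ l, v k * w l * (X.N k l u : ℂ), fun u => ?_, fun j => ?_⟩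
  · refine IsIntegral.sum _ fun k _ => IsIntegral.sum _ fun l _ => ?_
    exact ((hv k).mul (hw l)).mul (by simpa using (isIntegral_algebraMap (R := ℤ) (A := ℂ) (x := (X.N k l u : ℤ))))
  · show f j * g j = _
    rw [hfv j, hgw j, Finset.sum_mul_sum]
    have h1 : ∀ k l, (v k * X.chi j k) * (w l * X.chi j l)
        = ∑ u, v k * w l * (X.N k l u : ℂ) * X.chi j u := by
      intro k l
      have h2 := X.chi_mul j k l
      calc (v k * X.chi j k) * (w l * X.chi j l) = v k * w l * (X.chi j k * X.chi j l) := by ring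
        _ = v k * w l * ∑ u, (X.N k l u : ℂ) * X.chi j u := by rw [h2]
        _ = _ := by
          rw [Finset.mul_sum]
          refine Finset.sum_congr rfl fun u _ => ?_
          ring
    simp_rw [h1]
    simp_rw [Finset.sum_mul]
    rw [Finset.sum_comm_cycle]

private lemma good_prod {I : Type} [Fintype I] [DecidableEq I] {p a : ℕ} (X : PD I p a)
    {J : Type} (T : Finset J) (f : J → I → ℂ) (hf : ∀ t ∈ T, Good X (f t)) :
    Good X (fun j => ∏ t ∈ T, f t j) := by
  classical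
  induction T using Finset.induction_on with
  | empty =>
    simpa using good_const X 1 isIntegral_one
  | insert t T ht ih =>
    have h1 := good_mul X (hf t (Finset.mem_insert_self t T))
      (ih fun s hs => hf s (Finset.mem_insert_of_mem hs))
    have h2 : (fun j => ∏ s ∈ insert t T, f s j) = fun j => f t j * ∏ s ∈ T, f s j := by
      funext j
      rw [Finset.prod_insert ht]
    rw [h2]
    exact h1

private lemma good_pow {I : Type} [Fintype I] [DecidableEq I] {p a : ℕ} (X : PD I p a)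
    {f : I → ℂ} (hf : Good X f) (r : ℕ) : Good X (fun j => f j ^ r) := by
  induction r with
  | zero => simpa using good_const X 1 isIntegral_one
  | succ r ih =>
    have h1 := good_mul X ih hf
    simpa [pow_succ] using h1

private lemma good_nhat {I : Type} [Fintype I] [DecidableEq I] {p a : ℕ} (X : PD I p a)
    {h : I → ℂ} (hh : Good X h) (i i' : I) :
    IsIntegral ℤ ((X.m : ℂ) ^ 2 / (p : ℂ) ^ 2 * ∑ j, conj (X.s j i) * h j * X.s j i') := by
  obtain ⟨v, hv, hhv⟩ := hh
  have h1 : (X.m : ℂ) ^ 2 / (p : ℂ) ^ 2 * ∑ j, conj (X.s j i) * h j * X.s j i'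
      = ∑ k, v k * ((X.m : ℂ) ^ 2 / (p : ℂ) ^ 2 *
        ∑ j, conj (X.s j i) * X.chi j k * X.s j i') := by
    have h2 : ∀ j, conj (X.s j i) * h j * X.s j i'
        = ∑ k, v k * (conj (X.s j i) * X.chi j k * X.s j i') := by
      intro j
      rw [hhv j, Finset.mul_sum, Finset.sum_mul]
      refine Finset.sum_congr rfl fun k _ => ?_
      ring
    simp_rw [h2]
    rw [Finset.sum_comm, Finset.mul_sum]
    refine Finset.sum_congr rfl fun k _ => ?_
    rw [← Finset.mul_sum]
    ring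
  rw [h1]
  exact IsIntegral.sum _ fun k _ => (hv k).mul (X.nhat k i i')

private lemma Q_neg {p : ℕ} {Q : ℂ → Prop} (hQ : PI p Q) {x : ℂ} (hx : Q x) : Q (-x) := by
  have h1 := hQ.mul (-1) x isIntegral_one.neg hx
  simpa using h1

private lemma nQ_prod {p : ℕ} {Q : ℂ → Prop} (hQ : PI p Q) (h1 : ¬ Q 1) {J : Type} (T : Finset J)
    (f : J → ℂ) (hi : ∀ t ∈ T, IsIntegral ℤ (f t)) (hn : ∀ t ∈ T, ¬ Q (f t)) :
    ¬ Q (∏ t ∈ T, f t) := by
  classical
  induction T using Finset.induction_on with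
  | empty => simpa using h1
  | insert t T ht ih =>
    rw [Finset.prod_insert ht]
    intro h2
    rcases hQ.prime _ _ (hi t (Finset.mem_insert_self t T))
      (IsIntegral.prod _ fun s hs => hi s (Finset.mem_insert_of_mem hs)) h2 with h3 | h3
    · exact hn t (Finset.mem_insert_self t T) h3
    · exact ih (fun s hs => hi s (Finset.mem_insert_of_mem hs))
        (fun s hs => hn s (Finset.mem_insert_of_mem hs)) h3

private lemma Q_prod_sub {p : ℕ} {Q : ℂ → Prop} (hQ : PI p Q) {J : Type} (T : Finset J)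
    (f g : J → ℂ) (hf : ∀ t ∈ T, IsIntegral ℤ (f t)) (hg : ∀ t ∈ T, IsIntegral ℤ (g t))
    (hn : ∀ t ∈ T, Q (f t - g t)) :
    Q (∏ t ∈ T, f t - ∏ t ∈ T, g t) := by
  classical
  induction T using Finset.induction_on with
  | empty => simpa using hQ.zero
  | insert t T ht ih =>
    rw [Finset.prod_insert ht, Finset.prod_insert ht]
    have h3 := ih (fun s hs => hf s (Finset.mem_insert_of_mem hs))
      (fun s hs => hg s (Finset.mem_insert_of_mem hs))
      (fun s hs => hn s (Finset.mem_insert_of_mem hs))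
    have h4 := hQ.mul (f t) _ (hf t (Finset.mem_insert_self t T)) h3
    have h5 := hQ.mul (∏ s ∈ T, g s) _
      (IsIntegral.prod _ fun s hs => hg s (Finset.mem_insert_of_mem hs))
      (hn t (Finset.mem_insert_self t T))
    have h6 := hQ.add _ _ h4 h5
    have h7 : f t * ∏ s ∈ T, f s - g t * ∏ s ∈ T, g s
        = f t * (∏ s ∈ T, f s - ∏ s ∈ T, g s) + (∏ s ∈ T, g s) * (f t - g t) := by ring
    rw [h7]
    exact h6

private lemma nQ_pow {p : ℕ} {Q : ℂ → Prop} (hQ : PI p Q) (h1 : ¬ Q 1) {x : ℂ}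
    (hx : IsIntegral ℤ x) (hn : ¬ Q x) (r : ℕ) : ¬ Q (x ^ r) := by
  induction r with
  | zero => simpa using h1
  | succ r ih =>
    rw [pow_succ]
    intro h2
    rcases hQ.prime _ _ (hx.pow r) hx h2 with h3 | h3
    · exact ih h3
    · exact hn h3

/-- Module ISO. -/
theorem hISO : StISO := by
  classical
  intro I _ _ p a X Q hQ i i'
  have hp1 : ¬ Q 1 := by
    intro h
    have h2 : Q ((1 : ℤ) : ℂ) := by simpa using h
    have h3 := (hQ.int_iff 1).1 h2
    have h4 : p ∣ 1 := by exact_mod_cast h3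
    exact X.prime.one_lt.ne' (Nat.dvd_one.1 h4)
  have hp0 : (p : ℂ) ≠ 0 := by exact_mod_cast X.prime.ne_zero
  -- membership in `B0`
  have hB : ∀ j, j ∈ B0 X Q ↔ ∀ k, Q (X.chi j k - X.d k) := by
    intro j
    simp [B0]
  have hd : ∀ k, IsIntegral ℤ ((X.d k : ℕ) : ℂ) := by
    intro k
    simpa using (isIntegral_algebraMap (R := ℤ) (A := ℂ) (x := (X.d k : ℤ)))
  have hex : ∀ j' : I, ∃ k, j' ∉ B0 X Q → ¬ Q (X.chi j' k - X.d k) := by
    intro j'
    by_cases h : j' ∈ B0 X Q
    · exact ⟨X.o, fun h' => absurd h h'⟩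
    · rw [hB] at h
      push Not at h
      obtain ⟨k, hk⟩ := h
      exact ⟨k, fun _ => hk⟩
  choose K hK using hex
  set T : Finset I := Finset.univ \ B0 X Q with hT
  have hTmem : ∀ j, j ∈ T ↔ j ∉ B0 X Q := by
    intro j
    simp [hT]
  set f : I → ℂ := fun j => ∏ j' ∈ T, (X.chi j (K j') - X.chi j' (K j')) with hf
  have hfint : ∀ j, IsIntegral ℤ (f j) := fun j =>
    IsIntegral.prod _ fun j' _ => (X.chi_int _ _).sub (X.chi_int _ _)
  have hfgood : Good X f :=
    good_prod X T (fun j' j => X.chi j (K j') - X.chi j' (K j')) fun j' _ =>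
      good_sub X (good_chi X (K j')) (good_const X _ (X.chi_int _ _))
  have hf0 : ∀ j, j ∉ B0 X Q → f j = 0 := by
    intro j hj
    exact Finset.prod_eq_zero ((hTmem j).2 hj) (by simp)
  set c : ℂ := f X.o with hc
  have hcint : IsIntegral ℤ c := hfint X.o
  have hcQ : ¬ Q c := by
    refine nQ_prod hQ hp1 T _ (fun j' _ => (X.chi_int _ _).sub (X.chi_int _ _)) ?_
    intro j' hj' h2
    have h3 := Q_neg hQ h2
    rw [X.o_chi] at h3
    refine hK j' ((hTmem j').1 hj') ?_
    have h4 : -((X.d (K j') : ℂ) - X.chi j' (K j')) = X.chi j' (K j') - X.d (K j') := by ring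
    rw [h4] at h3
    exact h3
  have hfc : ∀ j, j ∈ B0 X Q → Q (f j - c) := by
    intro j hj
    refine Q_prod_sub hQ T _ _ (fun j' _ => (X.chi_int _ _).sub (X.chi_int _ _))
      (fun j' _ => (X.chi_int _ _).sub (X.chi_int _ _)) ?_
    intro j' _
    have h1 := (hB j).1 hj (K j')
    have h2 : X.chi j (K j') - X.chi j' (K j') - (X.chi X.o (K j') - X.chi j' (K j'))
        = X.chi j (K j') - X.d (K j') := by
      rw [X.o_chi]
      ring
    rw [h2]
    exact h1
  have hpw : ∀ j, ∃ (n : ℕ) (s : ℂ), j ∈ B0 X Q → (0 < n ∧ IsIntegral ℤ s ∧ ¬ Q s ∧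
      IsIntegral ℤ (s * (f j - c) ^ n / (p : ℂ) ^ 2)) := by
    intro j
    by_cases h : j ∈ B0 X Q
    · obtain ⟨n, s, h1⟩ := hQ.pw _ (hfc j h)
      exact ⟨n, s, fun _ => h1⟩
    · exact ⟨0, 0, fun h' => absurd h' h⟩
  choose n s hns using hpw
  set r : ℕ := ∑ j ∈ B0 X Q, n j with hr
  have hnr : ∀ j ∈ B0 X Q, n j ≤ r := fun j hj =>
    Finset.single_le_sum (f := n) (fun _ _ => Nat.zero_le _) hj
  have hcon : ∀ j l, IsIntegral ℤ (conj (X.s j l)) := by
    intro j l
    rw [X.conj_s]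
    exact X.s_int _ _
  -- the function `h`
  have hgood : Good X (fun j => c ^ r - (c - f j) ^ r) :=
    good_sub X (good_const X _ (hcint.pow r)) (good_pow X (good_sub X (good_const X _ hcint) hfgood) r)
  have hI0 := good_nhat X hgood i i'
  have hsum : ∑ j, conj (X.s j i) * (c ^ r - (c - f j) ^ r) * X.s j i'
      = ∑ j ∈ B0 X Q, conj (X.s j i) * (c ^ r - (c - f j) ^ r) * X.s j i' := by
    symm
    refine Finset.sum_subset (Finset.subset_univ _) ?_
    intro j _ hj
    rw [hf0 j hj]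
    simp
  rw [hsum] at hI0
  set σ : ℂ := ∏ j ∈ B0 X Q, s j with hσ
  have hσint : IsIntegral ℤ σ := IsIntegral.prod _ fun j hj => (hns j hj).2.1
  have hσQ : ¬ Q σ := nQ_prod hQ hp1 _ _ (fun j hj => (hns j hj).2.1) fun j hj => (hns j hj).2.2.1
  have hmint : IsIntegral ℤ ((X.m : ℕ) : ℂ) := by
    simpa using (isIntegral_algebraMap (R := ℤ) (A := ℂ) (x := (X.m : ℤ)))
  have hmQ : ¬ Q ((X.m : ℕ) : ℂ) := by
    intro h
    have h2 : Q (((X.m : ℕ) : ℤ) : ℂ) := by simpa using h
    have h3 := (hQ.int_iff _).1 h2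
    exact X.cop (by exact_mod_cast h3)
  -- `σ * (c - f j) ^ r / p ^ 2` is integral
  have hloc : ∀ j ∈ B0 X Q, IsIntegral ℤ (σ * (c - f j) ^ r / (p : ℂ) ^ 2) := by
    intro j hj
    obtain ⟨_, _, _, h4⟩ := hns j hj
    have h5 : σ * (c - f j) ^ r / (p : ℂ) ^ 2
        = (-1) ^ r * ((∏ l ∈ (B0 X Q).erase j, s l) * ((s j * (f j - c) ^ n j / (p : ℂ) ^ 2) *
          (f j - c) ^ (r - n j))) := by
      have h6 : σ = s j * ∏ l ∈ (B0 X Q).erase j, s l := by
        rw [hσ, Finset.mul_prod_erase _ _ hj]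
      have h7 : (c - f j) ^ r = (-1) ^ r * ((f j - c) ^ n j * (f j - c) ^ (r - n j)) := by
        rw [← pow_add, Nat.add_sub_cancel' (hnr j hj), ← mul_pow]
        congr 1
        ring
      rw [h6, h7]
      ring
    rw [h5]
    refine (isIntegral_one.neg.pow r).mul (IsIntegral.mul ?_ (h4.mul ?_))
    · exact IsIntegral.prod _ fun l hl => (hns l (Finset.mem_of_mem_erase hl)).2.1
    · exact ((hfint j).sub hcint).pow _
  refine ⟨σ * (X.m : ℂ) ^ 2 * c ^ r, (hσint.mul (hmint.pow 2)).mul (hcint.pow r), ?_, ?_⟩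
  · intro h
    rcases hQ.prime _ _ (hσint.mul (hmint.pow 2)) (hcint.pow r) h with h1 | h1
    · rcases hQ.prime _ _ hσint (hmint.pow 2) h1 with h2 | h2
      · exact hσQ h2
      · exact nQ_pow hQ hp1 hmint hmQ 2 h2
    · exact nQ_pow hQ hp1 hcint hcQ r h1
  · have h1 : σ * (X.m : ℂ) ^ 2 * c ^ r * (∑ j ∈ B0 X Q, conj (X.s j i) * X.s j i') / (p : ℂ) ^ 2
        = σ * ((X.m : ℂ) ^ 2 / (p : ℂ) ^ 2 *
          ∑ j ∈ B0 X Q, conj (X.s j i) * (c ^ r - (c - f j) ^ r) * X.s j i')
          + (X.m : ℂ) ^ 2 * ∑ j ∈ B0 X Q, (conj (X.s j i) * X.s j i') *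
            (σ * (c - f j) ^ r / (p : ℂ) ^ 2) := by
      have h2 : ∑ j ∈ B0 X Q, conj (X.s j i) * (c ^ r - (c - f j) ^ r) * X.s j i'
          = c ^ r * (∑ j ∈ B0 X Q, conj (X.s j i) * X.s j i')
            - ∑ j ∈ B0 X Q, (conj (X.s j i) * X.s j i') * (c - f j) ^ r := by
        rw [Finset.mul_sum, ← Finset.sum_sub_distrib]
        refine Finset.sum_congr rfl fun j _ => ?_
        ring
      have h3 : ∑ j ∈ B0 X Q, (conj (X.s j i) * X.s j i') * (σ * (c - f j) ^ r / (p : ℂ) ^ 2)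
          = σ / (p : ℂ) ^ 2 * ∑ j ∈ B0 X Q, (conj (X.s j i) * X.s j i') * (c - f j) ^ r := by
        rw [Finset.mul_sum]
        refine Finset.sum_congr rfl fun j _ => ?_
        ring
      rw [h2, h3]
      ring
    rw [h1]
    refine (hσint.mul hI0).add ((hmint.pow 2).mul (IsIntegral.sum _ fun j hj => ?_))
    exact ((hcon j i).mul (X.s_int j i')).mul (hloc j hj)

end Pool.Agent.Helper4.PQ0.ISO
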