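import Pool.Agent.Helper4.PQ0.Defs

/-!
# Project OC, module LKD: the sum over the objects with nontrivial p-part of the twist
-/

set_option autoImplicit false

namespace Pool.Agent.Helper4.PQ0.LKD

open Pool.Agent.Helper4.PQ0
open Pool.Agent.Helper89.OS hiding PD Cx Blk B0 Orb StXA StXB StXC StXE StCGR StISO StBLK StAMG StHEC StSTL StMZZ StDRE StTSU
open Pool.Agent.Helper89.OC hiding Ks gX OB Lk StORB StTS2 StLKD StTAN

open Matrix ComplexConjugate Pool.Agent.Helper94.YF Pool.Agent.Helper94.YG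

section mats
variable {L : ℕ}

theorem s2_val (b : ZMod L) : (s2 b : SL L).1 =
    !![1, -b; 0, 1] * !![1, 0; b, 1] * !![1, -b; 0, 1] := rfl

theorem s2_00 (b : ZMod L) (hb : b * b = b) : (s2 b : SL L) 0 0 = 1 - b := by
  show (s2 b : SL L).1 0 0 = 1 - b
  rw [s2_val]
  simp [Matrix.mul_apply, Fin.sum_univ_two]
  linear_combination -hb

theorem s2_10 (b : ZMod L) : (s2 b : SL L) 1 0 = b := by
  show (s2 b : SL L).1 1 0 = b
  rw [s2_val]
  simp [Matrix.mul_apply, Fin.sum_univ_two]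

theorem Us2_00 (x b : ZMod L) (hb : b * b = b) : (U x * s2 b : SL L) 0 0 = 1 - b + x * b := by
  show ((U x : SL L).1 * (s2 b : SL L).1) 0 0 = _
  have h1 : (s2 b : SL L).1 0 0 = 1 - b := s2_00 b hb
  have h2 : (s2 b : SL L).1 1 0 = b := s2_10 b
  have h3 : (U x : SL L).1 = !![1, x; 0, 1] := rfl
  rw [Matrix.mul_apply, Fin.sum_univ_two, h1, h2, h3]
  simp

theorem Us2_10 (x b : ZMod L) : (U x * s2 b : SL L) 1 0 = b := by
  show ((U x : SL L).1 * (s2 b : SL L).1) 1 0 = _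
  have h2 : (s2 b : SL L).1 1 0 = b := s2_10 b
  have h3 : (U x : SL L).1 = !![1, x; 0, 1] := rfl
  rw [Matrix.mul_apply, Fin.sum_univ_two, h2, h3]
  simp

theorem SU (x : ZMod L) : (Sm : SL L) * U x = Lo (-x) * Sm := by
  apply Subtype.ext
  show !![(0 : ZMod L), -1; 1, 0] * !![1, x; 0, 1] = !![1, 0; -x, 1] * !![0, -1; 1, 0]
  ext i k
  fin_cases i <;> fin_cases k <;>
    simp [Matrix.mul_apply, Fin.sum_univ_two]

end mats

section
variable {I : Type} [Fintype I] [DecidableEq I] (Z : CentreRep I)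

theorem unit_row' (k V : I) : ∑ t, Z.rho Sm k t * conj (Z.rho Sm V t) = if k = V then 1 else 0 := by
  have h := mul_eq_one_comm.mp (Z.unitary Sm)
  have h2 := congrFun (congrFun h k) V
  rw [Matrix.mul_apply, Matrix.one_apply] at h2
  simpa [Matrix.conjTranspose_apply] using h2

/-- the entry of `rho (Lo (-x))` -/
theorem lo_entry (hU : ∀ z, Z.rho (U z) = Matrix.diagonal (Z.tw z)) (x : ZMod Z.L) (i k : I) :
    ∑ j, Z.rho Sm i j * Z.tw x j * conj (Z.rho Sm k j) = Z.rho (Lo (-x)) i k := by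
  have h1 : Z.rho Sm * Z.rho (U x) * (Z.rho Sm)ᴴ = Z.rho (Lo (-x)) := by
    rw [← map_mul, SU, map_mul, mul_assoc, mul_eq_one_comm.mp (Z.unitary Sm), mul_one]
  rw [← h1, hU, Matrix.mul_apply]
  refine Finset.sum_congr rfl fun j _ => ?_
  rw [Matrix.mul_diagonal, Matrix.conjTranspose_apply]
  rfl

theorem sum_ne {P : ℕ} [Fact P.Prime] (T : ZMod P → ℂ) :
    ∑ x ∈ Finset.univ.erase (0 : ZMod P), T (-x⁻¹) = ∑ x ∈ Finset.univ.erase (0 : ZMod P), T x := by
  refine Finset.sum_nbij' (fun x => -x⁻¹) (fun x => -x⁻¹) ?_ ?_ ?_ ?_ ?_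
  · intro x hx
    have hx' : x ≠ 0 := (Finset.mem_erase.mp hx).1
    exact Finset.mem_erase.mpr ⟨neg_ne_zero.mpr (inv_ne_zero hx'), Finset.mem_univ _⟩
  · intro x hx
    have hx' : x ≠ 0 := (Finset.mem_erase.mp hx).1
    exact Finset.mem_erase.mpr ⟨neg_ne_zero.mpr (inv_ne_zero hx'), Finset.mem_univ _⟩
  · intro x _
    simp [inv_neg]
  · intro x _
    simp [inv_neg]
  · intro x _
    rfl

theorem geo {P : ℕ} [NeZero P] (T : ZMod P → ℂ) (hadd : ∀ x y, T (x + y) = T x * T y)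
    (hone : T 1 = 1 → ∀ x, T x = 1) : ∑ x, T x = if T 1 = 1 then (P : ℂ) else 0 := by
  split_ifs with h
  · rw [Finset.sum_congr rfl fun x _ => hone h x]
    simp [ZMod.card]
  · have h1 : ∑ x, T (x + 1) = ∑ x, T x :=
      Fintype.sum_equiv (Equiv.addRight (1 : ZMod P)) _ _ (fun x => rfl)
    simp only [hadd, ← Finset.sum_mul] at h1
    have h2 : (∑ x, T x) * (T 1 - 1) = 0 := by linear_combination h1
    rcases mul_eq_zero.mp h2 with h3 | h3
    · exact h3
    · exact absurd (by linear_combination h3) h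

/-- the main computation -/
theorem main (hF : StFUS) (hD : StDUA) {P : ℕ} (hP : P.Prime) (b : ZMod Z.L) (hb : b * b = b)
    (j : ZMod P → ZMod Z.L) (hj : JH Z.L P b j) (i : I) (hi : i ≠ Z.o) :
    (P : ℂ) * ∑ k, (if Z.tw b k = 1 then 0 else Z.rho Sm Z.o k * conj (Z.rho Sm i k)) =
      -(Z.rho (s2 b) i Z.o * (if Z.tw b i = 1 then (P : ℂ) - 1 else -1)) := by
  obtain ⟨hU, -, hadd, hzero, -, htwo, -, -, hsym, -, hcol⟩ := hF hD I Z
  have : Fact P.Prime := ⟨hP⟩
  have hbj : ∀ x, b * j x = j x := by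
    intro x
    have := hj.mul 1 x
    rw [one_mul, hj.one] at this
    exact this.symm
  have hneg : ∀ x, j (-x) = -j x := by
    intro x
    have h := hj.add x (-x)
    rw [add_neg_cancel, hj.zero] at h
    linear_combination -h
  -- powers
  have hnat : ∀ (k : ℕ) (l : I), Z.tw ((k : ZMod Z.L) * b) l = Z.tw b l ^ k := by
    intro k l
    induction k with
    | zero => simp [hzero]
    | succ k ih =>
      rw [Nat.cast_succ, add_mul, one_mul, hadd, ih, pow_succ]
  have hTadd : ∀ (l : I) (x y : ZMod P), Z.tw (j (x + y)) l = Z.tw (j x) l * Z.tw (j y) l := by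
    intro l x y
    rw [hj.add, hadd]
  have hT0 : ∀ l, Z.tw (j 0) l = 1 := by
    intro l
    rw [hj.zero, hzero]
  have hgeo : ∀ l, ∑ x, Z.tw (j x) l = if Z.tw b l = 1 then (P : ℂ) else 0 := by
    intro l
    have h := geo (fun x => Z.tw (j x) l) (hTadd l) (by
      intro h1 x
      simp only [hj.one] at h1
      show Z.tw (j x) l = 1
      rw [hj.val, hnat, h1, one_pow])
    simpa only [hj.one] using h
  -- nonzero w
  have hw : ∀ w : ZMod P, w ≠ 0 → ∑ k, Z.rho Sm Z.o k * Z.tw (j w) k * conj (Z.rho Sm i k) =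
      Z.tw (j (-w⁻¹)) i * Z.rho (s2 b) i Z.o := by
    intro w hw0
    rw [lo_entry Z hU, hsym]
    have hjj : j w * j w⁻¹ = b := by
      rw [← hj.mul, mul_inv_cancel₀ hw0, hj.one]
    have hc : ((1 - b) - j w) * ((1 - b) - j w⁻¹) = 1 := by
      linear_combination hjj + hb + hbj w + hbj w⁻¹
    have h1 := hcol (U (j (-w⁻¹)) * s2 b) (Lo (-(j w)))
      ⟨(1 - b) - j w, (1 - b) - j w⁻¹, hc, by rw [mul_comm]; exact hc⟩
      (by
        rw [Us2_00 _ _ hb]
        show (1 : ZMod Z.L) = ((1 - b) - j w) * (1 - b + j (-w⁻¹) * b)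
        rw [hneg]
        linear_combination -hc + ((1 - b) - j w) * hbj w⁻¹)
      (by
        rw [Us2_10]
        show -(j w) = ((1 - b) - j w) * b
        linear_combination hb + hbj w) i
    rw [h1, map_mul, hU, Matrix.diagonal_mul]
  have h0 : ∑ k, Z.rho Sm Z.o k * conj (Z.rho Sm i k) = 0 := by
    rw [unit_row', if_neg (Ne.symm hi)]
  have hsum : ∑ w : ZMod P, ∑ k, Z.rho Sm Z.o k * Z.tw (j w) k * conj (Z.rho Sm i k) =
      ((if Z.tw b i = 1 then (P : ℂ) else 0) - 1) * Z.rho (s2 b) i Z.o := by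
    rw [← Finset.add_sum_erase Finset.univ _ (Finset.mem_univ (0 : ZMod P))]
    have e0 : ∑ k, Z.rho Sm Z.o k * Z.tw (j 0) k * conj (Z.rho Sm i k) = 0 := by
      simp only [hT0, mul_one]
      exact h0
    rw [e0, zero_add, Finset.sum_congr rfl fun w hw' => hw w (Finset.mem_erase.mp hw').1,
      ← Finset.sum_mul, sum_ne (fun x => Z.tw (j x) i)]
    congr 1
    have h := Finset.add_sum_erase Finset.univ (fun x => Z.tw (j x) i) (Finset.mem_univ (0 : ZMod P))
    simp only [hT0, hgeo] at h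
    linear_combination h
  have hswap : ∑ w : ZMod P, ∑ k, Z.rho Sm Z.o k * Z.tw (j w) k * conj (Z.rho Sm i k) =
      (P : ℂ) * ∑ k, (if Z.tw b k = 1 then Z.rho Sm Z.o k * conj (Z.rho Sm i k) else 0) := by
    rw [Finset.sum_comm, Finset.mul_sum]
    refine Finset.sum_congr rfl fun k _ => ?_
    have : ∑ w : ZMod P, Z.rho Sm Z.o k * Z.tw (j w) k * conj (Z.rho Sm i k) =
        Z.rho Sm Z.o k * conj (Z.rho Sm i k) * ∑ w : ZMod P, Z.tw (j w) k := by
      rw [Finset.mul_sum]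
      exact Finset.sum_congr rfl fun w _ => by ring
    rw [this, hgeo]
    split_ifs
    · ring
    · ring
  have hsplit : ∑ k, (if Z.tw b k = 1 then 0 else Z.rho Sm Z.o k * conj (Z.rho Sm i k)) =
      -∑ k, (if Z.tw b k = 1 then Z.rho Sm Z.o k * conj (Z.rho Sm i k) else 0) := by
    rw [eq_neg_iff_add_eq_zero, ← Finset.sum_add_distrib]
    refine (Finset.sum_congr rfl fun k _ => ?_).trans h0
    split_ifs <;> ring
  rw [hsplit, mul_neg, ← hswap, hsum]
  split_ifs <;> ring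

end

theorem hLKD : StLKD := by
  intro _ I _ _ Z p b X lk i hi
  obtain ⟨j, -, hj, -, -⟩ := Pool.Agent.Helper24.OS.hJTU Z.L p 1 b X.prime lk.idp
  have hP : (p ^ 1).Prime := by
    rw [pow_one]
    exact X.prime
  have hi' : i ≠ Z.o := by
    rw [← lk.o]
    exact hi
  have hm := main Z.toCentreRep Pool.Agent.Helper36.YF.hFUS Pool.Agent.Helper88.YF.hDUA hP b
    lk.idp.idem j hj i hi'
  rw [pow_one] at hm
  have hp0 : (p : ℂ) ≠ 0 := by exact_mod_cast X.prime.ne_zero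
  have hn0 : (Z.n : ℂ) ≠ 0 := by exact_mod_cast Z.n_pos.ne'
  have hy : (X.y i : ℂ) = (p : ℂ) * Z.rho (s2 b) i Z.o := by
    have h := X.s_o i
    rw [lk.s, lk.o] at h
    exact h.symm
  have hu : Z.rho (s2 b) i Z.o = (X.y i : ℂ) / p := by
    rw [hy]
    field_simp
  have hso : ∀ k, Z.rho Sm Z.o k = (Z.d k : ℂ) / Z.n := Z.s_o
  -- conjugate
  have hc := congrArg conj hm
  rw [hu] at hc
  simp only [map_mul, map_neg, map_sum, map_div₀, Complex.conj_natCast, map_intCast,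
    apply_ite (conj : ℂ → ℂ), map_zero, map_sub, map_one, Complex.conj_conj, hso] at hc
  rw [lk.t, lk.d, lk.chi]
  have hn : (Z.n : ℂ) = (p : ℂ) * X.m := by
    rw [lk.n_eq]
    push_cast
    ring
  have hsum : (∑ k, if Z.tw b k = 1 then 0 else (Z.d k : ℂ) ^ 2 * Cchi Z k i) =
      (Z.n : ℂ) ^ 2 * ∑ k, (if Z.tw b k = 1 then 0 else (Z.d k : ℂ) / Z.n * Z.rho Sm i k) := by
    rw [Finset.mul_sum]
    refine Finset.sum_congr rfl fun k _ => ?_
    split_ifs
    · simp
    · have hd : (Z.d k : ℂ) ≠ 0 := by exact_mod_cast (Z.d_pos k).ne'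
      rw [Cchi, hso]
      field_simp
  rw [hsum]
  have key : ∑ k, (if Z.tw b k = 1 then 0 else (Z.d k : ℂ) / Z.n * Z.rho Sm i k) =
      -((X.y i : ℂ) / p * (if Z.tw b i = 1 then (p : ℂ) - 1 else -1)) / p := by
    rw [eq_div_iff hp0, mul_comm]
    exact hc
  rw [key, hn]
  field_simp

end Pool.Agent.Helper4.PQ0.LKD
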