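import Pool.Agent.Helper4.PQ0.Defs

set_option autoImplicit false

namespace Pool.Agent.Helper4.PQ0.MZZ

open Pool.Agent.Helper4.PQ0
open Pool.Agent.Helper89.OS hiding PD Cx Blk B0 Orb StXA StXB StXC StXE StCGR StISO StBLK StAMG StHEC StSTL StMZZ StDRE StTSU
open Pool.Agent.Helper89.OC hiding Ks gX OB Lk StORB StTS2 StLKD StTAN

open Matrix ComplexConjugate Pool.Agent.Helper94.YF Pool.Agent.Helper94.YG

section

variable {I : Type} [Fintype I] [DecidableEq I] {p : ℕ}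

theorem s_ok {a : ℕ} (X : PD I p a) (k : I) : X.s X.o k = (X.y k : ℂ) := by
  rw [X.s_symm, X.s_o]

theorem sum_sq {a : ℕ} (X : PD I p a) : ∑ k, (X.y k : ℂ) ^ 2 = (p : ℂ) ^ 2 := by
  have h := X.s_uni X.o X.o
  rw [if_pos rfl] at h
  rw [← h]
  refine Finset.sum_congr rfl (fun k _ => ?_)
  rw [s_ok, map_intCast]
  ring

theorem t_pow' (X : PD I p 1) (k : I) : X.t k ^ p = 1 := by
  have := X.t_pow k
  rwa [pow_one] at this

theorem weil_o (X : PD I p 1) (w : ℕ) (hw0 : w ≠ 0) (hwp : w < p) :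
    ∑ k, X.t k ^ w * (X.y k : ℂ) ^ 2 = (p : ℂ) * X.y X.o := by
  have hc : Nat.Coprime w (p ^ 1) := by
    rw [pow_one]
    exact ((Nat.Prime.coprime_iff_not_dvd X.prime).2
      (fun h => hw0 (Nat.eq_zero_of_dvd_of_lt h hwp))).symm
  have h := X.weil (ZMod.unitOfCoprime w hc) X.o X.o
  have hv : ((ZMod.unitOfCoprime w hc : (ZMod (p ^ 1))ˣ) : ZMod (p ^ 1)).val = w := by
    rw [ZMod.coe_unitOfCoprime, ZMod.val_natCast, pow_one, Nat.mod_eq_of_lt hwp]
  rw [hv, X.pi_o, X.t_o, X.s_o] at h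
  simp only [one_pow, mul_one] at h
  rw [← h]
  refine Finset.sum_congr rfl (fun k _ => ?_)
  rw [s_ok, X.s_o]
  ring

theorem geo (θ : ℂ) (hθ : θ ^ p = 1) :
    ∑ w ∈ Finset.range p, θ ^ w = if θ = 1 then (p : ℂ) else 0 := by
  split_ifs with h
  · rw [h]; simp
  · rw [geom_sum_eq h, hθ, sub_self, zero_div]

open Classical in
theorem main_sum (X : PD I p 1) (ζ : ℂ) (hζ : ζ ^ p = 1) :
    (p : ℂ) * (∑ i, if X.t i = ζ then (X.y i : ℂ) ^ 2 else 0) =
      (p : ℂ) ^ 2 - (p : ℂ) * X.y X.o + (p : ℂ) * X.y X.o * (if ζ = 1 then (p : ℂ) else 0) := by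
  have hp0 : p ≠ 0 := X.prime.ne_zero
  have hζ0 : ζ ≠ 0 := by
    rintro rfl
    rw [zero_pow hp0] at hζ
    exact zero_ne_one hζ
  have h1 : (p : ℂ) * (∑ i, if X.t i = ζ then (X.y i : ℂ) ^ 2 else 0) =
      ∑ w ∈ Finset.range p, (ζ⁻¹) ^ w * ∑ k, X.t k ^ w * (X.y k : ℂ) ^ 2 := by
    simp only [Finset.mul_sum]
    rw [Finset.sum_comm]
    refine Finset.sum_congr rfl (fun k _ => ?_)
    have h2 : ∑ w ∈ Finset.range p, (ζ⁻¹) ^ w * (X.t k ^ w * (X.y k : ℂ) ^ 2) =
        (∑ w ∈ Finset.range p, (ζ⁻¹ * X.t k) ^ w) * (X.y k : ℂ) ^ 2 := by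
      rw [Finset.sum_mul]
      refine Finset.sum_congr rfl (fun w _ => ?_)
      rw [mul_pow]
      ring
    rw [h2, geo _ (by rw [mul_pow, inv_pow, hζ, t_pow' X k]; simp)]
    by_cases hk : X.t k = ζ
    · rw [if_pos hk, if_pos (by rw [hk]; exact inv_mul_cancel₀ hζ0)]
    · rw [if_neg hk, if_neg (fun h => hk (by
        have : X.t k = ζ * (ζ⁻¹ * X.t k) := by rw [← mul_assoc, mul_inv_cancel₀ hζ0, one_mul]
        rw [this, h, mul_one]))]
      simp
  rw [h1]
  have h3 : ∀ w ∈ Finset.range p, (ζ⁻¹) ^ w * ∑ k, X.t k ^ w * (X.y k : ℂ) ^ 2 =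
      (if w = 0 then (p : ℂ) ^ 2 - (p : ℂ) * X.y X.o else 0) + (p : ℂ) * X.y X.o * (ζ⁻¹) ^ w := by
    intro w hw
    by_cases hw0 : w = 0
    · subst hw0
      simp only [pow_zero, one_mul, if_true, mul_one]
      rw [sum_sq]
      ring
    · rw [weil_o X w hw0 (Finset.mem_range.1 hw), if_neg hw0]
      ring
  rw [Finset.sum_congr rfl h3, Finset.sum_add_distrib, ← Finset.mul_sum,
    geo _ (by rw [inv_pow, hζ, inv_one])]
  have h4 : ∑ w ∈ Finset.range p, (if w = 0 then (p : ℂ) ^ 2 - (p : ℂ) * X.y X.o else 0) =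
      (p : ℂ) ^ 2 - (p : ℂ) * X.y X.o := by
    rw [Finset.sum_ite_eq' (Finset.range p) 0, if_pos (Finset.mem_range.2 (Nat.pos_of_ne_zero hp0))]
  rw [h4]
  simp only [inv_eq_one]

end

theorem hMZZ : StMZZ := by
  classical
  intro I _ _ p X hx
  have hp : p.Prime := X.prime
  have hp0 : (p : ℂ) ≠ 0 := by exact_mod_cast hp.ne_zero
  have hp3 : 3 ≤ p := by
    have h2 := hp.two_le
    have ho := X.p_odd
    rcases Nat.lt_or_ge p 3 with h | h
    · have : p = 2 := by omega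
      rw [this] at ho
      exact absurd ho (by decide)
    · exact h
  have c1 : ∀ ζ : ℂ, ζ ≠ 1 → ζ ^ p = 1 →
      (∑ i, if X.t i = ζ then X.y i ^ 2 else 0) = (p : ℤ) - X.y X.o := by
    intro ζ h1 h2
    have h := main_sum X ζ h2
    rw [if_neg h1, mul_zero, add_zero] at h
    have h' : (∑ i, if X.t i = ζ then (X.y i : ℂ) ^ 2 else 0) = (p : ℂ) - X.y X.o := by
      apply mul_left_cancel₀ hp0
      rw [h]; ring
    have h5 : ((∑ i, if X.t i = ζ then X.y i ^ 2 else 0 : ℤ) : ℂ) =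
        (((p : ℤ) - X.y X.o : ℤ) : ℂ) := by
      push_cast
      exact h'
    exact_mod_cast h5
  have c2 : (∑ i, if X.t i = 1 then X.y i ^ 2 else 0) = (p : ℤ) + (p - 1) * X.y X.o := by
    have h := main_sum X 1 (one_pow p)
    rw [if_pos rfl] at h
    have h' : (∑ i, if X.t i = 1 then (X.y i : ℂ) ^ 2 else 0) =
        (p : ℂ) + ((p : ℂ) - 1) * X.y X.o := by
      apply mul_left_cancel₀ hp0
      rw [h]; ring
    have h5 : ((∑ i, if X.t i = 1 then X.y i ^ 2 else 0 : ℤ) : ℂ) =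
        (((p : ℤ) + (p - 1) * X.y X.o : ℤ) : ℂ) := by
      push_cast
      exact h'
    exact_mod_cast h5
  obtain ⟨k0, hk1, hk2⟩ := X.ex
  have hk2' : X.t k0 ≠ 1 := by
    intro h
    apply hk2
    rw [h, one_pow]
  have hs0 := c1 (X.t k0) hk2' (t_pow' X k0)
  have hpos : 1 ≤ (p : ℤ) - X.y X.o := by
    rw [← hs0]
    have h1 : (if X.t k0 = X.t k0 then X.y k0 ^ 2 else 0) ≤
        ∑ i, if X.t i = X.t k0 then X.y i ^ 2 else 0 :=
      Finset.single_le_sum (f := fun i => if X.t i = X.t k0 then X.y i ^ 2 else 0)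
        (fun i _ => by split_ifs <;> positivity) (Finset.mem_univ k0)
    rw [if_pos rfl] at h1
    have h2 : 0 < X.y k0 ^ 2 := by positivity
    omega
  have hle : X.y X.o ^ 2 ≤ (p : ℤ) + (p - 1) * X.y X.o := by
    rw [← c2]
    have h1 : (if X.t X.o = 1 then X.y X.o ^ 2 else 0) ≤
        ∑ i, if X.t i = 1 then X.y i ^ 2 else 0 :=
      Finset.single_le_sum (f := fun i => if X.t i = 1 then X.y i ^ 2 else 0)
        (fun i _ => by split_ifs <;> positivity) (Finset.mem_univ X.o)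
    rwa [if_pos X.t_o] at h1
  have hp3' : (3 : ℤ) ≤ p := by exact_mod_cast hp3
  have hx0 : X.y X.o ≠ 0 := fun h => hx (h ▸ dvd_zero _)
  have hx1 : 1 ≤ X.y X.o := by
    by_contra hneg
    have hle1 : X.y X.o ≤ -1 := by omega
    rcases lt_or_eq_of_le hle1 with h | h
    · have h2 : X.y X.o ≤ -2 := by omega
      nlinarith
    · -- `x = -1`
      have hz : ∀ i, i ≠ X.o → X.t i = 1 → X.y i = 0 := by
        intro i hi hti
        by_contra hyi
        have h1 : (∑ j ∈ ({X.o, i} : Finset I), if X.t j = 1 then X.y j ^ 2 else 0) ≤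
            ∑ j, if X.t j = 1 then X.y j ^ 2 else 0 :=
          Finset.sum_le_sum_of_subset_of_nonneg (Finset.subset_univ _)
            (fun j _ _ => by split_ifs <;> positivity)
        rw [Finset.sum_pair (Ne.symm hi), if_pos X.t_o, if_pos hti, c2, h] at h1
        have h2 : 0 < X.y i ^ 2 := by positivity
        nlinarith
      have hk := X.kap_y
      have h1 : ∑ i, X.y i * (X.kap i : ℤ) = X.y X.o * (X.kap X.o : ℤ) := by
        refine Finset.sum_eq_single X.o ?_ (fun h => absurd (Finset.mem_univ _) h)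
        intro i _ hi
        by_cases hki : X.kap i = 0
        · rw [hki]; simp
        · rw [hz i hi (X.kap_t i hki)]; simp
      rw [h1, h, X.kap_o] at hk
      push_cast at hk
  exact ⟨c1, c2, ⟨k0, hk1, hk2'⟩, by omega, hpos, hx1, hx⟩

end Pool.Agent.Helper4.PQ0.MZZ
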