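import Pool.Agent.Helper4.PQ0.Defs

/-!
# Project OS (MP_2b6189_al), module STL: the Steinberg lemma
-/

set_option autoImplicit false

namespace Pool.Agent.Helper4.PQ0.STL

open Pool.Agent.Helper4.PQ0
open Pool.Agent.Helper89.OS hiding PD Cx Blk B0 Orb StXA StXB StXC StXE StCGR StISO StBLK StAMG StHEC StSTL StMZZ StDRE StTSU
open Pool.Agent.Helper89.OC hiding Ks gX OB Lk StORB StTS2 StLKD StTAN

open Matrix ComplexConjugate Pool.Agent.Helper94.YF Pool.Agent.Helper94.YG

variable {I : Type} [Fintype I] [DecidableEq I] {p a : ℕ}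

open Classical in
/-- the sum over the elements with `t = 1` -/
noncomputable def T (X : PD I p a) (j : I) (u : I → ℂ) : ℂ :=
  ∑ k, if X.t k = 1 then X.s j k * u k else 0

lemma T_lin (X : PD I p a) (j : I) (u v : I → ℂ) (b c : ℂ) :
    T X j (fun k => b * u k - c * v k) = b * T X j u - c * T X j v := by
  unfold T
  rw [Finset.mul_sum, Finset.mul_sum, ← Finset.sum_sub_distrib]
  refine Finset.sum_congr rfl fun k _ => ?_
  split_ifs <;> ring

lemma T_mul (X : PD I p a) (j : I) (u : I → ℂ) (b : ℂ) :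
    T X j (fun k => b * u k) = b * T X j u := by
  unfold T
  rw [Finset.mul_sum]
  refine Finset.sum_congr rfl fun k _ => ?_
  split_ifs <;> ring

/-- sums over the good indices only -/
lemma T_congr (X : PD I p a) (Q : ℂ → Prop) (hB : Blk X Q) (j : I) (hj : X.y j ≠ 0)
    (u v : I → ℂ) (h : ∀ k, X.y k ≠ 0 → X.t k = 1 → u k = v k) : T X j u = T X j v := by
  unfold T
  refine Finset.sum_congr rfl fun k _ => ?_
  split_ifs with ht
  · by_cases hk : X.y k = 0
    · rw [hB.sup j k hj hk]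
      ring
    · rw [h k hk ht]
  · rfl

/-- the sum of a function supported on `t = 1` -/
lemma T_supp (X : PD I p a) (j : I) (u : I → ℂ) (h : ∀ i, u i ≠ 0 → X.t i = 1) :
    T X j u = ∑ i, X.s j i * u i := by
  unfold T
  refine Finset.sum_congr rfl fun k _ => ?_
  split_ifs with ht
  · rfl
  · have : u k = 0 := by
      by_contra hc
      exact ht (h k hc)
    rw [this, mul_zero]

omit [Fintype I] in
lemma Q_sum {p : ℕ} {Q : ℂ → Prop} (hQ : PI p Q) (S : Finset I) (u : I → ℂ)
    (h : ∀ k, Q (u k)) : Q (∑ k ∈ S, u k) := by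
  classical
  induction S using Finset.induction_on with
  | empty => simpa using hQ.zero
  | insert k S hk ih =>
    rw [Finset.sum_insert hk]
    exact hQ.add _ _ (h k) ih

open Classical in
/-- the value of `T` on `h = p f - F'` -/
lemma T_h (hHEC : StHEC) (X : PD I p 1) (f : I → ℂ) (hf1 : ∀ c i, f (X.pi c i) = f i)
    (hf2 : ∀ i, f i ≠ 0 → X.t i = 1) (j : I) :
    T X j (fun k => (p : ℂ) * f k - 1 * ∑ i, X.s k i * f i) =
      (p : ℂ) * (∑ i, X.s j i * f i) - ((p : ℂ) * f j +
        ((if X.t j = 1 then (p : ℂ) else 0) - 1) * ∑ i, X.s j i * f i) := by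
  rw [T_lin X j f (fun k => ∑ i, X.s k i * f i) (p : ℂ) 1, T_supp X j f hf2, one_mul]
  congr 1
  exact hHEC I p X f hf1 hf2 j

theorem hSTL : StSTL := by
  classical
  intro hHEC I _ _ p X Q hB f F hf1 hf2 hF
  have hp := X.prime
  have hp0 : (p : ℂ) ≠ 0 := by exact_mod_cast hp.ne_zero
  have hpi_inj : ∀ c i, X.pi c i = X.o → i = X.o := by
    intro c i h
    have h1 : X.pi c⁻¹ (X.pi c i) = i := by
      rw [← X.pi_mul, inv_mul_cancel, X.pi_one]
    rw [h, X.pi_o] at h1
    exact h1.symm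
  -- the function `e_o`
  obtain ⟨e, he⟩ : ∃ e : I → ℂ, e = fun i => if i = X.o then 1 else 0 := ⟨_, rfl⟩
  have he1 : ∀ c i, e (X.pi c i) = e i := by
    intro c i
    rw [he]
    simp only
    by_cases h : i = X.o
    · rw [h, X.pi_o]
    · rw [if_neg h, if_neg (fun h' => h (hpi_inj c i h'))]
  have he2 : ∀ i, e i ≠ 0 → X.t i = 1 := by
    intro i hi
    rw [he] at hi
    by_cases h : i = X.o
    · rw [h, X.t_o]
    · exact absurd (if_neg h) hi
  have heS : ∀ k, ∑ i, X.s k i * e i = X.y k := by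
    intro k
    rw [he]
    simp only [mul_ite, mul_one, mul_zero, Finset.sum_ite_eq', Finset.mem_univ, if_true]
    exact X.s_o k
  have hfc1 : ∀ c i, (fun i => (f i : ℂ)) (X.pi c i) = (fun i => (f i : ℂ)) i := by
    intro c i
    simp only
    rw [hf1]
  have hfc2 : ∀ i, (fun i => (f i : ℂ)) i ≠ 0 → X.t i = 1 := by
    intro i hi
    refine hf2 i fun h => hi ?_
    simp only
    rw [h]
    simp
  -- the values of T on h and v
  obtain ⟨F', hF'⟩ : ∃ F' : I → ℂ, F' = fun k => ∑ i, X.s k i * (f i : ℂ) := ⟨_, rfl⟩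
  have hTh : ∀ j, T X j (fun k => (p : ℂ) * f k - 1 * F' k) =
      (p : ℂ) * F' j - ((p : ℂ) * f j + ((if X.t j = 1 then (p : ℂ) else 0) - 1) * F' j) := by
    intro j
    rw [hF']
    exact T_h hHEC X (fun i => (f i : ℂ)) hfc1 hfc2 j
  have hTv : ∀ j, T X j (fun k => (p : ℂ) * e k - 1 * X.y k) =
      (p : ℂ) * X.y j - ((p : ℂ) * e j + ((if X.t j = 1 then (p : ℂ) else 0) - 1) * X.y j) := by
    intro j
    have h := T_h hHEC X e he1 he2 j
    simp only [heS] at h
    exact h
  obtain ⟨z, hz⟩ : ∃ z : I → ℤ, z = fun j => ((p : ℤ) - X.y X.o) * (p * f j - F j) -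
    (p * f X.o - F X.o) * ((if j = X.o then (p : ℤ) else 0) - X.y j) := ⟨_, rfl⟩
  have hzc : ∀ j, X.t j = 1 → (z j : ℂ) = ((p : ℂ) - X.y X.o) * ((p : ℂ) * f j - 1 * F' j) -
      ((p : ℂ) * f X.o - F X.o) * ((p : ℂ) * e j - 1 * X.y j) := by
    intro j hj
    rw [hz, hF', he]
    simp only
    rw [← hF j hj]
    push_cast
    split_ifs <;> ring
  have hzo : z X.o = 0 := by
    rw [hz]
    simp only [if_true]
    ring
  have hyo : X.y X.o ≠ 0 := fun h => hB.x_nd (by rw [h]; exact dvd_zero _)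
  have hTz : ∀ j, X.y j ≠ 0 → X.t j = 1 → T X j (fun k => (z k : ℂ)) = -(z j : ℂ) := by
    intro j hj ht
    rw [T_congr X Q hB j hj (fun k => (z k : ℂ)) (fun k =>
      ((p : ℂ) - X.y X.o) * ((p : ℂ) * f k - 1 * F' k) -
      ((p : ℂ) * f X.o - F X.o) * ((p : ℂ) * e k - 1 * X.y k)) (fun k _ hk => hzc k hk)]
    rw [T_lin X j (fun k => (p : ℂ) * f k - 1 * F' k) (fun k => (p : ℂ) * e k - 1 * X.y k),
      hTh, hTv, hzc j ht, if_pos ht]
    ring
  -- descent
  have hdesc : ∀ r : ℕ, ∀ j, X.y j ≠ 0 → X.t j = 1 → (p : ℤ) ^ r ∣ z j := by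
    intro r
    induction r with
    | zero => intro j _ _; simp
    | succ r ih =>
      obtain ⟨z', hz'⟩ : ∃ z' : I → ℤ, z' = fun j => z j / (p : ℤ) ^ r := ⟨_, rfl⟩
      have hzz : ∀ j, X.y j ≠ 0 → X.t j = 1 → z j = (p : ℤ) ^ r * z' j := by
        intro j hj ht
        rw [hz']
        exact (Int.mul_ediv_cancel' (ih j hj ht)).symm
      have hz'o : z' X.o = 0 := by
        rw [hz']
        simp only
        rw [hzo, Int.zero_ediv]
      have hTz' : ∀ j, X.y j ≠ 0 → X.t j = 1 → T X j (fun k => (z' k : ℂ)) = -(z' j : ℂ) := by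
        intro j hj ht
        have h1 := hTz j hj ht
        rw [T_congr X Q hB j hj (fun k => (z k : ℂ)) (fun k => (p : ℂ) ^ r * (z' k : ℂ))
          (fun k h2 h3 => by
            rw [hzz k h2 h3]
            push_cast
            ring), T_mul, hzz j hj ht] at h1
        push_cast at h1
        have h4 : (p : ℂ) ^ r ≠ 0 := pow_ne_zero _ hp0
        apply mul_left_cancel₀ h4
        rw [h1]
        ring
      intro j hj ht
      have hQ := hB.pi
      have h5 : Q (∑ k, if X.t k = 1 then (z' k : ℂ) * (X.s j k - X.d j * X.y k) else 0) := by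
        refine Q_sum hQ _ _ fun k => ?_
        split_ifs
        · exact hQ.mul _ _ isIntegral_algebraMap (hB.cg j hj k)
        · exact hQ.zero
      have h6 : (∑ k, if X.t k = 1 then (z' k : ℂ) * (X.s j k - X.d j * X.y k) else 0)
          = T X j (fun k => (z' k : ℂ)) - X.d j * T X X.o (fun k => (z' k : ℂ)) := by
        unfold T
        rw [Finset.mul_sum, ← Finset.sum_sub_distrib]
        refine Finset.sum_congr rfl fun k _ => ?_
        split_ifs
        · rw [X.s_symm X.o k, X.s_o k]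
          ring
        · ring
      rw [h6, hTz' j hj ht, hTz' X.o hyo X.t_o, hz'o] at h5
      have h7 : Q (((-z' j : ℤ) : ℂ)) := by
        convert h5 using 1
        push_cast
        ring
      have h8 : (p : ℤ) ∣ z' j := (Int.dvd_neg).1 ((hQ.int_iff _).1 h7)
      rw [hzz j hj ht, pow_succ]
      exact mul_dvd_mul_left _ h8
  have hz0 : ∀ j, X.y j ≠ 0 → X.t j = 1 → z j = 0 := by
    intro j hj ht
    by_contra hc
    obtain ⟨r, hr⟩ : ∃ r : ℕ, (z j).natAbs < 2 ^ r := ⟨(z j).natAbs, Nat.lt_two_pow_self⟩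
    have h1 := hdesc r j hj ht
    have h2 : p ^ r ∣ (z j).natAbs := by
      have := Int.natAbs_dvd_natAbs.2 h1
      simpa [Int.natAbs_pow] using this
    have h3 : p ^ r ≤ (z j).natAbs := Nat.le_of_dvd (Int.natAbs_pos.2 hc) h2
    have h4 : 2 ^ r ≤ p ^ r := Nat.pow_le_pow_left hp.two_le r
    omega
  refine ⟨?_, ?_⟩
  · intro j hj ht
    have h1 := hz0 j hj ht
    rw [hz] at h1
    simp only at h1
    linarith
  · intro j hj ht
    have h1 : ∀ k, X.y k ≠ 0 → X.t k = 1 →
        ((p : ℂ) - X.y X.o) * ((p : ℂ) * f k - 1 * F' k) =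
        ((p : ℂ) * f X.o - F X.o) * ((p : ℂ) * e k - 1 * X.y k) := by
      intro k hk hk1
      have h2 := hzc k hk1
      rw [hz0 k hk hk1] at h2
      push_cast at h2
      linear_combination -h2
    have h3 := T_congr X Q hB j hj _ _ h1
    rw [T_mul, T_mul, hTh, hTv, if_neg ht] at h3
    have h4 : f j = 0 := by
      by_contra hc
      exact ht (hf2 j hc)
    have h5 : e j = 0 := by
      by_contra hc
      exact ht (he2 j hc)
    rw [h4, h5] at h3
    have h6 : ((p : ℂ) + 1) ≠ 0 := by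
      exact_mod_cast (Nat.succ_ne_zero p)
    have h7 : F' j = ∑ i, X.s j i * (f i : ℂ) := by rw [hF']
    rw [← h7]
    apply mul_left_cancel₀ h6
    push_cast at h3
    linear_combination h3

end Pool.Agent.Helper4.PQ0.STL
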