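import Pool.Agent.Helper4.PQ0.Defs
import Pool.Agent.Helper4.PQ0.M_HEC
import Pool.Agent.Helper4.PQ0.M_MZZ

/-! # Project OC (MP_2b6189_al), module TAN -/

set_option autoImplicit false

set_option linter.unusedSimpArgs false

namespace Pool.Agent.Helper4.PQ0.TAN

open Pool.Agent.Helper4.PQ0
open Pool.Agent.Helper89.OS hiding PD Cx Blk B0 Orb StXA StXB StXC StXE StCGR StISO StBLK StAMG StHEC StSTL StMZZ StDRE StTSU
open Pool.Agent.Helper89.OC hiding Ks gX OB Lk StORB StTS2 StLKD StTAN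

open Matrix ComplexConjugate Pool.Agent.Helper94.YF Pool.Agent.Helper94.YG

theorem eq_of_re {z : ℂ} {r : ℝ} (h1 : ‖z‖ ≤ r) (h2 : z.re = r) : z = r := by
  have h3 : z.re ^ 2 + z.im ^ 2 = ‖z‖ ^ 2 := by
    rw [← Complex.normSq_eq_norm_sq, Complex.normSq_apply]; ring
  have h5 : ‖z‖ ^ 2 ≤ r ^ 2 := pow_le_pow_left₀ (norm_nonneg _) h1 2
  rw [h2] at h3
  have h6 : z.im ^ 2 ≤ 0 := by linarith
  have h4 : z.im = 0 := by
    have h7 : z.im ^ 2 = 0 := le_antisymm h6 (sq_nonneg _)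
    exact (pow_eq_zero_iff two_ne_zero).1 h7
  apply Complex.ext
  · simp [h2]
  · simp [h4]

theorem all_eq {I : Type} (s : Finset I) (f : I → ℂ) (r : ℝ) (h : ∀ i ∈ s, ‖f i‖ ≤ r)
    (hs : ∑ i ∈ s, f i = (s.card : ℂ) * r) : ∀ i ∈ s, f i = r := by
  have h1 : ∀ i ∈ s, 0 ≤ r - (f i).re := fun i hi =>
    sub_nonneg.2 ((Complex.re_le_norm _).trans (h i hi))
  have h2 : ∑ i ∈ s, (r - (f i).re) = 0 := by
    have h3 := congrArg Complex.re hs
    rw [Complex.re_sum] at h3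
    rw [Finset.sum_sub_distrib, h3]
    simp
  intro i hi
  have h4 := (Finset.sum_eq_zero_iff_of_nonneg h1).1 h2 i hi
  exact eq_of_re (h i hi) (by linarith)

section
variable {I : Type} [Fintype I] [DecidableEq I] (Z : CentreData I) {p : ℕ} (b : ZMod Z.L)
    (X : PD I p 1)

theorem s2s2 {L : ℕ} (b : ZMod L) (hb : b * b = b) : (s2 (1 - b) * s2 b : SL L) = Sm := by
  have hb' : (1 - b) * (1 - b) = 1 - b := by linear_combination hb
  apply Subtype.ext
  rw [Matrix.SpecialLinearGroup.coe_mul]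
  ext i j
  fin_cases i <;> fin_cases j
  · simp [Matrix.mul_apply, Fin.sum_univ_two, s2_00 b hb, s2_01 b hb, s2_10 b, s2_11 b hb,
      s2_00 (1 - b) hb', s2_01 (1 - b) hb', s2_10 (1 - b), s2_11 (1 - b) hb', Sm]
    ring
  · simp [Matrix.mul_apply, Fin.sum_univ_two, s2_00 b hb, s2_01 b hb, s2_10 b, s2_11 b hb,
      s2_00 (1 - b) hb', s2_01 (1 - b) hb', s2_10 (1 - b), s2_11 (1 - b) hb', Sm]
    linear_combination (-2 : ZMod L) * hb
  · simp [Matrix.mul_apply, Fin.sum_univ_two, s2_00 b hb, s2_01 b hb, s2_10 b, s2_11 b hb,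
      s2_00 (1 - b) hb', s2_01 (1 - b) hb', s2_10 (1 - b), s2_11 (1 - b) hb', Sm]
    linear_combination (2 : ZMod L) * hb
  · simp [Matrix.mul_apply, Fin.sum_univ_two, s2_00 b hb, s2_01 b hb, s2_10 b, s2_11 b hb,
      s2_00 (1 - b) hb', s2_01 (1 - b) hb', s2_10 (1 - b), s2_11 (1 - b) hb', Sm]
    ring

variable {Z b X}

theorem dcol (lk : Lk Z b X) (k : I) :
    (X.d k : ℂ) = (Z.n : ℂ) * (Z.rho (s2 (1 - b)) * Z.rho (s2 b)) k Z.o := by
  have hn : (Z.n : ℂ) ≠ 0 := by exact_mod_cast Z.n_pos.ne'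
  rw [← map_mul, s2s2 b lk.idp.idem, Z.s_symm, Z.s_o, lk.d]
  field_simp

theorem zd (lk : Lk Z b X) :
    ∑ k, (X.z k : ℂ) * X.d k = (X.m : ℂ) ^ 2 * X.y X.o := by
  have h2 : (Z.rho (s2 (1 - b)))ᴴ * (Z.rho (s2 (1 - b)) * Z.rho (s2 b)) = Z.rho (s2 b) := by
    rw [← Matrix.mul_assoc, Z.unitary, Matrix.one_mul]
  have h3 := congrFun (congrFun h2 Z.o) Z.o
  rw [Matrix.mul_apply] at h3
  have h4 : ∀ k, (X.z k : ℂ) * X.d k = (X.m : ℂ) * (Z.n : ℂ) *
      ((Z.rho (s2 (1 - b)))ᴴ Z.o k * (Z.rho (s2 (1 - b)) * Z.rho (s2 b)) k Z.o) := by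
    intro k
    have h5 : (X.z k : ℂ) = (X.m : ℂ) * (Z.rho (s2 (1 - b)))ᴴ Z.o k := by
      have h6 := congrArg (starRingEnd ℂ) (lk.z k)
      rw [map_mul, Complex.conj_natCast, map_intCast] at h6
      rw [Matrix.conjTranspose_apply]
      exact h6
    rw [dcol lk k, h5]
    ring
  rw [Finset.sum_congr rfl fun k _ => h4 k, ← Finset.mul_sum, h3]
  have h7 : (X.y X.o : ℂ) = (p : ℂ) * Z.rho (s2 b) Z.o Z.o := by
    rw [← X.s_o, lk.s, lk.o]
  rw [h7, lk.n_eq]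
  push_cast
  ring

theorem zz2 (lk : Lk Z b X) : ∑ k, (X.z k : ℂ) * X.z k = (X.m : ℂ) ^ 2 := by
  have h3 := congrFun (congrFun (Z.unitary (s2 (1 - b))) Z.o) Z.o
  rw [Matrix.mul_apply, Matrix.one_apply_eq] at h3
  have h4 : ∀ k, (X.z k : ℂ) * X.z k = (X.m : ℂ) ^ 2 *
      ((Z.rho (s2 (1 - b)))ᴴ Z.o k * Z.rho (s2 (1 - b)) k Z.o) := by
    intro k
    have h5 : (X.z k : ℂ) = (X.m : ℂ) * (Z.rho (s2 (1 - b)))ᴴ Z.o k := by
      have h6 := congrArg (starRingEnd ℂ) (lk.z k)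
      rw [map_mul, Complex.conj_natCast, map_intCast] at h6
      rw [Matrix.conjTranspose_apply]
      exact h6
    calc (X.z k : ℂ) * X.z k = ((X.m : ℂ) * (Z.rho (s2 (1 - b)))ᴴ Z.o k) *
          ((X.m : ℂ) * Z.rho (s2 (1 - b)) k Z.o) := by rw [← h5, ← lk.z k]
      _ = _ := by ring
  rw [Finset.sum_congr rfl fun k _ => h4 k, ← Finset.mul_sum, h3, mul_one]

theorem dd2 (lk : Lk Z b X) : ∑ k, (X.d k : ℂ) ^ 2 = ((p : ℂ) * X.m) ^ 2 := by
  have hn : (Z.n : ℂ) ≠ 0 := by exact_mod_cast Z.n_pos.ne'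
  have h3 := congrFun (congrFun (Z.unitary Sm) Z.o) Z.o
  rw [Matrix.mul_apply, Matrix.one_apply_eq] at h3
  have h4 : ∀ k, (X.d k : ℂ) ^ 2 = (Z.n : ℂ) ^ 2 *
      ((Z.rho Sm)ᴴ Z.o k * Z.rho Sm k Z.o) := by
    intro k
    have h5 : (Z.rho Sm)ᴴ Z.o k = (Z.d k : ℂ) / Z.n := by
      rw [Matrix.conjTranspose_apply, Z.s_symm, Z.s_o]
      simp
    rw [h5, Z.s_symm, Z.s_o, lk.d]
    field_simp
  rw [Finset.sum_congr rfl fun k _ => h4 k, ← Finset.mul_sum, h3, mul_one, lk.n_eq]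
  push_cast
  ring

/-- the sum of the squares of the dimensions of the objects with `t = 1` -/
theorem dd1 (lk : Lk Z b X) : (∑ k, if X.t k = 1 then (X.d k : ℂ) ^ 2 else 0) =
    (p : ℂ) * (X.m : ℂ) ^ 2 + ((p : ℂ) - 1) * ((X.m : ℂ) ^ 2 * X.y X.o) := by
  have h := fun j => Pool.Agent.Helper4.PQ0.HEC.hHEC I p X (fun i => (X.z i : ℂ))
    (fun c i => by rw [X.pi_z]) (fun i hi => X.z_t i (by exact_mod_cast hi)) j
  simp only [X.sz] at h
  have h1 : ∑ j, (X.z j : ℂ) * (∑ k, if X.t k = 1 then X.s j k * (X.d k : ℂ) else 0) =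
      ∑ k, if X.t k = 1 then (X.d k : ℂ) ^ 2 else 0 := by
    simp only [Finset.mul_sum]
    rw [Finset.sum_comm]
    refine Finset.sum_congr rfl fun k _ => ?_
    by_cases hk : X.t k = 1
    · simp only [hk, if_true]
      calc ∑ j, (X.z j : ℂ) * (X.s j k * (X.d k : ℂ)) = (∑ j, X.s k j * (X.z j : ℂ)) * X.d k := by
            rw [Finset.sum_mul]
            refine Finset.sum_congr rfl fun j _ => ?_
            rw [X.s_symm j k]
            ring
        _ = _ := by rw [X.sz]; ring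
    · simp only [hk, if_false, mul_zero, Finset.sum_const_zero]
  rw [← h1, Finset.sum_congr rfl fun j _ => congrArg (fun x => (X.z j : ℂ) * x) (h j), ← zd lk,
    ← zz2 lk, Finset.mul_sum, Finset.mul_sum, ← Finset.sum_add_distrib]
  refine Finset.sum_congr rfl fun j _ => ?_
  by_cases hj : X.t j = 1
  · simp only [hj, if_true]
    ring
  · have hz : X.z j = 0 := by
      by_contra hz
      exact hj (X.z_t j hz)
    simp [hz]

/-- the sum of the squares of the dimensions of the objects with `t ≠ 1` -/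
theorem dd0 (lk : Lk Z b X) : (∑ k, if X.t k = 1 then 0 else (X.d k : ℂ) ^ 2) =
    (X.m : ℂ) ^ 2 * ((p : ℂ) - 1) * (gX X : ℂ) := by
  have h1 := dd1 lk
  have h2 := dd2 lk
  have h3 : (∑ k, if X.t k = 1 then (X.d k : ℂ) ^ 2 else 0) +
      (∑ k, if X.t k = 1 then 0 else (X.d k : ℂ) ^ 2) = ∑ k, (X.d k : ℂ) ^ 2 := by
    rw [← Finset.sum_add_distrib]
    refine Finset.sum_congr rfl fun k _ => ?_
    by_cases hk : X.t k = 1
    · simp [hk]
    · simp [hk]
  rw [h1, h2] at h3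
  have h4 : (gX X : ℂ) = (p : ℂ) - X.y X.o := by
    rw [gX]; push_cast; ring
  rw [h4]
  linear_combination h3

/-- Step (1). -/
theorem step1 (hLKD : StLKD) (hGLA : StGLA) (lk : Lk Z b X) (hx : ¬ (p : ℤ) ∣ X.y X.o) (i : I)
    (hi : i ≠ X.o)
    (hD : ∀ j, X.t j ≠ 1 → Cchi Z j i = Z.d i) :
    X.t i = 1 ∧ X.y i = -(gX X * (X.d i : ℤ)) := by
  have h := hLKD hGLA I Z p b X lk i hi
  have h1 : (∑ j, if X.t j = 1 then 0 else (X.d j : ℂ) ^ 2 * X.chi j i) =
      (X.d i : ℂ) * ((X.m : ℂ) ^ 2 * ((p : ℂ) - 1) * (gX X : ℂ)) := by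
    rw [← dd0 lk, Finset.mul_sum]
    refine Finset.sum_congr rfl fun j _ => ?_
    by_cases hj : X.t j = 1
    · simp [hj]
    · rw [if_neg hj, if_neg hj, lk.chi, hD j hj, lk.d]
      ring
  rw [h1] at h
  have hm : (X.m : ℂ) ≠ 0 := by
    have h2 := X.cop
    have h3 : X.m ≠ 0 := by
      intro h0
      rw [h0] at h2
      exact h2 (dvd_zero p)
    exact_mod_cast h3
  have hm2 : (X.m : ℂ) ^ 2 ≠ 0 := pow_ne_zero 2 hm
  have h2 : (X.d i : ℂ) * ((p : ℂ) - 1) * (gX X : ℂ) =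
      -((X.y i : ℂ) * (if X.t i = 1 then (p : ℂ) - 1 else -1)) := by
    apply mul_left_cancel₀ hm2
    linear_combination h
  have hp3 : (3 : ℤ) ≤ p := by
    have h3 := X.prime.two_le
    have h4 : p ≠ 2 := by
      intro h5
      have h6 := X.p_odd
      rw [h5] at h6
      exact absurd h6 (by decide)
    omega
  obtain ⟨m1, -, -, -, m5, -, -⟩ := Pool.Agent.Helper4.PQ0.MZZ.hMZZ I p X hx
  have hg : 1 ≤ gX X := m5
  have hd : (1 : ℤ) ≤ X.d i := by exact_mod_cast X.d_pos i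
  by_cases ht : X.t i = 1
  · refine ⟨ht, ?_⟩
    rw [if_pos ht] at h2
    have h3 : (X.d i : ℤ) * ((p : ℤ) - 1) * gX X = -(X.y i * ((p : ℤ) - 1)) := by
      exact_mod_cast h2
    have h4 : ((p : ℤ) - 1) ≠ 0 := by omega
    apply mul_left_cancel₀ h4
    linear_combination h3
  · exfalso
    rw [if_neg ht] at h2
    have h3 : (X.d i : ℤ) * ((p : ℤ) - 1) * gX X = -(X.y i * (-1)) := by
      exact_mod_cast h2
    have h4 := m1 (X.t i) ht (by simpa using X.t_pow i)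
    have h5 : X.y i ^ 2 ≤ gX X := by
      rw [gX, ← h4]
      refine le_trans ?_ (Finset.single_le_sum (f := fun j => if X.t j = X.t i then X.y j ^ 2 else 0)
        (fun j _ => ?_) (Finset.mem_univ i))
      · simp
      · split_ifs
        · exact sq_nonneg _
        · exact le_refl _
    have h6 : X.y i = (X.d i : ℤ) * ((p : ℤ) - 1) * gX X := by linarith
    have h7 : 2 * gX X ≤ X.y i := by
      rw [h6]
      have h8 : (2 : ℤ) ≤ (X.d i : ℤ) * ((p : ℤ) - 1) := by nlinarith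
      nlinarith
    nlinarith

end

theorem hTAN : StTAN := by
  classical
  intro hLKD hGLA hGLB hGLC hTS2 hORB I _ _ Z p _ b X Q lk blk k hk hyk
  have A := hGLA I Z
  have B := hGLB I Z
  have C := hGLC hGLA hGLB I Z
  have ob := hORB I p X
  obtain ⟨-, ts⟩ := hTS2 hORB I p X Q blk k hk
  have hko : k ≠ X.o := by
    have h := hk
    rw [Ks, Finset.mem_filter] at h
    exact h.2.2.2
  obtain ⟨m1, -, -, -, m5, -, -⟩ := Pool.Agent.Helper4.PQ0.MZZ.hMZZ I p X blk.x_nd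
  have hg : 1 ≤ gX X := m5
  have hg0 : (gX X : ℂ) ≠ 0 := by
    have h : gX X ≠ 0 := by omega
    exact_mod_cast h
  have hdst : ∀ x, Z.d (Z.st x) = Z.d x := by
    intro x
    have h := X.d_st x
    rw [lk.d, lk.st] at h
    exact h
  have hnorm : ∀ i j, ‖Cchi Z i j‖ ≤ Z.d j := fun i j => A.bound (RingEquiv.refl ℂ) i j
  have hdpos : ∀ x, (Z.d x : ℂ) ≠ 0 := fun x => by exact_mod_cast (Z.d_pos x).ne'
  -- `k` is in the set
  have hDk : ∀ j, X.t j ≠ 1 → Cchi Z j k = Z.d k := by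
    intro j hj
    have h := ts j hj
    rw [hyk, lk.chi, lk.d] at h
    have h1 : ∑ i ∈ Orb X k, Cchi Z j i = ((Orb X k).card : ℂ) * ((Z.d k : ℝ) : ℂ) := by
      apply mul_left_cancel₀ hg0
      rw [h]
      push_cast
      ring
    have h2 := all_eq (Orb X k) (fun i => Cchi Z j i) (Z.d k : ℝ) (fun i hi => by
      have h3 := ob.d k i hi
      rw [lk.d] at h3
      rw [← h3]
      exact hnorm j i) h1 k (ob.self k)
    simpa using h2
  have hex : ∃ l, X.t l ≠ 1 := by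
    obtain ⟨l, -, hl⟩ := X.ex
    refine ⟨l, ?_⟩
    simpa using hl
  obtain ⟨l, hl⟩ := hex
  have key : ∀ i, (∀ j, X.t j ≠ 1 → Cchi Z j i = Z.d i) → Z.th i = 1 := by
    intro i hi
    by_cases hio : i = X.o
    · rw [hio, lk.o]
      exact Z.th_o
    · obtain ⟨h1, h2⟩ := step1 hLKD hGLA lk blk.x_nd i hio hi
      have h3 : X.y i ≠ 0 := by
        rw [h2]
        have h4 : (1 : ℤ) ≤ X.d i := by exact_mod_cast X.d_pos i
        have h5 : 0 < gX X * (X.d i : ℤ) := by positivity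
        omega
      have h4 := X.th_of i h3 h1
      rw [lk.th] at h4
      exact h4
  refine ⟨fun i => ∀ j, X.t j ≠ 1 → Cchi Z j i = Z.d i, ?_, ?_, ?_, ?_, ?_, ?_⟩
  · intro j _
    rw [A.chi_o, Z.d_o]
    simp
  · exact ⟨k, hDk, fun h => hko (by rw [lk.o]; exact h)⟩
  · intro x hx j hj
    rw [A.chi_st, hx j hj, hdst]
    simp
  · intro x y z hx hy hN j hj
    exact A.clos j x y z (hx j hj) (hy j hj) hN
  · exact key
  · intro k' i hk' hi
    -- for `v` with `t v ≠ 1`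
    have hv : ∀ v, X.t v ≠ 1 → Cchi Z k' v = Z.d v := by
      intro v hv
      have h1 := A.Sf_chi v k'
      rw [hk' v hv, A.Sf_symm, A.Sf_chi] at h1
      apply mul_left_cancel₀ (hdpos k')
      rw [h1]
      ring
    have h1 : Sf Z i l = (Z.d i : ℂ) * Z.d l := by
      rw [A.Sf_symm, A.Sf_chi, hi l hl]
      ring
    have h2 : ∀ v, Z.N i l v ≠ 0 → Cchi Z k' v = Z.d v := by
      intro v hN
      apply hv
      have h3 := C.bal i l v h1 hN
      rw [key i hi, one_mul] at h3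
      have h4 : X.t v = X.t l := by
        rw [lk.t, CentreRep.tw, CentreRep.tw, h3]
      rw [h4]
      exact hl
    have h3 := A.chi_mul k' i l
    have h4 : ∑ v, (Z.N i l v : ℂ) * Cchi Z k' v = (Z.d i : ℂ) * Z.d l := by
      have h5 := B.dim i l
      have h6 : (Z.d i : ℂ) * Z.d l = ∑ v, (Z.N i l v : ℂ) * Z.d v := by
        exact_mod_cast h5
      rw [h6]
      refine Finset.sum_congr rfl fun v _ => ?_
      by_cases hN : Z.N i l v = 0
      · simp [hN]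
      · rw [h2 v hN]
    rw [h4, hv l hl] at h3
    have h5 : Cchi Z k' i = Z.d i := mul_right_cancel₀ (hdpos l) h3
    rw [A.Sf_chi, h5]

end Pool.Agent.Helper4.PQ0.TAN
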