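import Pool.Agent.Helper4.PQ0.Defs
import Pool.Agent.Helper4.PQ0.M_HEC
import Pool.Agent.Helper4.PQ0.M_STL

/-!
# Project OC (MP_2b6189_al), module TS2: invariant vectors of the torus orbits
-/

set_option autoImplicit false

namespace Pool.Agent.Helper4.PQ0.TS2

open Pool.Agent.Helper4.PQ0
open Pool.Agent.Helper89.OS hiding PD Cx Blk B0 Orb StXA StXB StXC StXE StCGR StISO StBLK StAMG StHEC StSTL StMZZ StDRE StTSU
open Pool.Agent.Helper89.OC hiding Ks gX OB Lk StORB StTS2 StLKD StTAN

open Matrix ComplexConjugate Pool.Agent.Helper94.YF Pool.Agent.Helper94.YG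

/-- module TS2 -/
theorem hTS2 : StTS2 := by
  classical
  intro _ I _ _ p _ X Q hB k hk
  have hk' : X.y k ≠ 0 ∧ X.t k = 1 ∧ k ≠ X.o := by
    unfold Ks at hk
    simpa using hk
  obtain ⟨hyk, htk, hko⟩ := hk'
  have hHEC : StHEC := Pool.Agent.Helper4.PQ0.HEC.hHEC
  have hSTL : StSTL := Pool.Agent.Helper4.PQ0.STL.hSTL
  obtain ⟨hra, hrb⟩ := Pool.Agent.Helper94.YF.hRAT'
  have hp := X.prime
  have hp1 : 1 ≤ p := hp.one_lt.le
  have hcardU : (Fintype.card (ZMod (p ^ 1))ˣ : ℂ) = (p : ℂ) - 1 := by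
    rw [ZMod.card_units_eq_totient, pow_one, Nat.totient_prime hp, Nat.cast_sub hp1]
    norm_num
  have hinj : ∀ c, Function.Injective (X.pi c) := by
    intro c i j h
    have h1 := congrArg (X.pi c⁻¹) h
    rwa [← X.pi_mul, ← X.pi_mul, inv_mul_cancel, X.pi_one, X.pi_one] at h1
  obtain ⟨f, hf⟩ : ∃ f : I → ℤ, ∀ i, f i =
      ((Finset.univ.filter fun c => X.pi c k = i).card : ℤ) := ⟨_, fun i => rfl⟩
  have hfinv : ∀ c i, f (X.pi c i) = f i := by
    intro c' i
    rw [hf, hf]
    congr 1
    symm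
    refine Finset.card_bij (fun c _ => c' * c) ?_ ?_ ?_
    · intro c hc
      simp only [Finset.mem_filter, Finset.mem_univ, true_and] at hc ⊢
      rw [X.pi_mul, hc]
    · intro a _ b _ h
      exact mul_left_cancel h
    · intro b hb
      refine ⟨c'⁻¹ * b, ?_, mul_inv_cancel_left c' b⟩
      simp only [Finset.mem_filter, Finset.mem_univ, true_and] at hb ⊢
      rw [X.pi_mul, hb, ← X.pi_mul, inv_mul_cancel, X.pi_one]
  have hfex : ∀ i, f i ≠ 0 → ∃ c, X.pi c k = i := by
    intro i hi
    by_contra hno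
    push Not at hno
    apply hi
    rw [hf, Nat.cast_eq_zero, Finset.card_eq_zero, Finset.filter_eq_empty_iff]
    intro c _
    exact hno c
  have hfs : ∀ i, f i ≠ 0 → X.t i = 1 := by
    intro i hi
    obtain ⟨c, hc⟩ := hfex i hi
    rw [← hc, X.pi_t, htk, one_pow]
  have hfy : ∀ i, f i ≠ 0 → X.y i ≠ 0 := by
    intro i hi
    obtain ⟨c, hc⟩ := hfex i hi
    rw [← hc, X.pi_y]
    exact hyk
  have hfo : f X.o = 0 := by
    by_contra h
    obtain ⟨c, hc⟩ := hfex _ h
    exact hko (hinj c (hc.trans (X.pi_o c).symm))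
  have hsumf : ∀ g : I → ℂ, ∑ i, g i * (f i : ℂ) = ∑ c, g (X.pi c k) := by
    intro g
    rw [← Finset.sum_fiberwise Finset.univ (fun c => X.pi c k) (fun c => g (X.pi c k))]
    refine Finset.sum_congr rfl fun i _ => ?_
    have h1 : ∀ c ∈ Finset.univ.filter (fun c => X.pi c k = i), g (X.pi c k) = g i := by
      intro c hc
      rw [(Finset.mem_filter.1 hc).2]
    rw [Finset.sum_congr rfl h1, Finset.sum_const, nsmul_eq_mul, hf]
    push_cast
    ring
  have hFex : ∀ j, ∃ m : ℤ, (m : ℂ) = ∑ c, X.s j (X.pi c k) := by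
    intro j
    apply hra
    · exact IsIntegral.sum _ fun c _ => X.s_int _ _
    · intro σ
      obtain ⟨c', hc'⟩ := X.gal σ
      rw [map_sum]
      refine Fintype.sum_equiv (Equiv.mulLeft c') _ _ fun c => ?_
      rw [hc', Equiv.coe_mulLeft, X.pi_mul]
  choose F hF using hFex
  have hF' : ∀ j, (F j : ℂ) = ∑ i, X.s j i * (f i : ℂ) := by
    intro j
    rw [hF, hsumf]
  have hFo : (F X.o : ℂ) = ((p : ℂ) - 1) * X.y k := by
    rw [hF]
    have h1 : ∀ c ∈ (Finset.univ : Finset (ZMod (p ^ 1))ˣ),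
        X.s X.o (X.pi c k) = (X.y k : ℂ) := by
      intro c _
      rw [X.s_symm, X.s_o, X.pi_y]
    rw [Finset.sum_congr rfl h1, Finset.sum_const, nsmul_eq_mul, Finset.card_univ, hcardU]
  obtain ⟨hS1, hS2⟩ := hSTL hHEC I p X Q hB f F hfinv hfs (fun j _ => hF' j)
  have hyo : X.y X.o ≠ 0 := by
    intro h
    apply hB.x_nd
    rw [h]
    exact dvd_zero _
  have hA : ∀ j, X.y j ≠ 0 → X.t j = 1 → j ≠ X.o → ((p : ℂ) - X.y X.o) *
      ((p : ℂ) * (f j : ℂ) - F j) = ((p : ℂ) - 1) * (X.y k * X.y j) := by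
    intro j hj htj hjo
    have h1 := hS1 j hj htj
    rw [if_neg hjo, hfo] at h1
    have h2 := congrArg (fun z : ℤ => (z : ℂ)) h1
    push_cast at h2
    rw [hFo] at h2
    rw [h2]
    ring
  -- f is constant on the orbit
  have hfk : f k ≠ 0 := by
    rw [hf]
    have h1 : (1 : (ZMod (p ^ 1))ˣ) ∈ Finset.univ.filter (fun c => X.pi c k = k) := by
      rw [Finset.mem_filter]
      exact ⟨Finset.mem_univ _, X.pi_one k⟩
    have h2 := Finset.card_pos.2 ⟨_, h1⟩
    omega
  have hfkC : (f k : ℂ) ≠ 0 := by exact_mod_cast hfk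
  have hforb : ∀ i, f i = if i ∈ Orb X k then f k else 0 := by
    intro i
    split_ifs with h
    · have h' : ∃ c, X.pi c k = i := by
        unfold Orb at h
        simpa using h
      obtain ⟨c, hc⟩ := h'
      rw [← hc, hfinv]
    · by_contra h1
      obtain ⟨c, hc⟩ := hfex i h1
      apply h
      unfold Orb
      simp only [Finset.mem_filter, Finset.mem_univ, true_and]
      exact ⟨c, hc⟩
  have hsumg : ∀ g : I → ℂ, ∑ i, g i * (f i : ℂ) = (f k : ℂ) * ∑ i ∈ Orb X k, g i := by
    intro g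
    rw [Finset.mul_sum, ← Finset.sum_filter_add_sum_filter_not Finset.univ
      (fun i => i ∈ Orb X k) (fun i => g i * (f i : ℂ))]
    have h1 : ∑ i ∈ Finset.univ.filter (fun i => ¬ i ∈ Orb X k), g i * (f i : ℂ) = 0 := by
      apply Finset.sum_eq_zero
      intro i hi
      rw [hforb, if_neg (Finset.mem_filter.1 hi).2]
      simp
    have h2 : Finset.univ.filter (fun i => i ∈ Orb X k) = Orb X k := by
      ext i
      simp
    rw [h1, add_zero, h2]
    refine Finset.sum_congr rfl fun i hi => ?_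
    rw [hforb i, if_pos hi]
    ring
  have hcnt : (p : ℂ) - 1 = (f k : ℂ) * ((Orb X k).card : ℂ) := by
    have h1 := hsumg (fun _ => 1)
    rw [hsumf] at h1
    simp only [Finset.sum_const, nsmul_eq_mul, mul_one, Finset.card_univ] at h1
    rw [← h1, hcardU]
  -- the vector E
  have hg : ((gX X : ℤ) : ℂ) = (p : ℂ) - X.y X.o := by
    unfold gX
    push_cast
    ring
  obtain ⟨E, hE⟩ : ∃ E : I → ℂ, ∀ i, E i = ((p : ℂ) - X.y X.o) * (f i : ℂ) +
      (if i = X.o then ((p : ℂ) - 1) * X.y k else 0) := ⟨_, fun i => rfl⟩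
  have hsE : ∀ j, ∑ i, X.s j i * E i = ((p : ℂ) - X.y X.o) * F j +
      ((p : ℂ) - 1) * X.y k * X.y j := by
    intro j
    have h1 : ∀ i ∈ (Finset.univ : Finset I), X.s j i * E i =
        ((p : ℂ) - X.y X.o) * (X.s j i * (f i : ℂ)) +
        (if i = X.o then X.s j i * (((p : ℂ) - 1) * X.y k) else 0) := by
      intro i _
      rw [hE]
      split_ifs <;> ring
    rw [Finset.sum_congr rfl h1, Finset.sum_add_distrib, ← Finset.mul_sum, ← hF',
      Finset.sum_ite_eq' Finset.univ X.o (fun i => X.s j i * (((p : ℂ) - 1) * X.y k)),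
      if_pos (Finset.mem_univ _), X.s_o]
    ring
  have hEeq : ∀ i, ∑ k, X.s i k * E k = (p : ℂ) * E i := by
    intro j
    rw [hsE]
    by_cases hyj : X.y j = 0
    · have h1 : f j = 0 := by
        by_contra h
        exact hfy j h hyj
      have h2 : j ≠ X.o := by
        intro h
        rw [h] at hyj
        exact hyo hyj
      have h3 : (F j : ℂ) = 0 := by
        rw [hF]
        apply Finset.sum_eq_zero
        intro c _
        rw [X.s_symm]
        apply hB.sup _ _ _ hyj
        rw [X.pi_y]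
        exact hyk
      rw [hE, h3, h1, if_neg h2, hyj]
      simp
    · by_cases htj : X.t j = 1
      · by_cases hjo : j = X.o
        · rw [hjo, hFo, hE, if_pos rfl, hfo]
          push_cast
          ring
        · have h1 := hA j hyj htj hjo
          rw [hE, if_neg hjo]
          linear_combination (-1 : ℂ) * h1
      · have h1 := hS2 j hyj htj
        rw [← hF', hFo, hfo] at h1
        have h2 : f j = 0 := by
          by_contra h
          exact htj (hfs j h)
        have h3 : j ≠ X.o := by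
          intro h
          rw [h] at htj
          exact htj X.t_o
        rw [hE, if_neg h3, h2]
        push_cast at h1 ⊢
        linear_combination h1
  have hEt : ∀ k, E k ≠ 0 → X.t k = 1 := by
    intro i hi
    by_cases hio : i = X.o
    · rw [hio]
      exact X.t_o
    · by_cases hfi : f i = 0
      · exfalso
        apply hi
        rw [hE, hfi, if_neg hio]
        simp
      · exact hfs i hfi
  -- the vector E is f k times the vector of the statement
  have hEE : ∀ l, E l = (f k : ℂ) * ((gX X : ℂ) * (if l ∈ Orb X k then 1 else 0) +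
      ((Orb X k).card : ℂ) * X.y k * (if l = X.o then 1 else 0)) := by
    intro l
    rw [hE, hforb l, hcnt, hg]
    split_ifs <;> push_cast <;> ring
  refine ⟨?_, ?_⟩
  · intro j
    have h1 := hEeq j
    rw [hEE j] at h1
    have h2 : ∑ l, X.s j l * E l = (f k : ℂ) * ∑ l, X.s j l *
        ((gX X : ℂ) * (if l ∈ Orb X k then 1 else 0) +
          ((Orb X k).card : ℂ) * X.y k * (if l = X.o then 1 else 0)) := by
      rw [Finset.mul_sum]
      refine Finset.sum_congr rfl fun l _ => ?_
      rw [hEE l]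
      ring
    rw [h2] at h1
    apply mul_left_cancel₀ hfkC
    rw [h1]
    ring
  · intro j hj
    have hT := X.tor E hEeq hEt j hj
    have hchi : ∑ i, E i * X.chi j i = ((p : ℂ) - X.y X.o) *
        ((f k : ℂ) * ∑ i ∈ Orb X k, X.chi j i) + ((p : ℂ) - 1) * X.y k := by
      have h1 : ∀ i ∈ (Finset.univ : Finset I), E i * X.chi j i =
          ((p : ℂ) - X.y X.o) * (X.chi j i * (f i : ℂ)) +
          (if i = X.o then X.chi j i * (((p : ℂ) - 1) * X.y k) else 0) := by
        intro i _
        rw [hE]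
        split_ifs <;> ring
      rw [Finset.sum_congr rfl h1, Finset.sum_add_distrib, ← Finset.mul_sum, hsumg,
        Finset.sum_ite_eq' Finset.univ X.o (fun i => X.chi j i * (((p : ℂ) - 1) * X.y k)),
        if_pos (Finset.mem_univ _), X.chi_o, one_mul]
    rw [hchi, hcnt] at hT
    rw [hg]
    apply mul_left_cancel₀ hfkC
    linear_combination hT

end Pool.Agent.Helper4.PQ0.TS2
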