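import Pool.Agent.Helper4.PQ0.Defs

/-!
# Project OS (MP_2b6189_al), module TSU: torus sums
-/

set_option autoImplicit false

namespace Pool.Agent.Helper4.PQ0.TSU

open Pool.Agent.Helper4.PQ0
open Pool.Agent.Helper89.OS hiding PD Cx Blk B0 Orb StXA StXB StXC StXE StCGR StISO StBLK StAMG StHEC StSTL StMZZ StDRE StTSU
open Pool.Agent.Helper89.OC hiding Ks gX OB Lk StORB StTS2 StLKD StTAN

open Matrix ComplexConjugate Pool.Agent.Helper94.YF Pool.Agent.Helper94.YG

/-- module TSU -/
theorem hTSU : StTSU := by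
  classical
  intro hSTL hHEC hMZZ hRAT I _ _ p _ X Q hB k hyk htk hko
  obtain ⟨hra, hrb⟩ := hRAT
  have hp := X.prime
  have hp1 : 1 ≤ p := hp.one_lt.le
  have hcardU : (Fintype.card (ZMod (p ^ 1))ˣ : ℂ) = (p : ℂ) - 1 := by
    rw [ZMod.card_units_eq_totient, pow_one, Nat.totient_prime hp, Nat.cast_sub hp1]
    norm_num
  have hinj : ∀ c, Function.Injective (X.pi c) := by
    intro c i j h
    have h1 := congrArg (X.pi c⁻¹) h
    rwa [← X.pi_mul, ← X.pi_mul, inv_mul_cancel, X.pi_one, X.pi_one] at h1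
  obtain ⟨f, hf⟩ : ∃ f : I → ℤ, ∀ i, f i =
      ((Finset.univ.filter fun c => X.pi c k = i).card : ℤ) := ⟨_, fun i => rfl⟩
  have hfinv : ∀ c i, f (X.pi c i) = f i := by
    intro c' i
    rw [hf, hf]
    congr 1
    symm
    refine Finset.card_bij (fun c _ => c' * c) ?_ ?_ ?_
    · intro c hc
      simp only [Finset.mem_filter, Finset.mem_univ, true_and] at hc ⊢
      rw [X.pi_mul, hc]
    · intro a _ b _ h
      exact mul_left_cancel h
    · intro b hb
      refine ⟨c'⁻¹ * b, ?_, mul_inv_cancel_left c' b⟩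
      simp only [Finset.mem_filter, Finset.mem_univ, true_and] at hb ⊢
      rw [X.pi_mul, hb, ← X.pi_mul, inv_mul_cancel, X.pi_one]
  have hfex : ∀ i, f i ≠ 0 → ∃ c, X.pi c k = i := by
    intro i hi
    by_contra hno
    push Not at hno
    apply hi
    rw [hf, Nat.cast_eq_zero, Finset.card_eq_zero, Finset.filter_eq_empty_iff]
    intro c _
    exact hno c
  have hfs : ∀ i, f i ≠ 0 → X.t i = 1 := by
    intro i hi
    obtain ⟨c, hc⟩ := hfex i hi
    rw [← hc, X.pi_t, htk, one_pow]
  have hfy : ∀ i, f i ≠ 0 → X.y i ≠ 0 := by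
    intro i hi
    obtain ⟨c, hc⟩ := hfex i hi
    rw [← hc, X.pi_y]
    exact hyk
  have hfo : f X.o = 0 := by
    by_contra h
    obtain ⟨c, hc⟩ := hfex _ h
    exact hko (hinj c (hc.trans (X.pi_o c).symm))
  have hsumf : ∀ g : I → ℂ, ∑ i, g i * (f i : ℂ) = ∑ c, g (X.pi c k) := by
    intro g
    rw [← Finset.sum_fiberwise Finset.univ (fun c => X.pi c k) (fun c => g (X.pi c k))]
    refine Finset.sum_congr rfl fun i _ => ?_
    have h1 : ∀ c ∈ Finset.univ.filter (fun c => X.pi c k = i), g (X.pi c k) = g i := by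
      intro c hc
      rw [(Finset.mem_filter.1 hc).2]
    rw [Finset.sum_congr rfl h1, Finset.sum_const, nsmul_eq_mul, hf]
    push_cast
    ring
  have hFex : ∀ j, ∃ m : ℤ, (m : ℂ) = ∑ c, X.s j (X.pi c k) := by
    intro j
    apply hra
    · exact IsIntegral.sum _ fun c _ => X.s_int _ _
    · intro σ
      obtain ⟨c', hc'⟩ := X.gal σ
      rw [map_sum]
      refine Fintype.sum_equiv (Equiv.mulLeft c') _ _ fun c => ?_
      rw [hc', Equiv.coe_mulLeft, X.pi_mul]
  choose F hF using hFex
  have hF' : ∀ j, (F j : ℂ) = ∑ i, X.s j i * (f i : ℂ) := by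
    intro j
    rw [hF, hsumf]
  have hFo : (F X.o : ℂ) = ((p : ℂ) - 1) * X.y k := by
    rw [hF]
    have h1 : ∀ c ∈ (Finset.univ : Finset (ZMod (p ^ 1))ˣ),
        X.s X.o (X.pi c k) = (X.y k : ℂ) := by
      intro c _
      rw [X.s_symm, X.s_o, X.pi_y]
    rw [Finset.sum_congr rfl h1, Finset.sum_const, nsmul_eq_mul, Finset.card_univ, hcardU]
  obtain ⟨hS1, hS2⟩ := hSTL hHEC I p X Q hB f F hfinv hfs (fun j _ => hF' j)
  obtain ⟨-, -, ⟨j0, hj0, hj0t⟩, -, hg2, -, -⟩ := hMZZ I p X hB.x_nd
  have hyo : X.y X.o ≠ 0 := by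
    intro h
    apply hB.x_nd
    rw [h]
    exact dvd_zero _
  have hA : ∀ j, X.y j ≠ 0 → X.t j = 1 → j ≠ X.o → ((p : ℂ) - X.y X.o) *
      ((p : ℂ) * (f j : ℂ) - F j) = ((p : ℂ) - 1) * (X.y k * X.y j) := by
    intro j hj htj hjo
    have h1 := hS1 j hj htj
    rw [if_neg hjo, hfo] at h1
    have h2 := congrArg (fun z : ℤ => (z : ℂ)) h1
    push_cast at h2
    rw [hFo] at h2
    rw [h2]
    ring
  refine ⟨?_, ?_⟩
  · intro j hj htj hjo
    have h1 := hA j hj htj hjo
    rw [hf, hF] at h1
    push_cast at h1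
    exact h1
  · -- the vector E
    obtain ⟨E, hE⟩ : ∃ E : I → ℂ, ∀ i, E i = ((p : ℂ) - X.y X.o) * (f i : ℂ) +
        (if i = X.o then ((p : ℂ) - 1) * X.y k else 0) := ⟨_, fun i => rfl⟩
    have hsE : ∀ j, ∑ i, X.s j i * E i = ((p : ℂ) - X.y X.o) * F j +
        ((p : ℂ) - 1) * X.y k * X.y j := by
      intro j
      have h1 : ∀ i ∈ (Finset.univ : Finset I), X.s j i * E i =
          ((p : ℂ) - X.y X.o) * (X.s j i * (f i : ℂ)) +
          (if i = X.o then X.s j i * (((p : ℂ) - 1) * X.y k) else 0) := by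
        intro i _
        rw [hE]
        split_ifs <;> ring
      rw [Finset.sum_congr rfl h1, Finset.sum_add_distrib, ← Finset.mul_sum, ← hF',
        Finset.sum_ite_eq' Finset.univ X.o (fun i => X.s j i * (((p : ℂ) - 1) * X.y k)),
        if_pos (Finset.mem_univ _), X.s_o]
      ring
    have hEeq : ∀ i, ∑ k, X.s i k * E k = (p : ℂ) * E i := by
      intro j
      rw [hsE]
      by_cases hyj : X.y j = 0
      · have h1 : f j = 0 := by
          by_contra h
          exact hfy j h hyj
        have h2 : j ≠ X.o := by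
          intro h
          rw [h] at hyj
          exact hyo hyj
        have h3 : (F j : ℂ) = 0 := by
          rw [hF]
          apply Finset.sum_eq_zero
          intro c _
          rw [X.s_symm]
          apply hB.sup _ _ _ hyj
          rw [X.pi_y]
          exact hyk
        rw [hE, h3, h1, if_neg h2, hyj]
        simp
      · by_cases htj : X.t j = 1
        · by_cases hjo : j = X.o
          · rw [hjo, hFo, hE, if_pos rfl, hfo]
            push_cast
            ring
          · have h1 := hA j hyj htj hjo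
            rw [hE, if_neg hjo]
            linear_combination (-1 : ℂ) * h1
        · have h1 := hS2 j hyj htj
          rw [← hF', hFo, hfo] at h1
          have h2 : f j = 0 := by
            by_contra h
            exact htj (hfs j h)
          have h3 : j ≠ X.o := by
            intro h
            rw [h] at htj
            exact htj X.t_o
          rw [hE, if_neg h3, h2]
          push_cast at h1 ⊢
          linear_combination h1
    have hEt : ∀ k, E k ≠ 0 → X.t k = 1 := by
      intro i hi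
      by_cases hio : i = X.o
      · rw [hio]
        exact X.t_o
      · by_cases hfi : f i = 0
        · exfalso
          apply hi
          rw [hE, hfi, if_neg hio]
          simp
        · exact hfs i hfi
    have hT := X.tor E hEeq hEt j0 hj0t
    -- f is constant on the orbit
    have hfk : f k ≠ 0 := by
      rw [hf]
      have h1 : (1 : (ZMod (p ^ 1))ˣ) ∈ Finset.univ.filter (fun c => X.pi c k = k) := by
        rw [Finset.mem_filter]
        exact ⟨Finset.mem_univ _, X.pi_one k⟩
      have h2 := Finset.card_pos.2 ⟨_, h1⟩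
      omega
    have hforb : ∀ i, f i = if i ∈ Orb X k then f k else 0 := by
      intro i
      split_ifs with h
      · have h' : ∃ c, X.pi c k = i := by
          unfold Orb at h
          simpa using h
        obtain ⟨c, hc⟩ := h'
        rw [← hc, hfinv]
      · by_contra h1
        obtain ⟨c, hc⟩ := hfex i h1
        apply h
        unfold Orb
        simp only [Finset.mem_filter, Finset.mem_univ, true_and]
        exact ⟨c, hc⟩
    have hsumg : ∀ g : I → ℂ, ∑ i, g i * (f i : ℂ) = (f k : ℂ) * ∑ i ∈ Orb X k, g i := by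
      intro g
      rw [Finset.mul_sum, ← Finset.sum_filter_add_sum_filter_not Finset.univ
        (fun i => i ∈ Orb X k) (fun i => g i * (f i : ℂ))]
      have h1 : ∑ i ∈ Finset.univ.filter (fun i => ¬ i ∈ Orb X k), g i * (f i : ℂ) = 0 := by
        apply Finset.sum_eq_zero
        intro i hi
        rw [hforb, if_neg (Finset.mem_filter.1 hi).2]
        simp
      have h2 : Finset.univ.filter (fun i => i ∈ Orb X k) = Orb X k := by
        ext i
        simp
      rw [h1, add_zero, h2]
      refine Finset.sum_congr rfl fun i hi => ?_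
      rw [hforb i, if_pos hi]
      ring
    have hcnt : (p : ℂ) - 1 = (f k : ℂ) * ((Orb X k).card : ℂ) := by
      have h1 := hsumg (fun _ => 1)
      rw [hsumf] at h1
      simp only [Finset.sum_const, nsmul_eq_mul, mul_one, Finset.card_univ] at h1
      rw [← h1, hcardU]
    have hchi : ∑ i, E i * X.chi j0 i = ((p : ℂ) - X.y X.o) *
        ((f k : ℂ) * ∑ i ∈ Orb X k, X.chi j0 i) + ((p : ℂ) - 1) * X.y k := by
      have h1 : ∀ i ∈ (Finset.univ : Finset I), E i * X.chi j0 i =
          ((p : ℂ) - X.y X.o) * (X.chi j0 i * (f i : ℂ)) +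
          (if i = X.o then X.chi j0 i * (((p : ℂ) - 1) * X.y k) else 0) := by
        intro i _
        rw [hE]
        split_ifs <;> ring
      rw [Finset.sum_congr rfl h1, Finset.sum_add_distrib, ← Finset.mul_sum, hsumg,
        Finset.sum_ite_eq' Finset.univ X.o (fun i => X.chi j0 i * (((p : ℂ) - 1) * X.y k)),
        if_pos (Finset.mem_univ _), X.chi_o, one_mul]
    rw [hchi, hcnt] at hT
    have hfkC : (f k : ℂ) ≠ 0 := by exact_mod_cast hfk
    have hT2 : ((p : ℂ) - X.y X.o) * (∑ i ∈ Orb X k, X.chi j0 i) +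
        ((Orb X k).card : ℂ) * X.y k = 0 := by
      have h1 : (f k : ℂ) * (((p : ℂ) - X.y X.o) * (∑ i ∈ Orb X k, X.chi j0 i) +
        ((Orb X k).card : ℂ) * X.y k) = 0 := by
        linear_combination hT
      rcases mul_eq_zero.1 h1 with h | h
      · exact absurd h hfkC
      · exact h
    have hgZ : (p : ℤ) - X.y X.o ≠ 0 := by omega
    have hgC : (p : ℂ) - X.y X.o ≠ 0 := by exact_mod_cast hgZ
    have hgQ : (p : ℚ) - X.y X.o ≠ 0 := by exact_mod_cast hgZ
    have hint : IsIntegral ℤ (∑ i ∈ Orb X k, X.chi j0 i) :=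
      IsIntegral.sum _ fun i _ => X.chi_int _ _
    have hq : (((-(((Orb X k).card : ℚ) * X.y k) / ((p : ℚ) - X.y X.o) : ℚ)) : ℂ) =
        ∑ i ∈ Orb X k, X.chi j0 i := by
      push_cast
      rw [div_eq_iff hgC]
      linear_combination (-1 : ℂ) * hT2
    obtain ⟨m, hm⟩ := hrb _ (hq ▸ hint)
    rw [eq_div_iff hgQ] at hm
    refine ⟨-m, ?_⟩
    have h3 : (m : ℚ) * ((p : ℚ) - X.y X.o) = -(((Orb X k).card : ℚ) * X.y k) := hm
    have h4 : m * ((p : ℤ) - X.y X.o) = -(((Orb X k).card : ℤ) * X.y k) := by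
      exact_mod_cast h3
    linear_combination h4

end Pool.Agent.Helper4.PQ0.TSU
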