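import Pool.Agent.Helper4.PQ0.St

/-!
# Project OS, module TWB: the case `a ≥ 2`, end
-/

set_option autoImplicit false

namespace Pool.Agent.Helper4.PQ0.TWE

open Pool.Agent.Helper4.PQ0
open Pool.Agent.Helper89.OS hiding PD Cx Blk B0 Orb StXA StXB StXC StXE StCGR StISO StBLK StAMG StHEC StSTL StMZZ StDRE StTSU

open Matrix ComplexConjugate Pool.Agent.Helper94.YF Pool.Agent.Helper94.YG

private theorem unit_sum {p : ℕ} (hp : p.Prime) [Fintype (ZMod (p ^ 2))ˣ] {θ : ℂ}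
    (h1 : θ ^ (p ^ 2) = 1) (h2 : θ ^ p ≠ 1) :
    ∑ w : (ZMod (p ^ 2))ˣ, θ ^ (w : ZMod (p ^ 2)).val = 0 := by
  haveI : NeZero (p ^ 2) := ⟨pow_ne_zero 2 hp.ne_zero⟩
  have hnil : IsNilpotent ((p : ℕ) : ZMod (p ^ 2)) := ⟨2, by
    have h : ((p ^ 2 : ℕ) : ZMod (p ^ 2)) = 0 := ZMod.natCast_self _
    rwa [Nat.cast_pow] at h⟩
  have hu : ∀ w : (ZMod (p ^ 2))ˣ, IsUnit ((w : ZMod (p ^ 2)) + ((p : ℕ) : ZMod (p ^ 2))) :=
    fun w => hnil.isUnit_add_left_of_commute w.isUnit (Commute.all _ _)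
  let g : (ZMod (p ^ 2))ˣ → (ZMod (p ^ 2))ˣ := fun w => (hu w).unit
  have hgv : ∀ w, ((g w : (ZMod (p ^ 2))ˣ) : ZMod (p ^ 2)) =
      (w : ZMod (p ^ 2)) + ((p : ℕ) : ZMod (p ^ 2)) := fun w => (hu w).unit_spec
  have hinj : Function.Injective g := by
    intro w w' h
    have h3 : ((g w : (ZMod (p ^ 2))ˣ) : ZMod (p ^ 2)) = ((g w' : (ZMod (p ^ 2))ˣ) : ZMod (p ^ 2)) :=
      by rw [h]
    rw [hgv, hgv] at h3
    exact Units.ext (add_right_cancel h3)
  have hbij : Function.Bijective g := Finite.injective_iff_bijective.1 hinj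
  have hlt : p < p ^ 2 := by nlinarith [hp.two_le]
  have hstep : ∀ w, θ ^ ((g w : (ZMod (p ^ 2))ˣ) : ZMod (p ^ 2)).val =
      θ ^ (w : ZMod (p ^ 2)).val * θ ^ p := by
    intro w
    rw [hgv, ZMod.val_add, ZMod.val_natCast, Nat.mod_eq_of_lt hlt, ← pow_eq_pow_mod _ h1, pow_add]
  have hs := hbij.sum_comp (fun w : (ZMod (p ^ 2))ˣ => θ ^ (w : ZMod (p ^ 2)).val)
  simp only [hstep] at hs
  rw [← Finset.sum_mul] at hs
  have h3 : (∑ w : (ZMod (p ^ 2))ˣ, θ ^ (w : ZMod (p ^ 2)).val) * (θ ^ p - 1) = 0 := by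
    linear_combination hs
  rcases mul_eq_zero.1 h3 with h | h
  · exact h
  · exact absurd (sub_eq_zero.1 h) h2

private theorem pi_bij {I : Type} [Fintype I] [DecidableEq I] {p a : ℕ} (X : PD I p a)
    (c : (ZMod (p ^ a))ˣ) : Function.Bijective (X.pi c) := by
  refine Finite.injective_iff_bijective.1 ?_
  intro i i' h
  have h1 : X.pi c⁻¹ (X.pi c i) = X.pi c⁻¹ (X.pi c i') := by rw [h]
  rwa [← X.pi_mul, ← X.pi_mul, inv_mul_cancel, X.pi_one, X.pi_one] at h1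

theorem hTWE : StTWE := by
  classical
  intro hAMG hRAT I _ _ p X Q hB hyo hM1 htp hEc0
  have hp2 : 2 ≤ p := X.prime.two_le
  have hp3 : 3 ≤ p := by
    rcases hp2.lt_or_eq with h | h
    · omega
    · exact absurd X.p_odd (by rw [← h]; decide)
  have hp0 : (0 : ℝ) < p := by
    have : 0 < p := by omega
    exact_mod_cast this
  haveI : NeZero (p ^ 2) := ⟨pow_ne_zero 2 X.prime.ne_zero⟩
  obtain ⟨K, hK⟩ : ∃ K : Finset I, ∀ k, k ∈ K ↔ X.y k ≠ 0 ∧ X.t k = 1 :=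
    ⟨Finset.univ.filter fun k => X.y k ≠ 0 ∧ X.t k = 1, fun k => by simp⟩
  obtain ⟨E, hE, hEc⟩ : ∃ E : Finset I, (∀ k, k ∈ E ↔ X.y k ≠ 0 ∧ X.t k ≠ 1) ∧
      p ^ 2 ≤ E.card + p := by
    exact ⟨Finset.univ.filter fun k => X.y k ≠ 0 ∧ X.t k ≠ 1, fun k => by simp, hEc0⟩
  have hoK : X.o ∈ K := (hK _).2 ⟨by rw [hyo]; exact one_ne_zero, X.t_o⟩
  -- `|K| ≤ p`
  have hKc : (K.card : ℝ) ≤ p := by
    have h1 : ((K.card : ℕ) : ℤ) ≤ p := by
      rw [← hM1]
      calc ((K.card : ℕ) : ℤ) = ∑ k ∈ K, (1 : ℤ) := by simp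
        _ ≤ ∑ k ∈ K, (if X.t k = 1 then X.y k ^ 2 else 0) := by
            refine Finset.sum_le_sum fun k hk => ?_
            obtain ⟨h2, h3⟩ := (hK k).1 hk
            rw [if_pos h3]
            have h4 : 0 < X.y k ^ 2 := by positivity
            omega
        _ ≤ ∑ k, (if X.t k = 1 then X.y k ^ 2 else 0) := by
            refine Finset.sum_le_sum_of_subset_of_nonneg (Finset.subset_univ _) fun k _ _ => ?_
            split_ifs
            · positivity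
            · exact le_rfl
    exact_mod_cast h1
  obtain ⟨j, hjK, hjm⟩ := Finset.exists_max_image K X.d ⟨X.o, hoK⟩
  obtain ⟨hjy, hjt⟩ := (hK j).1 hjK
  -- (i)
  have hT : ∀ w : (ZMod (p ^ 2))ˣ, ∑ k, X.t k ^ (w : ZMod (p ^ 2)).val *
      (X.s j k * (X.d k : ℂ)) = (p : ℂ) * X.d j := by
    intro w
    calc ∑ k, X.t k ^ (w : ZMod (p ^ 2)).val * (X.s j k * (X.d k : ℂ))
        = ∑ k, ∑ i, (X.z i : ℂ) * (X.t k ^ (w : ZMod (p ^ 2)).val * (X.s j k * X.s k i)) := by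
          refine Finset.sum_congr rfl fun k _ => ?_
          rw [← X.sz k, Finset.mul_sum, Finset.mul_sum]
          refine Finset.sum_congr rfl fun i _ => ?_
          ring
      _ = ∑ i, (X.z i : ℂ) * ∑ k, (X.t k ^ (w : ZMod (p ^ 2)).val * (X.s j k * X.s k i)) := by
          rw [Finset.sum_comm]
          exact Finset.sum_congr rfl fun i _ => (Finset.mul_sum _ _ _).symm
      _ = ∑ i, (p : ℂ) * (X.s j (X.pi w⁻¹ i) * (X.z (X.pi w⁻¹ i) : ℂ)) := by
          refine Finset.sum_congr rfl fun i _ => ?_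
          rw [X.weil w j i, hjt, one_pow, X.pi_z]
          by_cases hz : X.z i = 0
          · rw [hz]
            simp
          · rw [X.z_t i hz, one_pow]
            ring
      _ = (p : ℂ) * ∑ i, X.s j i * (X.z i : ℂ) := by
          rw [← Finset.mul_sum]
          congr 1
          exact (pi_bij X w⁻¹).sum_comp (fun i => X.s j i * (X.z i : ℂ))
      _ = (p : ℂ) * X.d j := by rw [X.sz j]
  have hcard : (Fintype.card (ZMod (p ^ 2))ˣ : ℂ) ≠ 0 := by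
    have : Fintype.card (ZMod (p ^ 2))ˣ ≠ 0 := Fintype.card_ne_zero
    exact_mod_cast this
  have hi : ∑ k ∈ K, X.s j k * (X.d k : ℂ) = (p : ℂ) * X.d j := by
    have h1 : ∑ w : (ZMod (p ^ 2))ˣ, ∑ k, X.t k ^ (w : ZMod (p ^ 2)).val *
        (X.s j k * (X.d k : ℂ)) = (Fintype.card (ZMod (p ^ 2))ˣ : ℂ) * ((p : ℂ) * X.d j) := by
      simp only [hT, Finset.sum_const, Finset.card_univ, nsmul_eq_mul]
    have h2 : ∑ w : (ZMod (p ^ 2))ˣ, ∑ k, X.t k ^ (w : ZMod (p ^ 2)).val *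
        (X.s j k * (X.d k : ℂ)) = (Fintype.card (ZMod (p ^ 2))ˣ : ℂ) *
          ∑ k ∈ K, X.s j k * (X.d k : ℂ) := by
      rw [Finset.sum_comm]
      have h3 : ∀ k, ∑ w : (ZMod (p ^ 2))ˣ, X.t k ^ (w : ZMod (p ^ 2)).val *
          (X.s j k * (X.d k : ℂ)) = (Fintype.card (ZMod (p ^ 2))ˣ : ℂ) *
            (if k ∈ K then X.s j k * (X.d k : ℂ) else 0) := by
        intro k
        rw [← Finset.sum_mul]
        by_cases hy : X.y k = 0
        · rw [hB.sup j k hjy hy]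
          simp
        · by_cases ht : X.t k = 1
          · rw [if_pos ((hK k).2 ⟨hy, ht⟩), ht]
            simp
          · rw [unit_sum X.prime (X.t_pow k) (fun h => ht (htp k hy h)),
              if_neg (fun h => ht ((hK k).1 h).2), zero_mul, mul_zero]
      simp only [h3]
      rw [← Finset.mul_sum, Finset.sum_ite_mem, Finset.univ_inter]
    rw [h2] at h1
    exact mul_left_cancel₀ hcard h1
  -- (ii)
  have hnorm : ∑ k, ‖X.s j k‖ ^ 2 = (p : ℝ) ^ 2 := by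
    have h1 := X.s_uni j j
    rw [if_pos rfl] at h1
    have h2 : ((∑ k, ‖X.s j k‖ ^ 2 : ℝ) : ℂ) = (((p : ℝ) ^ 2 : ℝ) : ℂ) := by
      push_cast
      rw [← h1]
      refine Finset.sum_congr rfl fun k _ => ?_
      rw [Complex.mul_conj, Complex.normSq_eq_norm_sq]
      push_cast
      rfl
    exact_mod_cast h2
  have hKE : Disjoint K E := by
    rw [Finset.disjoint_left]
    intro k hk hk'
    exact ((hE k).1 hk').2 ((hK k).1 hk).2
  have hEs : ∀ c, ∀ k ∈ E, X.pi c k ∈ E := by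
    intro c k hk
    obtain ⟨h1, h2⟩ := (hE k).1 hk
    refine (hE _).2 ⟨by rw [X.pi_y]; exact h1, fun h => h2 ?_⟩
    have h3 : X.pi c⁻¹ (X.pi c k) = k := by
      rw [← X.pi_mul, inv_mul_cancel, X.pi_one]
    rw [← h3, X.pi_t, h, one_pow]
  have hamg := hAMG hRAT I p 2 X Q hB j E hjy (fun k hk => ((hE k).1 hk).1) hEs
  have hii : ∑ k ∈ K, ‖X.s j k‖ ^ 2 ≤ p := by
    have h1 : ∑ k ∈ K, ‖X.s j k‖ ^ 2 + ∑ k ∈ E, ‖X.s j k‖ ^ 2 ≤ ∑ k, ‖X.s j k‖ ^ 2 := by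
      rw [← Finset.sum_union hKE]
      exact Finset.sum_le_sum_of_subset_of_nonneg (Finset.subset_univ _)
        fun k _ _ => by positivity
    have h2 : ((p : ℝ) ^ 2) ≤ E.card + p := by exact_mod_cast hEc
    linarith
  -- (iii)
  have hdj : (0 : ℝ) < X.d j := by exact_mod_cast X.d_pos j
  obtain ⟨A, hA⟩ : ∃ A, A = ∑ k ∈ K, ‖X.s j k‖ := ⟨_, rfl⟩
  have hA0 : 0 ≤ A := by
    rw [hA]
    exact Finset.sum_nonneg fun k _ => norm_nonneg _
  have h1 : (p : ℝ) * X.d j ≤ ∑ k ∈ K, ‖X.s j k‖ * X.d k := by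
    have h2 : ‖∑ k ∈ K, X.s j k * (X.d k : ℂ)‖ ≤ ∑ k ∈ K, ‖X.s j k * (X.d k : ℂ)‖ :=
      norm_sum_le _ _
    rw [hi, norm_mul, Complex.norm_natCast, Complex.norm_natCast] at h2
    refine h2.trans (le_of_eq (Finset.sum_congr rfl fun k _ => ?_))
    rw [norm_mul, Complex.norm_natCast]
  have h2 : ∑ k ∈ K, ‖X.s j k‖ * X.d k ≤ X.d j * A := by
    rw [hA, Finset.mul_sum]
    refine Finset.sum_le_sum fun k hk => ?_
    have h3 : (X.d k : ℝ) ≤ X.d j := by exact_mod_cast hjm k hk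
    have h4 := mul_le_mul_of_nonneg_left h3 (norm_nonneg (X.s j k))
    linarith
  have hpA : (p : ℝ) ≤ A := by
    have h3 : (X.d j : ℝ) * p ≤ X.d j * A := by linarith
    exact le_of_mul_le_mul_left h3 hdj
  have hAsq : A ^ 2 ≤ K.card * p := by
    have h3 : A ^ 2 ≤ K.card * ∑ k ∈ K, ‖X.s j k‖ ^ 2 := by
      rw [hA]
      exact sq_sum_le_card_mul_sum_sq
    exact h3.trans (mul_le_mul_of_nonneg_left hii (Nat.cast_nonneg _))
  have hAp : A ≤ p := by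
    have h3 : A ^ 2 ≤ (p : ℝ) ^ 2 := by nlinarith
    exact (sq_le_sq₀ hA0 hp0.le).1 h3
  have hAe : A = p := le_antisymm hAp hpA
  have hKp : (p : ℝ) ≤ K.card := by
    rw [hAe] at hAsq
    have h3 : (p : ℝ) * p ≤ K.card * p := by linarith
    exact le_of_mul_le_mul_right h3 hp0
  have hall : ∀ k ∈ K, X.d k = X.d j := by
    have h3 : ∑ k ∈ K, ‖X.s j k‖ * ((X.d j : ℝ) - X.d k) ≤ 0 := by
      have h4 : ∑ k ∈ K, ‖X.s j k‖ * ((X.d j : ℝ) - X.d k) =
          X.d j * A - ∑ k ∈ K, ‖X.s j k‖ * X.d k := by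
        rw [hA, Finset.mul_sum, ← Finset.sum_sub_distrib]
        exact Finset.sum_congr rfl fun k _ => by ring
      rw [h4, hAe]
      linarith
    have h5 : ∀ k ∈ K, 0 ≤ ‖X.s j k‖ * ((X.d j : ℝ) - X.d k) := by
      intro k hk
      have h6 : (X.d k : ℝ) ≤ X.d j := by exact_mod_cast hjm k hk
      exact mul_nonneg (norm_nonneg _) (by linarith)
    have h7 := (Finset.sum_eq_zero_iff_of_nonneg h5).1 (le_antisymm h3 (Finset.sum_nonneg h5))
    intro k hk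
    have h8 := h7 k hk
    rcases mul_eq_zero.1 h8 with h | h
    · exact absurd (norm_eq_zero.1 h) (hB.nz j k hjy ((hK k).1 hk).1)
    · have h9 : (X.d k : ℝ) = X.d j := by linarith
      exact_mod_cast h9
  have hone : ∀ k ∈ K, X.d k = 1 := by
    intro k hk
    rw [hall k hk, ← hall X.o hoK, X.d_o]
  have hK1 : 1 < K.card := by
    have h3 : p ≤ K.card := by exact_mod_cast hKp
    omega
  obtain ⟨k, hk, hko⟩ := Finset.exists_mem_ne hK1 X.o
  exact ⟨k, hko, ((hK k).1 hk).1, hone k hk, X.th_of k ((hK k).1 hk).1 ((hK k).1 hk).2⟩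

end Pool.Agent.Helper4.PQ0.TWE
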