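import Pool.Agent.Helper4.PQ0.St
import Pool.Agent.Helper4.PQ0.Fin
import Pool.Agent.Helper4.PQ0.Asm0
import Pool.Agent.Helper4.PQ0.M_CGR
import Pool.Agent.Helper4.PQ0.M_ISO
import Pool.Agent.Helper4.PQ0.M_BLK
import Pool.Agent.Helper4.PQ0.M_AMG
import Pool.Agent.Helper4.PQ0.M_HEC
import Pool.Agent.Helper4.PQ0.M_STL
import Pool.Agent.Helper4.PQ0.M_MZZ
import Pool.Agent.Helper4.PQ0.M_DRE
import Pool.Agent.Helper4.PQ0.M_TSU
import Pool.Agent.Helper4.PQ0.M_ORB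
import Pool.Agent.Helper4.PQ0.M_TS2
import Pool.Agent.Helper4.PQ0.M_LKD
import Pool.Agent.Helper4.PQ0.M_TAN
import Pool.Agent.Helper4.PQ0.M_TWE
import Pool.Agent.Helper55.PQS.M_TNS
import Pool.Agent.Helper36.PQS.M_PPW
import Pool.Agent.Helper42.PQS.M_CBE
import Pool.Agent.Helper10.PQS.M_G2E

/-! # Project PQS (MP_2b6189_al): assembly

If the odd prime `p` divides `n` exactly once and `n / p` has at most two prime divisors then there is a nontrivial Tannakian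
subcategory. -/

set_option autoImplicit false

namespace Pool.Agent.Helper4.PQ0

open Matrix ComplexConjugate Pool.Agent.Helper94.YF Pool.Agent.Helper94.YG
open Pool.Agent.Helper89.OS hiding PD Cx Blk B0 Orb StXA StXB StXC StXE StCGR StISO StBLK StAMG StHEC StSTL StMZZ StDRE StTSU
open Pool.Agent.Helper89.OC hiding Ks gX OB Lk StORB StTS2 StLKD StTAN

section

variable {I : Type} [Fintype I] [DecidableEq I] {p a : ℕ}

theorem mem_Orb (X : PD I p a) {k j : I} : j ∈ Orb X k ↔ ∃ c, X.pi c k = j := by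
  classical
  simp [Orb]

theorem Orb_self (X : PD I p a) (k : I) : k ∈ Orb X k := (mem_Orb X).2 ⟨1, X.pi_one k⟩

theorem Orb_eq (X : PD I p a) {k j : I} (h : j ∈ Orb X k) : Orb X j = Orb X k := by
  obtain ⟨c, rfl⟩ := (mem_Orb X).1 h
  ext i
  rw [mem_Orb, mem_Orb]
  constructor
  · rintro ⟨c', rfl⟩
    exact ⟨c' * c, X.pi_mul c' c k⟩
  · rintro ⟨c', rfl⟩
    exact ⟨c' * c⁻¹, by rw [← X.pi_mul, mul_assoc, inv_mul_cancel, mul_one]⟩

theorem Orb_y (X : PD I p a) {k j : I} (h : j ∈ Orb X k) : X.y j = X.y k ∧ X.d j = X.d k := by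
  obtain ⟨c, rfl⟩ := (mem_Orb X).1 h
  exact ⟨X.pi_y c k, X.pi_d c k⟩

theorem Orb_t (X : PD I p a) {k j : I} (h : j ∈ Orb X k) (ht : X.t k = 1) : X.t j = 1 := by
  obtain ⟨c, rfl⟩ := (mem_Orb X).1 h
  rw [X.pi_t, ht, one_pow]

theorem Orb_o (X : PD I p a) {k j : I} (h : j ∈ Orb X k) (hk : k ≠ X.o) : j ≠ X.o := by
  obtain ⟨c, rfl⟩ := (mem_Orb X).1 h
  intro h1
  apply hk
  have h2 := congrArg (X.pi c⁻¹) h1
  rwa [← X.pi_mul, inv_mul_cancel, X.pi_one, X.pi_o] at h2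

end

theorem oddPrime (hX0 : StX0) (hEND : StEND) (hCDO : StCDO) (hTWC : StTWC) (hTWD : StTWD)
    (hTHF : StTHF) (hTIX : StTIX) (I : Type) [Fintype I] [DecidableEq I] (Z : CentreData I)
    (p m : ℕ) (hp : p.Prime) (hp2 : p ≠ 2) (hn : Z.n = p * m) (hpm : ¬ p ∣ m) (q s : ℕ)
    (hm : ∀ l : ℕ, l.Prime → l ∣ m → l = q ∨ l = s) : ∃ D : I → Prop, TanSet Z D := by
  classical
  by_contra hT
  obtain ⟨a, b, X, hI, -, ho, hst, hd, hmX, -, hth, ht, hs, hchi, hN, hz⟩ :=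
    toPD' I Z p m hp hp2 hn hpm
  obtain ⟨Q, hQ⟩ := Helper66.OS.hPID hRAT' p hp
  have hx := hX0 hRAT' ISO.hISO I p a X Q hQ
  have hB : Blk X Q := BLK.hBLK hRAT' CGR.hCGR ISO.hISO I p a X Q hQ hx
  have hno : ∀ k, X.y k ≠ 0 → X.t k = 1 → k ≠ X.o → ¬ (X.d k = 1 ∨ IsPrimePow (X.d k)) := by
    intro k hy htk hko h
    have hthk : Z.th k = 1 := by
      rw [← hth]
      exact X.th_of k hy htk
    rw [hd] at h
    rcases h with h | h
    · exact hT (Helper10.PQS.hG2E I Z ⟨k, by rwa [← ho], h, hthk⟩)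
    · exact hT (Helper42.PQS.hCBE Helper55.PQS.hTNS Helper36.PQS.hPPW I Z k h hthk
        fun δ h1 h2 => inv_cen Z X Q hB ho hst hd hchi k hy δ h1 h2)
  have hdm : ∀ k, X.y k ≠ 0 → X.d k ∣ m := by
    intro k hk
    have h1 := X.d_dvd k
    rw [hmX] at h1
    exact ((Nat.Prime.coprime_iff_not_dvd hp).2 (hB.d_nd k hk)).symm.dvd_of_dvd_mul_left h1
  by_cases ha : 2 ≤ a
  · obtain rfl := hTWC I p a X ha
    rcases hTWD I p X hx with ⟨h1, h2, h3, h4⟩ | hM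
    · obtain ⟨k, h5, h6, h7, h8⟩ := TWE.hTWE AMG.hAMG hRAT' I p X Q hB h1 h2 h3 h4
      refine hT (Helper10.PQS.hG2E I Z ⟨k, by rwa [← ho], by rw [← hd]; exact h7, ?_⟩)
      rw [← hth]
      exact h8
    · have hH := hTHF I p X Q hB hM
      obtain ⟨h1, h2, h3⟩ := hTIX hRAT' I p X Q hB hM hH
      let S : Finset I := Finset.univ.filter fun k => X.y k ≠ 0 ∧ X.t k = 1 ∧ k ≠ X.o
      have hS : ∀ k, k ∈ S ↔ X.y k ≠ 0 ∧ X.t k = 1 ∧ k ≠ X.o := fun k => by simp [S]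
      obtain ⟨k, hk, hk'⟩ := exists_pp S (Orb X)
        (fun k hk j hj => by
          obtain ⟨e1, e2, e3⟩ := (hS k).1 hk
          exact (hS j).2 ⟨by rw [(Orb_y X hj).1]; exact e1, Orb_t X hj e2, Orb_o X hj e3⟩)
        (fun k _ => Orb_self X k) (fun k _ j hj => Orb_eq X hj) X.y X.d ((p : ℤ) - X.y X.o)
        (by omega) (fun k _ j hj => Orb_y X hj) X.d_pos
        (fun k hk => by
          obtain ⟨e1, e2, e3⟩ := (hS k).1 hk
          exact h3 k e1 e2 e3)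
        (by rw [← h1, Finset.sum_filter]) m q s hm (fun k hk => hdm k ((hS k).1 hk).1)
      obtain ⟨e1, e2, e3⟩ := (hS k).1 hk
      exact hno k e1 e2 e3 hk'
  · have h1 : a = 1 := by
      have := X.a_pos
      omega
    subst h1
    haveI : NeZero p := ⟨hp.ne_zero⟩
    have hKs : ∀ k, k ∈ Ks X ↔ X.y k ≠ 0 ∧ X.t k = 1 ∧ k ≠ X.o := fun k => by simp [Ks]
    obtain ⟨C, hCd, hCy, hCK, hCO, hCg⟩ := hCDO MZZ.hMZZ DRE.hDRE TSU.hTSU STL.hSTL HEC.hHEC
      ORB.hORB hRAT' I p X Q hB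
    rcases hEND I p C with ⟨k, hk, h⟩ | ⟨k, hk, h⟩ | ⟨k, hk, h⟩ | ⟨k, hk, h⟩
    · rw [hCK] at hk
      rw [hCd] at h
      obtain ⟨e1, e2, e3⟩ := (hKs k).1 hk
      exact hno k e1 e2 e3 (Or.inl h)
    · rw [hCK] at hk
      rw [hCd, hCy, hCg] at h
      have hL : Lk Z b X := ⟨by rw [hn, hmX], hI, ho, hst, hd, hth, ht, hs, hchi, hN, fun i => by
        rw [hmX]; exact hz i⟩
      exact hT (TAN.hTAN LKD.hLKD Helper36.OC.hGLA Helper1.OC.hGLB Helper38.OC.hGLC TS2.hTS2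
        ORB.hORB I Z p b X Q hL hB k hk h)
    · rw [hCK] at hk
      rw [hCd] at h
      obtain ⟨e1, e2, e3⟩ := (hKs k).1 hk
      exact hno k e1 e2 e3 (Or.inr (by rw [h]; exact Nat.prime_two.isPrimePow))
    · have hO := C.O_K k hk
      obtain ⟨j, hj, hj'⟩ := exists_pp (C.K \ C.O k) C.O
        (fun j hj i hi => by
          obtain ⟨e1, e2⟩ := Finset.mem_sdiff.1 hj
          refine Finset.mem_sdiff.2 ⟨C.O_K j e1 hi, fun e3 => e2 ?_⟩
          rw [← C.O_eq k hk i e3, C.O_eq j e1 i hi]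
          exact C.O_self j e1)
        (fun j hj => C.O_self j (Finset.mem_sdiff.1 hj).1)
        (fun j hj => C.O_eq j (Finset.mem_sdiff.1 hj).1) C.y C.d C.g
        (by have := C.g_ge; omega) (fun j hj => C.O_y j (Finset.mem_sdiff.1 hj).1) C.d_pos
        (fun j hj => C.O_g j (Finset.mem_sdiff.1 hj).1) h m q s hm
        (fun j hj => by
          have e1 := (Finset.mem_sdiff.1 hj).1
          rw [hCK] at e1
          rw [hCd]
          exact hdm j ((hKs j).1 e1).1)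
      have e1 := (Finset.mem_sdiff.1 hj).1
      rw [hCK] at e1
      rw [hCd] at hj'
      obtain ⟨e2, e3, e4⟩ := (hKs j).1 e1
      exact hno j e2 e3 e4 hj'

end Pool.Agent.Helper4.PQ0
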