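import Pool.Agent.Helper89.OC.All

/-!
# Project PQS (MP_2b6189_al): the `p`-local data without parity assumptions

These are the definitions and statements of `Pool.Agent.Helper89.OS`, `Pool.Agent.Helper89.OC` with the structure `PD` weakened: `n` may
be even (no fields `m_odd`, `nsd`), and the new field `pi_chi`.  The block structure `Blk` has the new field `mem`.
-/

set_option autoImplicit false

namespace Pool.Agent.Helper4.PQ0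

open Matrix ComplexConjugate Pool.Agent.Helper94.YF Pool.Agent.Helper94.YG
open Pool.Agent.Helper89.OS hiding PD Cx Blk B0 Orb StXA StXB StXC StXE StCGR StISO StBLK StAMG StHEC StSTL StMZZ StDRE StTSU
open Pool.Agent.Helper89.OC hiding Ks gX OB Lk StORB StTS2 StLKD StTAN

/-- The `p`-local data of `Z(C)`, `p` an odd prime dividing `n = p m` exactly once (see `Pool.Agent.Helper89.OS.PD`). -/
structure PD (I : Type) [Fintype I] [DecidableEq I] (p a : ℕ) where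
  o : I
  st : I → I
  d : I → ℕ
  m : ℕ
  kap : I → ℕ
  th : I → ℂ
  t : I → ℂ
  s : I → I → ℂ
  y : I → ℤ
  z : I → ℤ
  chi : I → I → ℂ
  N : I → I → I → ℕ
  pi : (ZMod (p ^ a))ˣ → I → I
  prime : p.Prime
  p_odd : Odd p
  a_pos : 1 ≤ a
  cop : ¬ p ∣ m
  -- duality
  st_st : ∀ i, st (st i) = i
  st_o : st o = o
  d_st : ∀ i, d (st i) = d i
  t_st : ∀ i, t (st i) = t i
  y_st : ∀ i, y (st i) = y i
  -- dimensions, twists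
  d_pos : ∀ i, 0 < d i
  d_o : d o = 1
  d_dvd : ∀ i, d i ∣ p * m
  t_pow : ∀ i, t i ^ (p ^ a) = 1
  t_o : t o = 1
  th_of : ∀ i, y i ≠ 0 → t i = 1 → th i = 1
  -- the Lagrangian algebra
  kap_o : kap o = 1
  kap_t : ∀ i, kap i ≠ 0 → t i = 1
  kap_y : ∑ i, y i * (kap i : ℤ) = p
  -- the matrix s
  s_symm : ∀ i j, s i j = s j i
  s_o : ∀ i, s i o = y i
  s_int : ∀ i j, IsIntegral ℤ (s i j)
  s_uni : ∀ i j, ∑ k, s i k * conj (s j k) = if i = j then (p : ℂ) ^ 2 else 0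
  sd : ∀ i, ∑ j, s i j * (d j : ℂ) = (p : ℂ) ^ 2 * z i
  sz : ∀ i, ∑ j, s i j * (z j : ℂ) = d i
  z_t : ∀ i, z i ≠ 0 → t i = 1
  z_dvd : ∀ i, (d i : ℤ) ∣ p * z i
  -- the torus
  pi_one : ∀ i, pi 1 i = i
  pi_mul : ∀ c c' i, pi (c * c') i = pi c (pi c' i)
  pi_o : ∀ c, pi c o = o
  pi_d : ∀ c i, d (pi c i) = d i
  pi_y : ∀ c i, y (pi c i) = y i
  pi_z : ∀ c i, z (pi c i) = z i
  pi_chi : ∀ c j k, chi (pi c j) k = chi j (pi c k)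
  pi_t : ∀ c i, t (pi c i) = t i ^ ((c : ZMod (p ^ a)) ^ 2).val
  pi_s : ∀ c i j, s (pi c i) j = s i (pi c j)
  conj_s : ∀ i j, conj (s i j) = s i (pi (-1) j)
  gal : ∀ σ : ℂ ≃+* ℂ, ∃ c, ∀ i j, σ (s i j) = s i (pi c j)
  weil0 : ∀ i j, ∑ k, s i k * s k j = if i = pi (-1) j then (p : ℂ) ^ 2 else 0
  weil : ∀ (w : (ZMod (p ^ a))ˣ) (i j : I), ∑ k, t k ^ (w : ZMod (p ^ a)).val * (s i k * s k j) =
    (p : ℂ) * (t i ^ (-((w⁻¹ : (ZMod (p ^ a))ˣ) : ZMod (p ^ a))).val *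
      t j ^ (-((w⁻¹ : (ZMod (p ^ a))ˣ) : ZMod (p ^ a))).val) * s i (pi w⁻¹ j)
  ex : ∃ k, y k ≠ 0 ∧ t k ^ (p ^ (a - 1)) ≠ 1
  -- the fusion ring
  chi_int : ∀ j k, IsIntegral ℤ (chi j k)
  chi_o : ∀ j, chi j o = 1
  o_chi : ∀ k, chi o k = d k
  chi_mul : ∀ j k l, chi j k * chi j l = ∑ v, (N k l v : ℂ) * chi j v
  con : ∃ w : I → I → ℂ, (∀ i k, IsIntegral ℤ (w i k)) ∧
    ∀ i j, (m : ℂ) ^ 2 * s j i = (d j : ℂ) * ∑ k, w i k * chi j k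
  nhat : ∀ k i i', IsIntegral ℤ ((m : ℂ) ^ 2 / (p : ℂ) ^ 2 * ∑ j, conj (s j i) * chi j k * s j i')
  tor : ∀ E : I → ℂ, (∀ i, ∑ k, s i k * E k = (p : ℂ) * E i) → (∀ k, E k ≠ 0 → t k = 1) →
    ∀ j, t j ≠ 1 → ∑ k, E k * chi j k = 0

/-- the context of the modules `XA, XB, XC, XE` -/
structure Cx {I : Type} [Fintype I] [DecidableEq I] (Z : CentreData I) (p a m : ℕ) (b : ZMod Z.L)
    (j : ZMod (p ^ a) → ZMod Z.L) (tu : (ZMod (p ^ a))ˣ → (ZMod Z.L)ˣ)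
    (Pi : (ZMod Z.L)ˣ → I → I) (y z : I → ℤ) : Prop where
  prime : p.Prime
  p_odd : Odd p
  a_pos : 1 ≤ a
  cop : ¬ p ∣ m
  n_eq : Z.n = p * m
  idp : Idp Z.L p a b
  jh : JH Z.L (p ^ a) b j
  tu_val : ∀ w, (tu w : ZMod Z.L) = (1 - b) + j w
  tu_mul : ∀ w w', tu (w * w') = tu w * tu w'
  prm : ∀ c i k, Z.rho (Dg c) i k = if k = Pi c i then 1 else 0
  yy : ∀ i, (y i : ℂ) = (p : ℂ) * Z.rho (s2 b) i Z.o
  zz : ∀ i, (z i : ℂ) = (m : ℂ) * Z.rho (s2 (1 - b)) i Z.o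

/-- module `XA` -/
def StXA : Prop := StFUS → StDUA → StNRM → StRAT → StGRP → StENT →
  ∀ (I : Type) [Fintype I] [DecidableEq I] (Z : CentreData I) (p a m : ℕ) (b : ZMod Z.L)
  (j : ZMod (p ^ a) → ZMod Z.L) (tu : (ZMod (p ^ a))ˣ → (ZMod Z.L)ˣ) (Pi : (ZMod Z.L)ˣ → I → I)
  (y z : I → ℤ), Cx Z p a m b j tu Pi y z →
  (∀ i, y (Z.st i) = y i) ∧ (∀ i, Z.tw b (Z.st i) = Z.tw b i) ∧ (∀ i, Z.tw b i ^ (p ^ a) = 1) ∧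
  Z.tw b Z.o = 1 ∧ (∀ i, y i ≠ 0 → Z.tw b i = 1 → Z.th i = 1) ∧
  (∀ i, Z.kap i ≠ 0 → Z.tw b i = 1) ∧ (∑ i, y i * (Z.kap i : ℤ) = p) ∧ (∀ i, Z.d i ∣ p * m) ∧
  (∀ i, (Z.d i : ℤ) ∣ p * z i) ∧ (∀ i, z i ≠ 0 → Z.tw b i = 1)

/-- module `XB` -/
def StXB : Prop := StFUS → StDUA → StGRP → StENT →
  ∀ (I : Type) [Fintype I] [DecidableEq I] (Z : CentreData I) (p a m : ℕ) (b : ZMod Z.L)
  (j : ZMod (p ^ a) → ZMod Z.L) (tu : (ZMod (p ^ a))ˣ → (ZMod Z.L)ˣ) (Pi : (ZMod Z.L)ˣ → I → I)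
  (y z : I → ℤ), Cx Z p a m b j tu Pi y z →
  (∀ i k, (p : ℂ) * Z.rho (s2 b) i k = (p : ℂ) * Z.rho (s2 b) k i) ∧
  (∀ i k, IsIntegral ℤ ((p : ℂ) * Z.rho (s2 b) i k)) ∧
  (∀ i k, ∑ l, (p : ℂ) * Z.rho (s2 b) i l * conj ((p : ℂ) * Z.rho (s2 b) k l) =
    if i = k then (p : ℂ) ^ 2 else 0) ∧
  (∀ i, ∑ k, (p : ℂ) * Z.rho (s2 b) i k * (Z.d k : ℂ) = (p : ℂ) ^ 2 * z i) ∧
  (∀ i, ∑ k, (p : ℂ) * Z.rho (s2 b) i k * (z k : ℂ) = Z.d i)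

/-- module `XC` -/
def StXC : Prop := StFUS → StDUA → StAUT → StGRP → StENT →
  ∀ (I : Type) [Fintype I] [DecidableEq I] (Z : CentreData I) (p a m : ℕ) (b : ZMod Z.L)
  (j : ZMod (p ^ a) → ZMod Z.L) (tu : (ZMod (p ^ a))ˣ → (ZMod Z.L)ˣ) (Pi : (ZMod Z.L)ˣ → I → I)
  (y z : I → ℤ), Cx Z p a m b j tu Pi y z →
  (∀ i, Pi (tu 1) i = i) ∧
  (∀ (c c' : (ZMod (p ^ a))ˣ) (i : I), Pi (tu (c * c')) i = Pi (tu c) (Pi (tu c') i)) ∧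
  (∀ c, Pi (tu c) Z.o = Z.o) ∧ (∀ c i, Z.d (Pi (tu c) i) = Z.d i) ∧
  (∀ c i, y (Pi (tu c) i) = y i) ∧ (∀ c i, z (Pi (tu c) i) = z i) ∧
  (∀ (c : (ZMod (p ^ a))ˣ) (i : I),
    Z.tw b (Pi (tu c) i) = Z.tw b i ^ ((c : ZMod (p ^ a)) ^ 2).val) ∧
  (∀ c i k, Z.rho (s2 b) (Pi (tu c) i) k = Z.rho (s2 b) i (Pi (tu c) k)) ∧
  (∀ i k, conj (Z.rho (s2 b) i k) = Z.rho (s2 b) i (Pi (tu (-1)) k)) ∧
  (∀ σ : ℂ ≃+* ℂ, ∃ c, ∀ i k, σ (Z.rho (s2 b) i k) = Z.rho (s2 b) i (Pi (tu c) k)) ∧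
  (∀ i k, ∑ l, Z.rho (s2 b) i l * Z.rho (s2 b) l k = if i = Pi (tu (-1)) k then 1 else 0) ∧
  (∀ (w : (ZMod (p ^ a))ˣ) (i k : I),
    ∑ l, Z.tw b l ^ (w : ZMod (p ^ a)).val * (Z.rho (s2 b) i l * Z.rho (s2 b) l k) =
    (Z.tw b i ^ (-((w⁻¹ : (ZMod (p ^ a))ˣ) : ZMod (p ^ a))).val *
      Z.tw b k ^ (-((w⁻¹ : (ZMod (p ^ a))ˣ) : ZMod (p ^ a))).val) *
      Z.rho (s2 b) i (Pi (tu w⁻¹) k))

/-- module `XE` -/
def StXE : Prop := StFUS → StDUA → StGRP → StENT →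
  ∀ (I : Type) [Fintype I] [DecidableEq I] (Z : CentreData I) (p a m : ℕ) (b : ZMod Z.L)
  (j : ZMod (p ^ a) → ZMod Z.L) (tu : (ZMod (p ^ a))ˣ → (ZMod Z.L)ˣ) (Pi : (ZMod Z.L)ˣ → I → I)
  (y z : I → ℤ), Cx Z p a m b j tu Pi y z →
  (∀ i k, IsIntegral ℤ (Cchi Z i k)) ∧ (∀ i, Cchi Z i Z.o = 1) ∧ (∀ k, Cchi Z Z.o k = Z.d k) ∧
  (∀ i k l, Cchi Z i k * Cchi Z i l = ∑ v, (Z.N k l v : ℂ) * Cchi Z i v) ∧
  (∃ w : I → I → ℂ, (∀ i k, IsIntegral ℤ (w i k)) ∧ ∀ i l,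
    (m : ℂ) ^ 2 * ((p : ℂ) * Z.rho (s2 b) l i) = (Z.d l : ℂ) * ∑ k, w i k * Cchi Z l k) ∧
  (∀ k i i', IsIntegral ℤ ((m : ℂ) ^ 2 / (p : ℂ) ^ 2 * ∑ l, conj ((p : ℂ) * Z.rho (s2 b) l i) *
    Cchi Z l k * ((p : ℂ) * Z.rho (s2 b) l i'))) ∧
  (∀ E : I → ℂ, (∀ i, ∑ k, (p : ℂ) * Z.rho (s2 b) i k * E k = (p : ℂ) * E i) →
    (∀ k, E k ≠ 0 → Z.tw b k = 1) → ∀ l, Z.tw b l ≠ 1 → ∑ k, E k * Cchi Z l k = 0)

open Classical in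
/-- the principal block -/
noncomputable def B0 {I : Type} [Fintype I] [DecidableEq I] {p a : ℕ} (X : PD I p a)
    (Q : ℂ → Prop) : Finset I := Finset.univ.filter fun j => ∀ k, Q (X.chi j k - X.d k)

/-- module `CGR` -/
def StCGR : Prop := StRAT → ∀ (I : Type) [Fintype I] [DecidableEq I] (p a : ℕ) (X : PD I p a)
  (Q : ℂ → Prop), PI p Q → ¬ (p : ℤ) ∣ X.y X.o → ∀ j, (∀ k, Q (X.chi j k - X.d k)) →
  X.y j ≠ 0 ∧ ¬ p ∣ X.d j ∧ ¬ (p : ℤ) ∣ X.y j ∧ ∀ i, Q (X.s j i - X.d j * X.y i)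

/-- module `ISO` -/
def StISO : Prop := ∀ (I : Type) [Fintype I] [DecidableEq I] (p a : ℕ) (X : PD I p a)
  (Q : ℂ → Prop), PI p Q → ∀ i i', ∃ S : ℂ, IsIntegral ℤ S ∧ ¬ Q S ∧
    IsIntegral ℤ (S * (∑ j ∈ B0 X Q, conj (X.s j i) * X.s j i') / (p : ℂ) ^ 2)

/-- the structure of the principal block -/
structure Blk {I : Type} [Fintype I] [DecidableEq I] {p a : ℕ} (X : PD I p a) (Q : ℂ → Prop) :
    Prop where
  pi : PI p Q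
  x_nd : ¬ (p : ℤ) ∣ X.y X.o
  d_nd : ∀ j, X.y j ≠ 0 → ¬ p ∣ X.d j
  y_nd : ∀ j, X.y j ≠ 0 → ¬ (p : ℤ) ∣ X.y j
  cg : ∀ j, X.y j ≠ 0 → ∀ i, Q (X.s j i - X.d j * X.y i)
  sup : ∀ j i, X.y j ≠ 0 → X.y i = 0 → X.s j i = 0
  nz : ∀ j i, X.y j ≠ 0 → X.y i ≠ 0 → X.s j i ≠ 0
  mem : ∀ j, X.y j ≠ 0 → ∀ k, Q (X.chi j k - X.d k)

/-- module `BLK` -/
def StBLK : Prop := StRAT → StCGR → StISO → ∀ (I : Type) [Fintype I] [DecidableEq I] (p a : ℕ)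
  (X : PD I p a) (Q : ℂ → Prop), PI p Q → ¬ (p : ℤ) ∣ X.y X.o → Blk X Q

/-- module `AMG` -/
def StAMG : Prop := StRAT → ∀ (I : Type) [Fintype I] [DecidableEq I] (p a : ℕ) (X : PD I p a)
  (Q : ℂ → Prop), Blk X Q → ∀ (k : I) (S : Finset I), X.y k ≠ 0 → (∀ j ∈ S, X.y j ≠ 0) →
  (∀ c, ∀ j ∈ S, X.pi c j ∈ S) → (S.card : ℝ) ≤ ∑ j ∈ S, ‖X.s k j‖ ^ 2

open Classical in
/-- module `HEC` -/
def StHEC : Prop := ∀ (I : Type) [Fintype I] [DecidableEq I] (p : ℕ) (X : PD I p 1) (f : I → ℂ),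
  (∀ c i, f (X.pi c i) = f i) → (∀ i, f i ≠ 0 → X.t i = 1) → ∀ j,
  (∑ k, if X.t k = 1 then X.s j k * ∑ i, X.s k i * f i else 0) =
    (p : ℂ) * f j + ((if X.t j = 1 then (p : ℂ) else 0) - 1) * ∑ i, X.s j i * f i

open Classical in
/-- module `STL` -/
def StSTL : Prop := StHEC → ∀ (I : Type) [Fintype I] [DecidableEq I] (p : ℕ) (X : PD I p 1)
  (Q : ℂ → Prop), Blk X Q → ∀ f F : I → ℤ, (∀ c i, f (X.pi c i) = f i) →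
  (∀ i, f i ≠ 0 → X.t i = 1) → (∀ k, X.t k = 1 → (F k : ℂ) = ∑ i, X.s k i * (f i : ℂ)) →
  (∀ j, X.y j ≠ 0 → X.t j = 1 → ((p : ℤ) - X.y X.o) * (p * f j - F j) =
    (p * f X.o - F X.o) * ((if j = X.o then (p : ℤ) else 0) - X.y j)) ∧
  (∀ j, X.y j ≠ 0 → X.t j ≠ 1 → ((p : ℂ) - X.y X.o) * (∑ i, X.s j i * (f i : ℂ)) =
    ((p : ℂ) * f X.o - F X.o) * X.y j)

open Classical in
/-- module `MZZ` -/
def StMZZ : Prop := ∀ (I : Type) [Fintype I] [DecidableEq I] (p : ℕ) (X : PD I p 1),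
  ¬ (p : ℤ) ∣ X.y X.o →
  (∀ ζ : ℂ, ζ ≠ 1 → ζ ^ p = 1 → (∑ i, if X.t i = ζ then X.y i ^ 2 else 0) = p - X.y X.o) ∧
  (∑ i, if X.t i = 1 then X.y i ^ 2 else 0) = p + (p - 1) * X.y X.o ∧
  (∃ k, X.y k ≠ 0 ∧ X.t k ≠ 1) ∧ X.y X.o ≤ (p : ℤ) - 1 ∧ 1 ≤ (p : ℤ) - X.y X.o ∧
  1 ≤ X.y X.o ∧ ¬ (p : ℤ) ∣ X.y X.o

open Classical in
/-- module `DRE` -/
def StDRE : Prop := StSTL → StHEC → StMZZ → ∀ (I : Type) [Fintype I] [DecidableEq I] (p : ℕ)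
  (X : PD I p 1) (Q : ℂ → Prop), Blk X Q →
  (∀ j, X.y j ≠ 0 → X.t j = 1 → j ≠ X.o → ((p : ℤ) - X.y X.o) * X.d j =
    (p * X.z X.o - 1) * X.y j + ((p : ℤ) - X.y X.o) * (p * X.z j)) ∧
  (∀ j, X.y j ≠ 0 → X.t j ≠ 1 →
    ((p : ℤ) - X.y X.o) * X.d j = (p * X.z X.o - 1) * X.y j) ∧
  (∑ k, if X.t k = 1 then X.y k * (X.d k : ℤ) else 0) = p * X.z X.o + p - 1 ∧
  (p : ℤ) * X.z X.o - 1 ≠ 0

open Classical in
/-- the orbit of `k` under the torus -/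
noncomputable def Orb {I : Type} [Fintype I] [DecidableEq I] {p a : ℕ} (X : PD I p a) (k : I) :
    Finset I := Finset.univ.filter fun j => ∃ c, X.pi c k = j

open Classical in
/-- module `TSU` -/
def StTSU : Prop := StSTL → StHEC → StMZZ → StRAT → ∀ (I : Type) [Fintype I] [DecidableEq I] (p : ℕ)
  [NeZero p] (X : PD I p 1) (Q : ℂ → Prop), Blk X Q → ∀ k, X.y k ≠ 0 → X.t k = 1 → k ≠ X.o →
  (∀ j, X.y j ≠ 0 → X.t j = 1 → j ≠ X.o → ((p : ℂ) - X.y X.o) *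
    ((p : ℂ) * ((Finset.univ.filter fun c => X.pi c k = j).card : ℂ) - ∑ c, X.s j (X.pi c k)) =
    ((p : ℂ) - 1) * (X.y k * X.y j)) ∧
  ((p : ℤ) - X.y X.o) ∣ ((Orb X k).card : ℤ) * X.y k

open Classical in
/-- the nontrivial part of the principal block with `t = 1` -/
noncomputable def Ks {I : Type} [Fintype I] [DecidableEq I] {p : ℕ} (X : PD I p 1) : Finset I :=
  Finset.univ.filter fun k => X.y k ≠ 0 ∧ X.t k = 1 ∧ k ≠ X.o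

/-- `g = p - y o` -/
def gX {I : Type} [Fintype I] [DecidableEq I] {p : ℕ} (X : PD I p 1) : ℤ := (p : ℤ) - X.y X.o

/-- facts about the orbits -/
structure OB {I : Type} [Fintype I] [DecidableEq I] {p : ℕ} [NeZero p] (X : PD I p 1) :
    Prop where
  bij : ∀ c, Function.Bijective (X.pi c)
  self : ∀ k, k ∈ Orb X k
  eq : ∀ k j, j ∈ Orb X k → Orb X j = Orb X k
  y : ∀ k j, j ∈ Orb X k → X.y j = X.y k
  d : ∀ k j, j ∈ Orb X k → X.d j = X.d k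
  t : ∀ k j, j ∈ Orb X k → X.t k = 1 → X.t j = 1
  o : ∀ k, X.o ∈ Orb X k → k = X.o
  card : ∀ k, (Orb X k).card * (Finset.univ.filter fun c => X.pi c k = k).card = p - 1
  fib : ∀ k j, j ∈ Orb X k → (Finset.univ.filter fun c => X.pi c k = j).card =
    (Finset.univ.filter fun c => X.pi c k = k).card
  sum : ∀ (k : I) (F : I → ℂ), ((Orb X k).card : ℂ) * ∑ c, F (X.pi c k) =
    ((p : ℂ) - 1) * ∑ i ∈ Orb X k, F i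

/-- the link between the centre and the local data -/
structure Lk {I : Type} [Fintype I] [DecidableEq I] (Z : CentreData I) {p : ℕ} (b : ZMod Z.L)
    (X : PD I p 1) : Prop where
  n_eq : Z.n = p * X.m
  idp : Idp Z.L p 1 b
  o : X.o = Z.o
  st : X.st = Z.st
  d : X.d = Z.d
  th : X.th = Z.th
  t : X.t = Z.tw b
  s : X.s = fun i k => (p : ℂ) * Z.rho (s2 b) i k
  chi : X.chi = Cchi Z
  N : X.N = Z.N
  z : ∀ i, (X.z i : ℂ) = (X.m : ℂ) * Z.rho (s2 (1 - b)) i Z.o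

/-- module `ORB` -/
def StORB : Prop := ∀ (I : Type) [Fintype I] [DecidableEq I] (p : ℕ) [NeZero p] (X : PD I p 1), OB X

/-- module `TS2` -/
def StTS2 : Prop := StORB → ∀ (I : Type) [Fintype I] [DecidableEq I] (p : ℕ) [NeZero p]
  (X : PD I p 1) (Q : ℂ → Prop), Blk X Q → ∀ k ∈ Ks X,
  (∀ j, ∑ l, X.s j l * ((gX X : ℂ) * (if l ∈ Orb X k then 1 else 0) +
      ((Orb X k).card : ℂ) * X.y k * (if l = X.o then 1 else 0)) =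
    (p : ℂ) * ((gX X : ℂ) * (if j ∈ Orb X k then 1 else 0) +
      ((Orb X k).card : ℂ) * X.y k * (if j = X.o then 1 else 0))) ∧
  (∀ j, X.t j ≠ 1 → (gX X : ℂ) * ∑ i ∈ Orb X k, X.chi j i = -(((Orb X k).card : ℂ) * X.y k))

/-- module `LKD` -/
def StLKD : Prop := StGLA → ∀ (I : Type) [Fintype I] [DecidableEq I] (Z : CentreData I) (p : ℕ)
  (b : ZMod Z.L) (X : PD I p 1), Lk Z b X →
  ∀ i, i ≠ X.o → (∑ j, if X.t j = 1 then 0 else (X.d j : ℂ) ^ 2 * X.chi j i) =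
    -((X.m : ℂ) ^ 2 * X.y i * (if X.t i = 1 then (p : ℂ) - 1 else -1))

/-- module `TAN` -/
def StTAN : Prop := StLKD → StGLA → StGLB → StGLC → StTS2 → StORB →
  ∀ (I : Type) [Fintype I] [DecidableEq I] (Z : CentreData I) (p : ℕ) [NeZero p] (b : ZMod Z.L)
  (X : PD I p 1) (Q : ℂ → Prop), Lk Z b X → Blk X Q → ∀ k ∈ Ks X,
  X.y k = -(gX X * (X.d k : ℤ)) → ∃ D : I → Prop, TanSet Z D

end Pool.Agent.Helper4.PQ0
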