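import Pool.Agent.Helper45.PQ0.M_END

/-! # Project PQS (MP_2b6189_al): the ending for `a = 1` with all the data of the last alternative -/

set_option autoImplicit false

namespace Pool.Agent.Helper4.PQ0

open Matrix ComplexConjugate Pool.Agent.Helper94.YF Pool.Agent.Helper94.YG
open Pool.Agent.Helper89.OS hiding PD Cx Blk B0 Orb StXA StXB StXC StXE StCGR StISO StBLK StAMG StHEC StSTL StMZZ StDRE StTSU
open Pool.Agent.Helper89.OC hiding Ks gX OB Lk StORB StTS2 StLKD StTAN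
open Pool.Agent.Helper45.PQ0

/-- the last alternative of `END` with all its data -/
structure Alt4 {I : Type} [DecidableEq I] {p : ℕ} (C : CE I p) (k : I) : Prop where
  mem : k ∈ C.K
  y1 : C.y k ^ 2 = 1
  card : ((C.O k).card : ℤ) = C.g
  Dy : C.D * C.y k = C.d k
  ne : ∀ j ∈ C.K \ C.O k, C.D * C.y j ≠ C.d j
  sq : ∑ j ∈ C.K \ C.O k, C.y j ^ 2 = C.g * (p - C.g)
  dim : ∑ j ∈ C.K \ C.O k, C.y j * (C.d j : ℤ) = C.g

theorem case1' {I : Type} [DecidableEq I] {p : ℕ} (C : CE I p)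
    (hM : ∑ k ∈ AA C, C.y k ^ 2 = C.g * 1) : ∃ k, Alt4 C k := by
  obtain ⟨k, hk, hS⟩ := one_orbit C (S := AA C) (fun k hk => ⟨AK C hk, O_A C hk⟩)
    (by rw [hM, mul_one])
  have hkK := AK C hk
  have hg : 1 ≤ C.g := C.g_ge
  have h3 := orb_ge C hkK
  have h4 : ((C.O k).card : ℤ) * C.y k ^ 2 = C.g := by
    have h5 : ∑ j ∈ C.O k, C.y j ^ 2 = ((C.O k).card : ℤ) * C.y k ^ 2 := by
      rw [Finset.sum_congr rfl (fun j hj => by rw [(C.O_y k hkK j hj).1]), Finset.sum_const,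
        nsmul_eq_mul]
    rw [← h5, ← hS, hM, mul_one]
  have hc : (0 : ℤ) < (C.O k).card := by
    exact_mod_cast Finset.card_pos.2 ⟨k, C.O_self k hkK⟩
  have hy : 0 < |C.y k| := abs_pos.2 (C.y_ne k hkK)
  have hy2 : C.y k ^ 2 = |C.y k| ^ 2 := (sq_abs _).symm
  rw [hy2] at h4
  have h5 : |C.y k| = 1 := by
    by_contra hne
    have : 2 ≤ |C.y k| := by omega
    nlinarith
  rw [h5] at h4
  have h6 : ((C.O k).card : ℤ) = C.g := by linarith
  obtain ⟨h7, h8⟩ := Finset.mem_filter.1 hk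
  have h9 := sy C h7
  rw [h8, mul_one] at h9
  have h1 : ∑ j ∈ AA C, C.y j * (C.d j : ℤ) = C.g * C.D := by
    have h2 : ∀ j ∈ AA C, C.y j * (C.d j : ℤ) = C.D * C.y j ^ 2 := by
      intro j hj
      obtain ⟨h3, h4⟩ := Finset.mem_filter.1 hj
      have h5 := sy C h3
      rw [h4] at h5
      linear_combination (-C.y j) * h5
    rw [Finset.sum_congr rfl h2, ← Finset.mul_sum, hM]
    ring
  refine ⟨k, hkK, by rw [hy2, h5]; norm_num, h6, h9, ?_, ?_, ?_⟩
  · intro j hj hDj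
    obtain ⟨e1, e2⟩ := Finset.mem_sdiff.1 hj
    apply e2
    rw [← hS]
    refine Finset.mem_filter.2 ⟨e1, ?_⟩
    have h10 := sy C e1
    rw [hDj] at h10
    have hd0 : (C.d j : ℤ) ≠ 0 := by exact_mod_cast (C.d_pos j).ne'
    have h11 : (C.d j : ℤ) * ss C j = (C.d j : ℤ) * 1 := by rw [mul_one]; exact h10.symm
    exact mul_left_cancel₀ hd0 h11
  · rw [← hS]
    have h10 := Finset.sum_sdiff (f := fun j => C.y j ^ 2) (AK C)
    rw [hM, C.sq] at h10
    linarith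
  · rw [← hS]
    have h10 := Finset.sum_sdiff (f := fun j => C.y j * (C.d j : ℤ)) (AK C)
    rw [h1, C.dim] at h10
    linarith

/-- module END with all the data -/
theorem END1 {I : Type} [DecidableEq I] {p : ℕ} (C : CE I p) :
    (∃ k ∈ C.K, C.d k = 1) ∨ (∃ k ∈ C.K, C.y k = -(C.g * (C.d k : ℤ))) ∨
      (∃ k ∈ C.K, C.d k = 2) ∨ ∃ k, Alt4 C k := by
  obtain ⟨M, hM⟩ := exM C
  obtain ⟨h0, h1, hB, hX, i1, i2⟩ := ineq C M hM
  have hp : (3 : ℤ) ≤ p := by exact_mod_cast C.p3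
  have hg := C.g_ge
  have hg2 := C.g_le
  rcases (by omega : M = 0 ∨ M = 1 ∨ M = 2 ∨ 3 ≤ M) with h | h | h | h
  · exfalso
    rw [h] at hM
    exact case0 C hM
  · rw [h] at hM
    exact Or.inr (Or.inr (Or.inr (case1' C hM)))
  · have hD : 0 < C.D := by
      rcases sign_cases C with ⟨hs, ha, hpos⟩ | ⟨hs, ha, hneg⟩
      · exact hpos
      · exfalso
        rw [hs, ha, h] at i1
        nlinarith
    rw [h] at hM
    rcases case2 C hM hD with h3 | h3 | h3
    · exact Or.inl h3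
    · exact Or.inr (Or.inl h3)
    · exact Or.inr (Or.inr (Or.inl h3))
  · exfalso
    rcases sign_cases C with ⟨hs, ha, hpos⟩ | ⟨hs, ha, hneg⟩
    · rw [hs, ha] at i1
      have h2 : C.D * (p * M - 2 * p + C.g) ≤ p - 1 := by linarith
      have h3 : (p : ℤ) + 1 ≤ p * M - 2 * p + C.g := by nlinarith
      nlinarith
    · rw [hs, ha] at i1
      have h2 : -C.D * (p * M - 2 * p + C.g) ≤ -(p - 1) := by linarith
      have h3 : (p : ℤ) + 1 ≤ p * M - 2 * p + C.g := by nlinarith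
      nlinarith

end Pool.Agent.Helper4.PQ0
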