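import Pool.Agent.Helper4.PQ0.Defs

/-!
# Project OC, module ORB: orbits of the torus
-/

set_option autoImplicit false

namespace Pool.Agent.Helper4.PQ0.ORB

open Pool.Agent.Helper4.PQ0
open Pool.Agent.Helper89.OS hiding PD Cx Blk B0 Orb StXA StXB StXC StXE StCGR StISO StBLK StAMG StHEC StSTL StMZZ StDRE StTSU
open Pool.Agent.Helper89.OC hiding Ks gX OB Lk StORB StTS2 StLKD StTAN


theorem orb_mem {I : Type} [Fintype I] [DecidableEq I] {p : ℕ} (X : PD I p 1) (k i : I) :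
    i ∈ Orb X k ↔ ∃ c, X.pi c k = i := by
  simp only [Orb, Finset.mem_filter, Finset.mem_univ, true_and]

theorem orb_fib {I : Type} [Fintype I] [DecidableEq I] {p : ℕ} [NeZero p] (X : PD I p 1) (k i : I)
    (hi : i ∈ Orb X k) : (Finset.univ.filter fun c => X.pi c k = i).card =
      (Finset.univ.filter fun c => X.pi c k = k).card := by
  obtain ⟨c0, hc0⟩ := (orb_mem X k i).1 hi
  refine Finset.card_nbij' (fun c => c0⁻¹ * c) (fun c => c0 * c) ?_ ?_ ?_ ?_
  · intro c hc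
    have hc' := (Finset.mem_filter.1 (Finset.mem_coe.1 hc)).2
    refine Finset.mem_coe.2 (Finset.mem_filter.2 ⟨Finset.mem_univ _, ?_⟩)
    show X.pi (c0⁻¹ * c) k = k
    rw [X.pi_mul, hc', ← hc0, ← X.pi_mul, inv_mul_cancel, X.pi_one]
  · intro c hc
    have hc' := (Finset.mem_filter.1 (Finset.mem_coe.1 hc)).2
    refine Finset.mem_coe.2 (Finset.mem_filter.2 ⟨Finset.mem_univ _, ?_⟩)
    show X.pi (c0 * c) k = i
    rw [X.pi_mul, hc', hc0]
  · intro c _
    show c0 * (c0⁻¹ * c) = c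
    rw [mul_inv_cancel_left]
  · intro c _
    show c0⁻¹ * (c0 * c) = c
    rw [inv_mul_cancel_left]

theorem orb_sum {I : Type} [Fintype I] [DecidableEq I] {p : ℕ} [NeZero p] (X : PD I p 1) (k : I)
    (F : I → ℂ) : ∑ c, F (X.pi c k) =
      ((Finset.univ.filter fun c => X.pi c k = k).card : ℂ) * ∑ i ∈ Orb X k, F i := by
  have h1 : ∀ c ∈ (Finset.univ : Finset (ZMod (p ^ 1))ˣ), X.pi c k ∈ Orb X k := by
    intro c _
    exact (orb_mem X k _).2 ⟨c, rfl⟩
  rw [← Finset.sum_fiberwise_of_maps_to h1, Finset.mul_sum]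
  refine Finset.sum_congr rfl fun i hi => ?_
  rw [← orb_fib X k i hi]
  have h2 : ∀ c ∈ (Finset.univ.filter fun c => X.pi c k = i), F (X.pi c k) = F i := by
    intro c hc
    rw [(Finset.mem_filter.1 hc).2]
  rw [Finset.sum_congr rfl h2, Finset.sum_const, nsmul_eq_mul]

theorem orb_card {I : Type} [Fintype I] [DecidableEq I] {p : ℕ} [NeZero p] (X : PD I p 1) (k : I) :
    (Orb X k).card * (Finset.univ.filter fun c => X.pi c k = k).card = p - 1 := by
  have h1 : ∀ c ∈ (Finset.univ : Finset (ZMod (p ^ 1))ˣ), X.pi c k ∈ Orb X k := by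
    intro c _
    exact (orb_mem X k _).2 ⟨c, rfl⟩
  have h2 := Finset.card_eq_sum_card_fiberwise h1
  rw [Finset.sum_congr rfl fun i hi => orb_fib X k i hi, Finset.sum_const, smul_eq_mul,
    Finset.card_univ, ZMod.card_units_eq_totient] at h2
  have h3 : (p ^ 1).totient = p - 1 := by rw [pow_one, Nat.totient_prime X.prime]
  exact h2.symm.trans h3

theorem hORB : StORB := by
  intro I _ _ p _ X
  refine ⟨?_, ?_, ?_, ?_, ?_, ?_, ?_, orb_card X, orb_fib X, ?_⟩
  · intro c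
    refine ⟨fun i j hij => ?_, fun j => ⟨X.pi c⁻¹ j, ?_⟩⟩
    · have h := congrArg (X.pi c⁻¹) hij
      simp only [← X.pi_mul, inv_mul_cancel, X.pi_one] at h
      exact h
    · rw [← X.pi_mul, mul_inv_cancel, X.pi_one]
  · intro k
    exact (orb_mem X k k).2 ⟨1, X.pi_one k⟩
  · intro k j hj
    obtain ⟨c0, hc0⟩ := (orb_mem X k j).1 hj
    ext i
    rw [orb_mem, orb_mem]
    constructor
    · rintro ⟨c, hc⟩
      exact ⟨c * c0, by rw [X.pi_mul, hc0, hc]⟩
    · rintro ⟨c, hc⟩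
      exact ⟨c * c0⁻¹, by rw [← hc0, ← X.pi_mul, inv_mul_cancel_right, hc]⟩
  · intro k j hj
    obtain ⟨c, rfl⟩ := (orb_mem X k j).1 hj
    exact X.pi_y c k
  · intro k j hj
    obtain ⟨c, rfl⟩ := (orb_mem X k j).1 hj
    exact X.pi_d c k
  · intro k j hj ht
    obtain ⟨c, rfl⟩ := (orb_mem X k j).1 hj
    rw [X.pi_t, ht, one_pow]
  · intro k hk
    obtain ⟨c, hc⟩ := (orb_mem X k _).1 hk
    rw [← X.pi_one k, ← inv_mul_cancel c, X.pi_mul, hc, X.pi_o]
  · intro k F
    have h1 : ((Orb X k).card : ℂ) * ((Finset.univ.filter fun c => X.pi c k = k).card : ℂ) =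
        (p : ℂ) - 1 := by
      rw [← Nat.cast_mul, orb_card X k, Nat.cast_sub X.prime.one_lt.le, Nat.cast_one]
    rw [orb_sum X k F, ← mul_assoc, h1]

end Pool.Agent.Helper4.PQ0.ORB
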