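import Pool.Agent.Helper4.PQ0.Defs

/-!
# Project PQS (MP_2b6189_al), part 1: one odd prime `p` dividing `n` exactly once, `n` of any parity

`X : PD I p a` is the `p`-local data of `Pool.Agent.Helper4.PQ0` (no parity assumption).  Proved copies of the modules of project OS / OC
for this structure: `Pool.Agent.Helper4.PQ0.XX.hXX : StXX` for `XX = CGR, ISO, BLK, AMG, HEC, STL, MZZ, DRE, TSU, ORB, TS2, LKD, TAN` (files
`Pool/Agent/Helper4/PQ0/M_XX.lean`, import what you need); `hRAT' : StRAT` (`Pool.Agent.Helper94.YF`), `Helper66.OS.hPID : StPID`.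
Every module proves `theorem hXXX : ... → StXXX`.  Notation: `B = {k | y k ≠ 0}`, `x = y o`, `g = p - x`.  Always `∑ k, y k ^ 2 = p ^ 2`
(`s_uni` for `i = j = o`; `s o k = y k`).
-/

set_option autoImplicit false

namespace Pool.Agent.Helper4.PQ0

open Matrix ComplexConjugate Pool.Agent.Helper94.YF Pool.Agent.Helper94.YG
open Pool.Agent.Helper89.OS hiding PD Cx Blk B0 Orb StXA StXB StXC StXE StCGR StISO StBLK StAMG StHEC StSTL StMZZ StDRE StTSU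
open Pool.Agent.Helper89.OC hiding Ks gX OB Lk StORB StTS2 StLKD StTAN

/-- **PQS MODULE X0.**  `p` does not divide `x = y o`.
PROOF.  Suppose `p ∣ x`.  (1) For `j ∈ B0` all `Q (s j i - d j * y i)` (as in CGR, file `M_CGR.lean`; this part does not use `p ∤ x`), so for `i = o`: `Q (y j - d j * x)`, hence `Q (y j)` and `p ∣ y j`.
(2) `B0` is stable under the torus: `chi (pi c j) k = chi j (pi c k)` (`pi_chi`) and `d (pi c k) = d k`.  So, as in step (2) of BLK (file `M_BLK.lean`), `E i := ∑_{j ∈ B0} |s j i|^2` is a rational integer: it is fixed by all automorphisms (`gal`, `conj_s`, `pi_mul`; `j ↦ pi c j` is a bijection of `B0`).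
`0 ≤ E i ≤ ∑_j |s j i|^2 = p^2`, and `p^2 ∣ E i` by ISO (`i = i'`) and `dvd2` of `M_BLK.lean`.  So `E i = 0` or `E i = p^2`.  Let `B' = {i | E i = p^2}`.  So: `i ∈ B'` and `s j i ≠ 0` imply `j ∈ B0`; `i ∉ B'`, `j ∈ B0` imply `s j i = 0`.  In other words, for `j ∈ B0`: `s j i ≠ 0` implies `i ∈ B'` (`s` is symmetric).
(3) `∑_{i ∈ B'} ∑_{j ∈ B0} |s j i|^2 = p^2 |B'|`, and `∑_{j ∈ B0} ∑_{i ∈ B'} |s j i|^2 = p^2 |B0|` (row `j` is supported on `B'`), so `|B'| = |B0|`.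
(4) Let `i ∈ B'`, `s k i ≠ 0`.  Then `k ∈ B0`, and `weil` for `w = 1` (`pi 1⁻¹ i = i`): `∑ l, t l ^ 1.val * (s k l * s l i) = p * (nonzero) * s k i ≠ 0` (`t` is never `0`, `t_pow`), so some `l` has `s k l ≠ 0`, `s l i ≠ 0`; `l ∈ B0` (as `i ∈ B'`), so `k ∈ B'` (as `l ∈ B0`, `s l k ≠ 0`).
So column `i` is supported on `C = B0 ∩ B'`, and `p^2 |B'| = ∑_{i ∈ B'} ∑_{j ∈ C} |s j i|^2 ≤ ∑_{j ∈ C} ∑_i |s j i|^2 = p^2 |C|`.  Hence `B' ⊆ B0`, and by (3) `B' = B0`.  `o ∈ B0` (`o_chi`), so `o ∈ B'`: `∑_{j ∈ B0} (y j)^2 = p^2`, and `y j = 0` for `j ∉ B0`.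
(5) By (1) all `y j` are divisible by `p`, and `∑ (y j)^2 = p^2`: there is `j1` with `y j1 = ± p` and `y j = 0` for `j ≠ j1`.  `weil` for `w = 1`, `i = j = o`: `∑ k, t k ^ 1.val * (y k)^2 = p * x` (`t o = 1`, `pi_o`), i.e. `t j1 ^ 1.val * p^2 = p * x`, so `x ≠ 0` and `j1 = o`.  This contradicts `ex`
(some `k` with `y k ≠ 0`, `t k ^ (p^(a-1)) ≠ 1`; but `t o = 1`). -/
def StX0 : Prop := StRAT → StISO → ∀ (I : Type) [Fintype I] [DecidableEq I] (p a : ℕ)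
  (X : PD I p a) (Q : ℂ → Prop), PI p Q → ¬ (p : ℤ) ∣ X.y X.o

/-- Combinatorial data in the case `a = 1`: `K` is `{k | y k ≠ 0, t k = 1, k ≠ o}`. -/
structure CE (I : Type) [DecidableEq I] (p : ℕ) where
  K : Finset I
  y : I → ℤ
  d : I → ℕ
  z : I → ℤ
  O : I → Finset I
  g : ℤ
  D : ℤ
  prime : p.Prime
  p3 : 3 ≤ p
  g_ge : 1 ≤ g
  g_le : g ≤ p - 1
  y_ne : ∀ k ∈ K, y k ≠ 0
  d_pos : ∀ k, 0 < d k
  d_nd : ∀ k ∈ K, ¬ p ∣ d k
  sq : ∑ k ∈ K, y k ^ 2 = g * (p + 1 - g)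
  dim : ∑ k ∈ K, y k * (d k : ℤ) = g * (D + 1)
  rel : ∀ k ∈ K, (d k : ℤ) = D * y k + p * z k
  dvd : ∀ k ∈ K, (d k : ℤ) ∣ D * y k
  gD : (p : ℤ) ∣ g * D + 1
  pos : ∃ k ∈ K, 0 < y k
  O_K : ∀ k ∈ K, O k ⊆ K
  O_self : ∀ k ∈ K, k ∈ O k
  O_y : ∀ k ∈ K, ∀ j ∈ O k, y j = y k ∧ d j = d k
  O_eq : ∀ k ∈ K, ∀ j ∈ O k, O j = O k
  O_g : ∀ k ∈ K, g ∣ ((O k).card : ℤ) * y k

/-- **PQS MODULE END.**  The combinatorial ending for `a = 1` (pure).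
PROOF.  `D ≠ 0` (`gD`: otherwise `p ∣ 1`).  For `k ∈ K`: `D * y k = d k * s k` (`dvd`), `s k ≠ 0` an integer, and `rel`: `d k * (1 - s k) = p * z k`, so `p ∣ s k - 1` (`d_nd`).  So `s k = 1`, or `s k ≥ p + 1`, or `s k ≤ -(p - 1)`.  `y k * d k = (D / s k) (y k)^2`, so (real numbers)
(1) `∑_K (y k)^2 / s k = g (1 + 1/D)`.  `A = {k ∈ K | s k = 1}`, `α = ∑_A (y k)^2`, `T = ∑_K (y k)^2 = g (p + 1 - g)`.  `A` is a union of orbits `O k` (`O_y`, `O_eq`), `∑_{O k} y^2 = |O k| (y k)^2` is divisible by `g`; so `α = g M`, `M ≥ 0` an integer (group by orbits as in module CDX, `Pool/Agent/Helper94/OT/Cmb.lean`).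
(2) `M = 0`, i.e. `A` is empty.  `1 / s k ≤ 1/(p+1)` for all `k ∈ K`.  `D ≥ 1`: (1) gives `g < g (1 + 1/D) ≤ T/(p+1) < g`.  `D = -1`: the sum in (1) is `0` and `K` is not empty (`T > 0`), so some `s k > 0`, `s k ≥ p + 1`, `|y k| = s k * d k ≥ p + 1`, `(y k)^2 ≥ (p+1)^2 > g (p + 1 - g) = T`: false.
`D ≤ -2`: `g (1 - 1/|D|) ≤ g (p+1-g)/(p+1)`, so `g |D| ≤ p + 1`; `p ∣ g |D| - 1` and `g |D| ≥ 2`, so `g |D| = p + 1` and the inequality is an equality, so all `s k = p + 1`, `D * y k > 0`, `y k < 0` for all `k ∈ K`: contradicts `pos`.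
(3) `M ≥ 1`.  `1 / s k ≥ -1/(p-1)` for `k ∈ K \ A`, so (1) gives `g (1 + 1/D) ≥ g M - (T - g M)/(p-1)`, i.e. `M p ≤ (p + 1 - g) + (p - 1)(1 + 1/D)`.
If `M = 1`: let `k ∈ A`; `O k ⊆ A`, `|O k| (y k)^2 ≤ g`, and `g ≤ |O k| |y k|` (nonzero multiple of `g`): so `(y k)^2 = 1`, `|O k| = g`, `A = O k` (`∑_A y^2 = g`).  `∑_A y j * d j = ∑_A D (y j)^2 = g D`, and `dim`: `∑_{K \ O k} y d = g`: fourth alternative.
`D ≤ -1`: `M p ≤ 2 p - g - (p-1)/|D| < 2 p`, so `M = 1`.  `D ≥ 1`: `M ≥ 3` gives `3 p ≤ 2 p - g + (p-1)/D ≤ 3 p - 1 - g`: false.  `M = 2`: `g ≤ (p-1)/D`, `g D ≤ p - 1`, and `p ∣ g D + 1`: `g D = p - 1`, and the inequality in (3) is an equality: every `k ∈ K \ A` has `s k = -(p-1) = - g D`,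
`D * y k = - g D * d k`, `y k = -(g * d k)`: second alternative, if `K \ A` is not empty.  If `K = A`: `T = 2 g`, `g = p - 1`, `D = 1`, `y k = d k` for `k ∈ K`; take `k ∈ K`: `|O k| (d k)^2 ≤ T = 2 g`, `g ≤ |O k| d k`, so `d k ≤ 2`: first or third alternative. -/
def StEND : Prop := ∀ (I : Type) [DecidableEq I] (p : ℕ) (C : CE I p),
  (∃ k ∈ C.K, C.d k = 1) ∨ (∃ k ∈ C.K, C.y k = -(C.g * (C.d k : ℤ))) ∨ (∃ k ∈ C.K, C.d k = 2) ∨
    ∃ k ∈ C.K, ∑ j ∈ C.K \ C.O k, C.y j * (C.d j : ℤ) = C.g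

/-- **PQS MODULE CDO.**  The combinatorial data of `X : PD I p 1`.
PROOF.  Like module CDX (docstring in `Pool/Agent/Helper89/OS/St2.lean`; proofs of the same facts in `Pool/Agent/Helper94/OT/Cdx.lean`).  `K = Ks X`, `O = Orb X`, `g = gX X = p - y o`, `y, d, z` of `X`.  `g_ge`, `g_le`: MZZ (`1 ≤ g`, `1 ≤ y o`).  `sq`: MZZ (second claim), `∑_K y^2 = p + (p-1) x - x^2`.
`O_K`, `O_self`, `O_y`, `O_eq`: ORB and the fields `pi_*`; `O_g`: TSU (second claim).  `D`: DRE (3) gives `∑_K y d = E + g`, `E = p * z o - 1`; `g ∣ ∑_K y d` (group by orbits, `∑_{O k} y d = |O k| y k d k`), so `E = g D`; `dim`; `gD`.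
`rel`: DRE (1) divided by `g`.  `d_nd`: `Blk.d_nd`.  `dvd`: `d k ∣ p * z k` (`z_dvd`), `p ∤ d k`, so `d k ∣ z k`, and `rel`.  `pos`: `kap_y`: `∑ i, y i * kap i = p`; `kap i ≠ 0` implies `t i = 1`; the term of `o` is `x < p`; so some `k ∈ K` has `y k * kap k > 0`. -/
def StCDO : Prop := StMZZ → StDRE → StTSU → StSTL → StHEC → StORB → StRAT →
  ∀ (I : Type) [Fintype I] [DecidableEq I] (p : ℕ) [NeZero p] (X : PD I p 1) (Q : ℂ → Prop),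
  Blk X Q → ∃ C : CE I p, C.d = X.d ∧ C.y = X.y ∧ C.K = Ks X ∧ C.O = Orb X ∧ C.g = gX X

open Classical in
/-- The second case for `a = 2`: `E = {y ≠ 0, t ^ p ≠ 1}` is one orbit of the torus. -/
structure M1 {I : Type} [Fintype I] [DecidableEq I] {p : ℕ} (X : PD I p 2) : Prop where
  sq : ∀ j, X.y j ≠ 0 → X.t j ^ p ≠ 1 → X.y j ^ 2 = 1
  orb : ∀ j k, X.y j ≠ 0 → X.t j ^ p ≠ 1 → X.y k ≠ 0 → X.t k ^ p ≠ 1 → ∃ c, X.pi c j = k
  uni : ∀ j k, X.y j ≠ 0 → X.t j ^ p ≠ 1 → X.y k ≠ 0 → X.t k = X.t j → j = k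
  u : ∃ u : ℤ, (∀ η : ℂ, η ^ p = 1 → η ≠ 1 → (∑ i, if X.t i = η then X.y i ^ 2 else 0) = u) ∧
    (∑ i, if X.t i = 1 then X.y i ^ 2 else 0) = u + p * X.y X.o ∧ 2 * (u + X.y X.o) = p + 1

/-- **PQS MODULE TWC.**  `a ≥ 2` implies `a = 2`.
PROOF.  (Compare module TWA: docstring in `Pool/Agent/Helper89/OS/St2.lean`, proof in `Pool/Agent/Helper16/OS/M_TWA.lean`.)  `p ≥ 3`.  `ex`: `k0` with `y k0 ≠ 0`, `ζ0 = t k0`, `ζ0 ^ (p ^ (a-1)) ≠ 1`: a primitive root of order `P = p ^ a`.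
`kap_y`, `kap_t`: some `k1` has `t k1 = 1`, `y k1 ≠ 0`.  The elements `pi c k0`, `c` a unit, have `y ≠ 0` and the twists `ζ0 ^ (c^2).val ≠ 1`; these are at least `φ(P) / 2` different numbers (TWA, (1): `c^2 = c'^2` only for `c = ± c'`).
So `p ^ (a-1) (p - 1) / 2 + 1 ≤ ∑ (y k)^2 = p ^ 2`, and `a ≥ 3` would give `p^2 (p-1) / 2 ≥ p^2`. -/
def StTWC : Prop := ∀ (I : Type) [Fintype I] [DecidableEq I] (p a : ℕ) (_ : PD I p a), 2 ≤ a →
  a = 2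

open Classical in
/-- **PQS MODULE TWD.**  Counting in the case `a = 2`.
PROOF.  (Compare module TWA: docstring in `Pool/Agent/Helper89/OS/St2.lean`, proof in `Pool/Agent/Helper16/OS/M_TWA.lean`: the sums over units and the counting of the squares can be copied.)  `p ≥ 3`.
`M(ζ) := ∑_{t i = ζ} (y i)^2`, an integer `≥ 0`.  `ex`: `k0` with `y k0 ≠ 0`, `ζ0 = t k0`, `ζ0 ^ p ≠ 1`: a primitive root of order `p^2`.
(1) `M(1) ≥ 1`: `kap_y`, `kap_t`: some `k` has `t k = 1`, `y k ≠ 0`.  `M(ζ ^ (c^2).val) = M(ζ)` for units `c` (`pi_t`, `pi_y`, `pi c` is bijective).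
(2) `weil` for `i = k = o` and a unit `w`: `∑ k, t k ^ w.val * (y k)^2 = p x`.  Let `ξ ^ (p^2) = 1`.  Multiply by `(ξ⁻¹) ^ w.val` and sum over all units `w` of `ZMod (p^2)`: `∑_w θ ^ w.val` is `p^2 - p` for `θ = 1`, `-p` for `θ ≠ 1`, `θ ^ p = 1`, `0` for `θ ^ p ≠ 1` (`θ ^ (p^2) = 1`).  So
`p^2 M(ξ) - p ∑_{η ^ p = 1} M(η ξ) = p x * ((p^2 - p) if ξ = 1, -p if ξ ^ p = 1 ≠ ξ, 0 if ξ ^ p ≠ 1)`.  Hence `M(η) =: u` is the same for all `η ≠ 1`, `η ^ p = 1`, and `M(1) = u + p x`.  So `∑_{t ^ p = 1} y^2 = p (u + x)`.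
(3) Let `S2 = {ζ0 ^ (c^2).val}`; it has exactly `p (p-1)/2` elements (`c^2 = c'^2` iff `c = ± c'`), `M = m1 ≥ 1` on it; let `ζ1 = ζ0 ^ v1.val`, `v1` a nonsquare unit; the other elements of order `p^2` are the `ζ1 ^ (c^2).val` (the squares have index 2 in the group of units: `|units| = p (p-1)`, `|squares| = p (p-1)/2`, and for a
nonsquare `v`, `v v1⁻¹` is a square, because the squares and `v1` times the squares are two disjoint sets with `p (p-1)/2` elements each), `M = m2 ≥ 0` on them.  `p (u + x) + (p (p-1)/2) (m1 + m2) = ∑ y^2 = p^2`, `p (u + x) ≥ M(1) ≥ 1`, so `u + x ≥ 1`, `(p-1)(m1 + m2) ≤ 2 (p - 1)`: `m1 + m2 ∈ {1, 2}`, and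
`2 (u + x) = 2 p - (p-1)(m1 + m2)`.
(4) `m1 + m2 = 2`: `u + x = 1`, `u ≥ 0`, `M(1) = 1 + (p-1) x ≥ 1`: `x = 0` or `x = 1`; `x = 0` is excluded by `p ∤ x`.  So `x = 1`, `u = 0`, `M(1) = p`, and `M(η) = 0` gives the third claim.  All `(y k)^2 ≤ 2` for `t k ^ p ≠ 1`, `y k ≠ 0`, so `(y k)^2 = 1`, and the number of these `k` is their total mass `p (p-1)`: fourth claim.
(5) `m1 = 1`, `m2 = 0`: `(y j)^2 = 1` and `j` is determined by `t j` for `y j ≠ 0`, `t j ^ p ≠ 1` (then `t j ∈ S2`): `sq`, `uni`.  `orb`: `t j`, `t k ∈ S2`, so `t k = t j ^ (c^2).val = t (pi c j)` for some `c`, and `uni`.  `u`: (2), (3). -/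
def StTWD : Prop := ∀ (I : Type) [Fintype I] [DecidableEq I] (p : ℕ) (X : PD I p 2),
  ¬ (p : ℤ) ∣ X.y X.o →
  (X.y X.o = 1 ∧ (∑ i, if X.t i = 1 then X.y i ^ 2 else 0) = p ∧
    (∀ k, X.y k ≠ 0 → X.t k ^ p = 1 → X.t k = 1) ∧
    p ^ 2 ≤ (Finset.univ.filter fun k => X.y k ≠ 0 ∧ X.t k ≠ 1).card + p) ∨ M1 X

open Classical in
/-- **PQS MODULE TWE.**  The first case for `a = 2` (the proof is that of module TWB, `Pool/Agent/Helper29/OS/M_TWB.lean`). -/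
def StTWE : Prop := StAMG → StRAT → ∀ (I : Type) [Fintype I] [DecidableEq I] (p : ℕ)
  (X : PD I p 2) (Q : ℂ → Prop), Blk X Q → X.y X.o = 1 →
  (∑ i, if X.t i = 1 then X.y i ^ 2 else 0) = p →
  (∀ k, X.y k ≠ 0 → X.t k ^ p = 1 → X.t k = 1) →
  p ^ 2 ≤ (Finset.univ.filter fun k => X.y k ≠ 0 ∧ X.t k ≠ 1).card + p →
  ∃ k, k ≠ X.o ∧ X.y k ≠ 0 ∧ X.d k = 1 ∧ X.th k = 1

/-- **PQS MODULE THF.**  In the second case there is no `k` with `y k ≠ 0` and `t k` of order `p`.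
PROOF.  `E = {j | y j ≠ 0, t j ^ p ≠ 1}` (not empty: `ex`, `p^(2-1) = p`).  `x = y o`.  Suppose `y k ≠ 0`, `t k ^ p = 1`, `t k ≠ 1`.
(a) `k` is fixed by `Γ = {c | c = 1 mod p}` (`p` elements).  Otherwise the orbit of `k` under `Γ` has `p` elements (`p` prime), all with `t = t k` (`t k ^ (c^2).val = t k` for `c ∈ Γ`) and the same `y`, so `u ≥ p (y k)^2 ≥ p`, `x = (p+1)/2 - u ≤ (1-p)/2`, `M(1) = u + p x = (p+1)/2 + (p-1) x ≤ p (3-p)/2 ≤ 0`; but `M(1) ≥ 1` (`kap_y`, `kap_t`).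
(b) Let `k'` be `k` or `o`; both are fixed by `Γ`, so `s k' (pi c l) = s (pi c k') l = s k' l` for `c ∈ Γ`, and `s k' l ≠ 0` for `l ∈ E` (`Blk.nz`).  Write `T v l = t l ^ v.val`, `v : ZMod (p^2)` (additive in `v`).  Fix `j, j' ∈ E`, `j' = pi c j` (`orb`), so `t j' = T (c^2) j`.  `weil` for a unit `w` at `(k', j')`: `∑ l, T w l * (s k' l * s l j') = p * T (-w⁻¹) k' * T (-w⁻¹) j' * s k' (pi w⁻¹ j')`.
Multiply by `T (-w) j` and sum over all units `w` of `ZMod (p^2)`.  Left side: `∑_w (t l / t j) ^ w.val` is `p^2 - p` if `t l = t j`, `-p` if `(t l / t j) ^ p = 1`, `t l ≠ t j`, and `0` otherwise; `s k' l = 0` unless `y l ≠ 0` (`Blk.sup`); so `l ∈ E`, `t l ∈ t j * μ_p`, i.e. `l ∈ Γ j` (`uni`; `Γ j` has `p` elements), and `s k' l = s k' j`: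
left side `= s k' j * (p^2 * s j j' - p * ∑_{l ∈ Γ j} s l j')`.  Right side: `p ∑_w T (-w) j * T (-w⁻¹) k' * T (-w⁻¹ c^2) j * s k' (pi (w⁻¹ c) j)`.  Group the units `w` by their class modulo `p`: for `w = w0 (1 + p r)`: `w⁻¹ = w0⁻¹ (1 - p r)`, `T (-w⁻¹) k' = T (-w0⁻¹) k'` (order divides `p`), `s k' (pi (w⁻¹ c) j) = s k' (pi (w0⁻¹ c) j)`, and
`T (-w - w⁻¹ c^2) j = T (-w0 - w0⁻¹ c^2) j * (T (p) j) ^ (r (w0⁻¹ c^2 - w0))`; `T p j` is a primitive `p`-th root of unity, so the sum over `r = 0..p-1` is `0` unless `w0^2 = c^2 mod p`, i.e. `w0 = ± c mod p`; take `w0 = ± c`: then it is `p * T (∓ 2 c) j * T (∓ c⁻¹) k' * s k' (pi (± 1) j)`, and `pi (-1) j = j` (`t (pi (-1) j) = t j`, `uni`).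
So after division by `p^2 * s k' j`: `s j j' - (1/p) ∑_{l ∈ Γ j} s l j' = T (-2c) j * T (-c⁻¹) k' + T (2c) j * T (c⁻¹) k'`.
(c) The left side does not depend on `k'`.  `k' = o` (`t o = 1`): `ζ + ζ⁻¹ = η ζ + (η ζ)⁻¹` with `ζ = T (2c) j` of order `p^2` and `η = T (c⁻¹) k` of order `p` (any fixed `c`, e.g. `c = 1`, `j' = j`).  So `η ζ = ζ` or `η ζ = ζ⁻¹`: `η = 1` or `η = ζ^(-2)`, which has order `p^2`: both are false. -/
def StTHF : Prop := ∀ (I : Type) [Fintype I] [DecidableEq I] (p : ℕ) (X : PD I p 2)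
  (Q : ℂ → Prop), Blk X Q → M1 X → ∀ k, X.y k ≠ 0 → X.t k ^ p = 1 → X.t k = 1

open Classical in
/-- **PQS MODULE TIX.**  The identity in the second case.
PROOF.  `H` empty (third hypothesis), so `u = 0` (M1 `u`, `∑_{t = η} y^2 = 0`), `2 x = p + 1`, `g = p - x = (p - 1)/2 ≥ 1`, `M(1) = p x`.  `K0 = {k | y k ≠ 0, t k = 1}`, `E = {k | y k ≠ 0, t k ≠ 1}`.
(1) Let `f : I → ℂ` be invariant (`f (pi c i) = f i`), `f i ≠ 0 → t i = 1`, `F k = ∑ i, s k i * f i`.  Then for `y i ≠ 0`: `∑_{k ∈ K0} s i k * F k = p F i` if `t i = 1`, and `0` if `t i ≠ 1`.  Proof: sum `weil` (times `f j`) over all units `w` of `ZMod (p^2)`: `∑_w t k ^ w.val` is `p^2 - p` for `t k = 1` and `0` for `t k ^ p ≠ 1`, and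
`s i k = 0` for `y k = 0` (`sup`), so the left side is `(p^2 - p) ∑_{k ∈ K0} s i k * F k`; the right side is `p ∑_w t i ^ (-w⁻¹).val * ∑_j s i (pi w⁻¹ j) * f j = p F i ∑_w t i ^ (-w⁻¹).val` (`t j = 1` if `f j ≠ 0`; `f` invariant; reindex), and the sum over `w` is `p^2 - p` for `t i = 1`, `0` for `t i ^ p ≠ 1`.
(2) `f = z` (`z_t`, `pi_z`, `F k = d k` by `sz`), `i = o`: `∑_{K0} y k * d k = p * d o = p`, so `∑_{K0, k ≠ o} y k * d k = p - x`: first claim.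
(3) `f = e_o`: `F k = y k`: for `y i ≠ 0`: `∑_{K0} s i k * y k = p * y i` if `t i = 1`, `0` if `t i ≠ 1`.
(4) Let `k0 ∈ K0`, `k0 ≠ o`, `T = Orb X k0`, `r = |T|`, `f = 1_T` (invariant, supported on `K0`), `F k = ∑_{i ∈ T} s k i`.  Let `V` be the space of invariant functions on `K0`, with the inner product `<v, w> = ∑ v k * w k`, and `P v = (1/p) (s v)` restricted to `K0`; `P` maps `V` to `V` (`s (pi c k) i = s k (pi c i)`), is symmetric and `P (P v) = P v` by (1).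
If `P v = 0`: then `s v` vanishes on `K0` and outside `B` (`sup`), and it is invariant, so it is constant on `E` (`E` is one orbit, M1 `orb`).  Let `n0 = e_o - (1/p) y|K0 = e_o - P e_o`.  `P n0 = 0` and `<n0, n0> = <e_o, n0> = 1 - x/p = g/p`.  For `v ∈ V` with `P v = 0`: `s v = α 1_E`, `s n0 = β 1_E` with `β ≠ 0` (`s` is injective by `s_uni`, `n0 ≠ 0`), so
`s (β v - α n0) = 0`, `v = (α/β) n0`.  So for every `f ∈ V`: `f - P f = λ n0`, `λ = <f, n0> / <n0, n0>` (`<P f, n0> = <f, P n0> = 0`).  For `f = 1_T`: `<f, n0> = - r (y k0)/p`, `λ = - r (y k0)/g`.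
So `G := f + (r (y k0)/g) e_o = f - λ e_o` satisfies `P G = P f - λ P e_o = f - λ n0 - λ P e_o = f - λ e_o = G`, i.e. `∑ k, s i k * G k = p * G i` for `i ∈ K0`; for `i ∈ E`: `s G = s (P G)` and `∑_{K0} s i k * (P G) k = (1/p) ∑_{K0} s i k * (s G) k = 0` by (1) for `f = G`; for `y i = 0`: `s i k = 0` for `k ∈ K0`, `G i = 0`.
Field `tor` for `G` and a `j ∈ E`: `∑_{i ∈ T} chi j i + r (y k0)/g = 0` (`chi_o`).  So `r (y k0)/g` is integral and rational: an integer (RAT): second claim. -/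
def StTIX : Prop := StRAT → ∀ (I : Type) [Fintype I] [DecidableEq I] (p : ℕ) (X : PD I p 2)
  (Q : ℂ → Prop), Blk X Q → M1 X → (∀ k, X.y k ≠ 0 → X.t k ^ p = 1 → X.t k = 1) →
  (∑ k, if X.y k ≠ 0 ∧ X.t k = 1 ∧ k ≠ X.o then X.y k * (X.d k : ℤ) else 0) = p - X.y X.o ∧
  1 ≤ (p : ℤ) - X.y X.o ∧ ∀ k, X.y k ≠ 0 → X.t k = 1 → k ≠ X.o →
  ((p : ℤ) - X.y X.o) ∣ ((Orb X k).card : ℤ) * X.y k

end Pool.Agent.Helper4.PQ0
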